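import Pool.Agent.Helper6.WB.Arith

set_option autoImplicit false

/-!
# More polynomial time functions: comparison, lengths, powers, flatMap
-/

namespace Pool.Agent.Helper47.TR

open Turing Function N487b59b3 N68a2faeb Pool.Agent.Helper22 Pool.Agent.Helper6.WB Computability

section

variable {α β γ δ : Type} [N487b59b3 α] [N487b59b3 β] [N487b59b3 γ] [N487b59b3 δ]

/-! ## Comparison -/

/-- one step of the comparison -/
def leStep (s : Bool × (List Bool × List Bool)) : Bool × (List Bool × List Bool) :=
  (if s.2.1.headD false == s.2.2.headD false then s.1 else s.2.2.headD false,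
    (s.2.1.tail, s.2.2.tail))

theorem leStep_iter (n : ℕ) (r : Bool) (x y : List Bool) (hx : x.length ≤ n)
    (hy : y.length ≤ n) :
    (leStep^[n] (r, (x, y))).1 = if val x = val y then r else decide (val x < val y) := by
  induction n generalizing r x y with
  | zero =>
    rw [List.length_eq_zero_iff.mp (Nat.le_zero.mp hx),
      List.length_eq_zero_iff.mp (Nat.le_zero.mp hy)]
    simp
  | succ n ih =>
    rw [Function.iterate_succ_apply, leStep, ih _ _ _ (by simp; omega) (by simp; omega)]
    have ex : val x = (x.headD false).toNat + 2 * val x.tail := by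
      cases x with
      | nil => rfl
      | cons b x => simp [Nat.bit_val]; ring
    have ey : val y = (y.headD false).toNat + 2 * val y.tail := by
      cases y with
      | nil => rfl
      | cons b y => simp [Nat.bit_val]; ring
    simp only
    rw [ex, ey]
    generalize x.headD false = p
    generalize y.headD false = q
    generalize val x.tail = a
    generalize val y.tail = b
    by_cases hab : a = b
    · subst hab
      cases p <;> cases q <;> simp
    · rw [if_neg hab]
      have h1 : p.toNat ≤ 1 := Bool.toNat_le p
      have h2 : q.toNat ≤ 1 := Bool.toNat_le q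
      rw [if_neg (by omega)]
      apply decide_eq_decide.mpr
      omega

theorem leStep_iter_len (n : ℕ) (s : Bool × (List Bool × List Bool)) :
    (leStep^[n] s).2.1 = s.2.1.drop n ∧ (leStep^[n] s).2.2 = s.2.2.drop n := by
  induction n with
  | zero => exact ⟨rfl, rfl⟩
  | succ n ih =>
    rw [Function.iterate_succ_apply']
    constructor
    · simp only [leStep]
      rw [ih.1, List.tail_drop]
    · simp only [leStep]
      rw [ih.2, List.tail_drop]

@[fun_prop]
theorem FP.natLe {f g : α → ℕ} (hf : FP f) (hg : FP g) : FP fun a => decide (f a ≤ g a) := by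
  have hs : FP leStep := by
    unfold leStep
    fun_prop
  have h1 : FP fun p : List Bool × (Bool × (List Bool × List Bool)) =>
      leStep^[p.1.length] p.2 := by
    refine FP.iterate hs (B := fun n => 10 * n + 20) (by fun_prop) ?_
    intro l a i _
    obtain ⟨h2, h3⟩ := leStep_iter_len i a
    have h5 := sz_drop a.2.1 i
    have h6 := sz_drop a.2.2 i
    obtain ⟨c, x, y⟩ := a
    rcases hq : leStep^[i] (c, x, y) with ⟨c', x', y'⟩
    rw [hq] at h2 h3
    simp only at h2 h3 h5 h6
    rw [← h2] at h5
    rw [← h3] at h6
    simp only [sz_pair, sz_bool, sz_bits] at *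
    omega
  have h2 : FP fun a => encodeNat (f a) ++ encodeNat (g a) := (FP.bits hf).append (FP.bits hg)
  have h3 := h1.comp (h2.pair (FP.pair (FP.const true) (FP.pair (FP.bits hf) (FP.bits hg))))
  refine (congrArg FP (funext fun a => ?_)).mp h3.fst'
  simp only
  rw [leStep_iter _ _ _ _ (by simp) (by simp), val_encodeNat, val_encodeNat]
  by_cases h : f a = g a
  · simp [h]
  · rw [if_neg h]
    apply decide_eq_decide.mpr
    omega

/-! ## Lengths -/

theorem size_add_le (a b : ℕ) : Nat.size (a + b) ≤ Nat.size a + b := by
  rw [Nat.size_le, pow_add]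
  have h1 := Nat.lt_size_self a
  have h2 : b < 2 ^ b := Nat.lt_two_pow_self
  have h3 : (a + 1) * (b + 1) ≤ 2 ^ a.size * 2 ^ b := Nat.mul_le_mul h1 h2
  nlinarith

theorem size_mul_le (a b : ℕ) : Nat.size (a * b) ≤ Nat.size a + Nat.size b := by
  rw [Nat.size_le, pow_add]
  have h1 := Nat.lt_size_self a
  have h2 := Nat.lt_size_self b
  rcases Nat.eq_zero_or_pos b with rfl | hb
  · simp
  · calc a * b < 2 ^ a.size * b := by
          exact Nat.mul_lt_mul_of_pos_right h1 hb
      _ ≤ 2 ^ a.size * 2 ^ b.size := Nat.mul_le_mul_left _ h2.le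

theorem size_mono {a b : ℕ} (h : a ≤ b) : Nat.size a ≤ Nat.size b := Nat.size_le_size h

theorem size_pow_le (a i : ℕ) : Nat.size (a ^ i) ≤ i * Nat.size a + 1 := by
  induction i with
  | zero => simp
  | succ i ih =>
    rw [pow_succ]
    refine (size_mul_le _ _).trans ?_
    have : (i + 1) * a.size = i * a.size + a.size := by ring
    omega

omit [N487b59b3 β] in
theorem length_foldl (l : List β) (v : ℕ) : l.foldl (fun s _ => s + 1) v = v + l.length := by
  induction l generalizing v with
  | nil => rfl
  | cons b l ih => rw [List.foldl_cons, ih, List.length_cons]; ring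

@[fun_prop]
theorem FP.length [Inhabited β] {f : α → List β} (hf : FP f) : FP fun a => (f a).length := by
  have h1 : FP fun p : List β × ℕ => p.1.foldl (fun s _ => s + 1) p.2 := by
    refine FP.foldl (g := fun (s : ℕ) (_ : β) => s + 1)
      (FP.natAdd (by fun_prop) (FP.const 1)) (B := fun n => n) (by fun_prop) ?_
    intro l a
    rw [length_foldl, sz_nat, sz_nat]
    have := size_add_le a l.length
    have := length_le_sz l
    omega
  have h2 := h1.comp (hf.pair (FP.const 0))
  simp only [length_foldl, zero_add] at h2
  exact h2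

/-! ## flatMap -/

omit [N487b59b3 β] [N487b59b3 γ] [N487b59b3 δ] in
theorem foldl_flatMap_ctx (h : γ × β → List δ) (l : List β) (c : γ) (acc : List δ) :
    l.foldl (fun (s : γ × List δ) (b : β) => (s.1, s.2 ++ h (s.1, b))) (c, acc) =
      (c, acc ++ l.flatMap fun b => h (c, b)) := by
  induction l generalizing acc with
  | nil => simp
  | cons b l ih => simp [ih]

omit [N487b59b3 β] in
theorem sz_flatMap_le (f : β → List δ) (l : List β) (C : ℕ) (h : ∀ b ∈ l, sz (f b) ≤ C) :
    sz (l.flatMap f) ≤ l.length * C := by
  induction l with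
  | nil => simp
  | cons a l ih =>
    have h1 := h a (by simp)
    have h2 := ih fun b hb => h b (by simp [hb])
    rw [List.flatMap_cons, sz_append, List.length_cons]
    have h3 : (l.length + 1) * C = l.length * C + C := by ring
    omega

theorem FP.flatMap_ctx [Inhabited β] {h : γ × β → List δ} (hh : FP h) :
    FP fun p : γ × List β => p.2.flatMap fun b => h (p.1, b) := by
  obtain ⟨B, hB, hBm, hBle⟩ := hh.bound
  have h1 : FP fun p : List β × (γ × List δ) =>
      p.1.foldl (fun (s : γ × List δ) (b : β) => (s.1, s.2 ++ h (s.1, b))) p.2 := by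
    refine FP.foldl (g := fun (s : γ × List δ) (b : β) => (s.1, s.2 ++ h (s.1, b))) ?_
      (B := fun n => 2 * n + 1 + (n + n * B (3 * n + 1))) (by fun_prop) ?_
    · have h2 : FP fun p : (γ × List δ) × β => h (p.1.1, p.2) := hh.comp (by fun_prop)
      fun_prop
    · rintro l ⟨c, acc⟩
      rw [foldl_flatMap_ctx]
      have h4 := sz_flatMap_le (fun b => h (c, b)) l (B (3 * (sz l + sz (c, acc)) + 1)) (by
        intro b hb
        refine (hBle _).trans (hBm ?_)
        have := sz_mem_le hb
        simp only [sz_pair]; omega)
      have h5 : l.length ≤ sz l + sz (c, acc) := by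
        have := length_le_sz l
        omega
      have h6 := Nat.mul_le_mul_right (B (3 * (sz l + sz (c, acc)) + 1)) h5
      have h7 : 2 * sz c + 1 + sz acc ≤ sz l + sz (c, acc) := by
        simp only [sz_pair]; omega
      rw [sz_pair, sz_append]
      generalize sz (c, acc) = N at *
      omega
  have h2 := FP.snd.comp (h1.comp (FP.pair (f := fun p : γ × List β => p.2) (by fun_prop)
    (FP.pair (f := fun p : γ × List β => p.1) (by fun_prop) (FP.const ([] : List δ)))))
  simp only [foldl_flatMap_ctx, List.nil_append] at h2
  exact h2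

theorem FP.filter [Inhabited β] {c : β → Bool} (hc : FP c) {f : α → List β} (hf : FP f) :
    FP fun a => (f a).filter c := by
  have h1 : FP fun q : Bool × β => if c q.2 then [q.2] else [] :=
    FP.ite (hc.comp (by fun_prop)) (FP.cons (by fun_prop) (FP.const [])) (FP.const [])
  have h2 := (FP.flatMap_ctx h1).comp (FP.pair (FP.const true) hf)
  refine (congrArg FP (funext fun a => ?_)).mp h2
  simp only
  induction (f a) with
  | nil => rfl
  | cons b l ih =>
    rw [List.flatMap_cons, ih, List.filter_cons]
    split_ifs <;> simp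

/-! ## Powers -/

omit [N487b59b3 β] in
theorem pow_foldl (l : List β) (b v : ℕ) :
    l.foldl (fun (s : ℕ × ℕ) _ => (s.1, s.1 * s.2)) (b, v) = (b, b ^ l.length * v) := by
  induction l generalizing v with
  | nil => simp
  | cons x l ih => rw [List.foldl_cons, ih, List.length_cons, pow_succ, mul_assoc]

@[fun_prop]
theorem FP.powU [Inhabited β] {f : α → ℕ} {g : α → List β} (hf : FP f) (hg : FP g) :
    FP fun a => f a ^ (g a).length := by
  have h1 : FP fun p : List β × (ℕ × ℕ) =>
      p.1.foldl (fun (s : ℕ × ℕ) _ => (s.1, s.1 * s.2)) p.2 := by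
    refine FP.foldl (g := fun (s : ℕ × ℕ) (_ : β) => (s.1, s.1 * s.2))
      (FP.pair (by fun_prop) (FP.natMul (by fun_prop) (by fun_prop)))
      (B := fun n => 3 * n + n * n + 2) (by fun_prop) ?_
    rintro l ⟨b, v⟩
    rw [pow_foldl]
    simp only [sz_pair, sz_nat]
    have h2 := size_mul_le (b ^ l.length) v
    have h3 := size_pow_le b l.length
    have h4 := length_le_sz l
    have h5 : l.length * b.size ≤ (sz l + (2 * b.size + 1 + v.size)) *
      (sz l + (2 * b.size + 1 + v.size)) := Nat.mul_le_mul (by omega) (by omega)
    omega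
  have h2 := h1.comp (hg.pair (hf.pair (FP.const 1)))
  simp only [pow_foldl, mul_one] at h2
  exact h2.snd'

/-! ## Parity and integers -/

omit [N487b59b3 β] in
theorem par_foldl (l : List β) (b : Bool) :
    l.foldl (fun s _ => !s) b = (b ^^ decide (l.length % 2 = 1)) := by
  induction l generalizing b with
  | nil => simp
  | cons x l ih =>
    rw [List.foldl_cons, ih, List.length_cons]
    rcases Nat.mod_two_eq_zero_or_one l.length with h | h
    · have h' : (l.length + 1) % 2 = 1 := by omega
      simp [h, h']
    · have h' : (l.length + 1) % 2 = 0 := by omega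
      simp [h, h']

@[fun_prop]
theorem FP.odd [Inhabited β] {f : α → List β} (hf : FP f) :
    FP fun a => decide ((f a).length % 2 = 1) := by
  have h1 : FP fun p : List β × Bool => p.1.foldl (fun s _ => !s) p.2 := by
    refine FP.foldl (g := fun (s : Bool) (_ : β) => !s) (by fun_prop) (B := fun n => n)
      (by fun_prop) ?_
    intro l a
    simp
  have h2 := h1.comp (hf.pair (FP.const false))
  refine (congrArg FP (funext fun a => ?_)).mp h2
  rw [par_foldl]
  simp

theorem FP.intPos {f : α → ℕ} (hf : FP f) : FP fun a => (f a : ℤ) := by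
  refine FP.recode (f := fun a => (f a, 0)) (hf.pair (FP.const 0)) (fun a => ?_)
  show bitEncode (((f a : ℤ).toNat), (-(f a : ℤ)).toNat) = _
  congr 1
  simp

theorem FP.intNeg {f : α → ℕ} (hf : FP f) : FP fun a => (-(f a : ℤ)) := by
  refine FP.recode (f := fun a => (0, f a)) ((FP.const 0).pair hf) (fun a => ?_)
  show bitEncode (((-(f a : ℤ)).toNat), (-(-(f a : ℤ))).toNat) = _
  congr 1
  simp

end

end Pool.Agent.Helper47.TR
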