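import Mathlib
import Pool.Prelude.Def_H_3587d628

set_option autoImplicit false

/-!
# Multigraphs, the Tutte polynomial, and one-query approximation preserving reductions
-/

namespace Pool.Agent.Helper47.TR

/-- Code of a multigraph: the vertices are `0, …, |V| - 1`, where `|V|` is the length of the
first list; the second list is the list of edges (loops and parallel edges allowed). -/
abbrev MG := List Bool × List (ℕ × ℕ)

/-- all ends of edges are vertices -/
def Valid (G : MG) : Prop := ∀ e ∈ G.2, e.1 < G.1.length ∧ e.2 < G.1.length

/-- `u`, `v` are the two ends of an edge of the set `A` -/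
def adj (G : MG) (A : Finset (Fin G.2.length)) (u v : Fin G.1.length) : Prop :=
  ∃ i ∈ A, (G.2.get i).1 = u ∧ (G.2.get i).2 = v

/-- `k(A)`: the number of connected components of `(V, A)` -/
noncomputable def comps (G : MG) (A : Finset (Fin G.2.length)) : ℕ := Nat.card (Quot (adj G A))

/-- The Tutte polynomial `T(G; x, y) = ∑_A (x-1)^(k(A)-k(E)) (y-1)^(|A|+k(A)-|V|)`. -/
noncomputable def tutte (x y : ℚ) (G : MG) : ℚ :=
  ∑ A : Finset (Fin G.2.length), (x - 1) ^ (comps G A - comps G Finset.univ) *
    (y - 1) ^ (A.card + comps G A - G.1.length)

/-- `APRed f g`: approximate evaluation of `f` reduces to approximate evaluation of `g` by a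
deterministic polynomial time algorithm with one oracle call. The algorithm maps a multigraph `G`
and a precision parameter `N`, given in unary as the length of a list, to a multigraph `G'` and a
rational number `c = a / b`, and `c * g(G')` equals `f(G)` up to a relative error `1 / N`. -/
def APRed (f g : MG → ℚ) : Prop :=
  ∃ h : MG × List Bool → MG × (ℤ × ℕ), N68a2faeb.IsPolyTime h ∧
    ∀ G : MG, Valid G → ∀ N : List Bool,
      Valid (h (G, N)).1 ∧ (h (G, N)).2.2 ≠ 0 ∧
      N.length * |f G - (h (G, N)).2.1 / (h (G, N)).2.2 * g (h (G, N)).1| ≤ |f G|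

end Pool.Agent.Helper47.TR
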