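import Pool.Agent.Helper47.TR.Search

set_option autoImplicit false

/-!
# Approximation preserving reductions with one oracle call
-/

namespace Pool.Agent.Helper47.TR

open Turing Function N487b59b3 N68a2faeb Pool.Agent.Helper22 Pool.Agent.Helper6.WB Computability

section

variable {α : Type} [N487b59b3 α]

theorem FP.toNatPair {f : α → ℤ} (hf : FP f) : FP fun a => ((f a).toNat, (-(f a)).toNat) :=
  FP.recode hf (fun _ => rfl)

theorem toNat_mul' (a b : ℤ) :
    (a * b).toNat = a.toNat * b.toNat + (-a).toNat * (-b).toNat := by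
  rcases le_total 0 a with ha | ha <;> rcases le_total 0 b with hb | hb
  · rw [Int.toNat_mul ha hb, Int.toNat_eq_zero.mpr (by omega : -a ≤ 0)]; simp
  · rw [Int.toNat_eq_zero.mpr (mul_nonpos_of_nonneg_of_nonpos ha hb),
      Int.toNat_eq_zero.mpr hb, Int.toNat_eq_zero.mpr (by omega : -a ≤ 0)]; simp
  · rw [Int.toNat_eq_zero.mpr (mul_nonpos_of_nonpos_of_nonneg ha hb),
      Int.toNat_eq_zero.mpr ha, Int.toNat_eq_zero.mpr (by omega : -b ≤ 0)]; simp
  · have h : a * b = (-a) * (-b) := by ring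
    rw [h, Int.toNat_mul (by omega) (by omega), Int.toNat_eq_zero.mpr ha]; simp

theorem FP.intMul {f g : α → ℤ} (hf : FP f) (hg : FP g) : FP fun a => f a * g a := by
  have h1 := FP.toNatPair hf
  have h2 := FP.toNatPair hg
  have h3 : FP fun a => (f a).toNat * (g a).toNat + (-(f a)).toNat * (-(g a)).toNat :=
    FP.natAdd (FP.natMul h1.fst' h2.fst') (FP.natMul h1.snd' h2.snd')
  have h4 : FP fun a => (f a).toNat * (-(g a)).toNat + (-(f a)).toNat * (g a).toNat :=
    FP.natAdd (FP.natMul h1.fst' h2.snd') (FP.natMul h1.snd' h2.fst')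
  refine FP.recode (h3.pair h4) (fun a => ?_)
  show bitEncode ((f a * g a).toNat, (-(f a * g a)).toNat) = _
  congr 1
  ext
  · exact toNat_mul' _ _
  · simp only
    rw [← mul_neg, toNat_mul', neg_neg]

end

theorem APRed.trans {f g e : MG → ℚ} (h1 : APRed f g) (h2 : APRed g e) : APRed f e := by
  obtain ⟨r1, p1, q1⟩ := h1
  obtain ⟨r2, p2, q2⟩ := h2
  rw [isPolyTime_iff] at p1 p2
  refine ⟨fun p => ((r2 ((r1 (p.1, p.2 ++ (p.2 ++ p.2))).1, p.2 ++ (p.2 ++ p.2))).1,
    ((r1 (p.1, p.2 ++ (p.2 ++ p.2))).2.1 *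
      (r2 ((r1 (p.1, p.2 ++ (p.2 ++ p.2))).1, p.2 ++ (p.2 ++ p.2))).2.1,
     (r1 (p.1, p.2 ++ (p.2 ++ p.2))).2.2 *
      (r2 ((r1 (p.1, p.2 ++ (p.2 ++ p.2))).1, p.2 ++ (p.2 ++ p.2))).2.2)), ?_, ?_⟩
  · rw [isPolyTime_iff]
    have e1 : FP fun p : MG × List Bool => r1 (p.1, p.2 ++ (p.2 ++ p.2)) :=
      p1.comp (by fun_prop)
    have e2 : FP fun p : MG × List Bool =>
        r2 ((r1 (p.1, p.2 ++ (p.2 ++ p.2))).1, p.2 ++ (p.2 ++ p.2)) :=
      p2.comp (FP.pair e1.fst' (by fun_prop))
    exact FP.pair e2.fst' (FP.pair (FP.intMul e1.snd'.fst' e2.snd'.fst')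
      (FP.natMul e1.snd'.snd' e2.snd'.snd'))
  · intro G hG N
    obtain ⟨v1, w1, i1⟩ := q1 G hG (N ++ (N ++ N))
    obtain ⟨v2, w2, i2⟩ := q2 _ v1 (N ++ (N ++ N))
    refine ⟨v2, mul_ne_zero w1 w2, ?_⟩
    simp only
    set G1 := (r1 (G, N ++ (N ++ N))).1
    set a1 := (r1 (G, N ++ (N ++ N))).2.1
    set b1 := (r1 (G, N ++ (N ++ N))).2.2
    set G2 := (r2 (G1, N ++ (N ++ N))).1
    set a2 := (r2 (G1, N ++ (N ++ N))).2.1
    set b2 := (r2 (G1, N ++ (N ++ N))).2.2
    have hlen : ((N ++ (N ++ N)).length : ℚ) = 3 * (N.length : ℚ) := by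
      simp only [List.length_append]; push_cast; ring
    rw [hlen] at i1 i2
    set n : ℚ := (N.length : ℚ) with hn
    rcases Nat.eq_zero_or_pos N.length with h0 | h0
    · have : n = 0 := by rw [hn, h0]; simp
      rw [this, zero_mul]
      exact abs_nonneg _
    · have hn1 : 1 ≤ n := by rw [hn]; exact_mod_cast h0
      push_cast
      set c1 : ℚ := (a1 : ℚ) / (b1 : ℚ) with hc1
      set c2 : ℚ := (a2 : ℚ) / (b2 : ℚ) with hc2
      have hcc : ((a1 : ℚ) * (a2 : ℚ)) / ((b1 : ℚ) * (b2 : ℚ)) = c1 * c2 := by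
        rw [hc1, hc2, div_mul_div_comm]
      rw [hcc]
      have t1 : |f G - c1 * c2 * e G2| ≤ |f G - c1 * g G1| + |c1| * |g G1 - c2 * e G2| := by
        have := abs_add_le (f G - c1 * g G1) (c1 * (g G1 - c2 * e G2))
        rw [abs_mul] at this
        have e0 : f G - c1 * g G1 + c1 * (g G1 - c2 * e G2) = f G - c1 * c2 * e G2 := by ring
        rwa [e0] at this
      have t2 : |c1| * |g G1| ≤ |f G| + |f G - c1 * g G1| := by
        rw [← abs_mul]
        have := abs_sub_abs_le_abs_sub (c1 * g G1) (f G)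
        rw [abs_sub_comm (c1 * g G1)] at this
        linarith
      have t3 := mul_le_mul_of_nonneg_left i2 (abs_nonneg c1)
      have t4 : |f G - c1 * g G1| * 3 ≤ |f G| := by
        have : 0 ≤ |f G - c1 * g G1| := abs_nonneg _
        nlinarith
      have t5 := mul_le_mul_of_nonneg_left t1 (by linarith : 0 ≤ n)
      have t6 : 0 ≤ |f G| := abs_nonneg _
      nlinarith

theorem APRed.refl (f : MG → ℚ) : APRed f f := by
  refine ⟨fun p => (p.1, (1, 1)), ?_, ?_⟩
  · rw [isPolyTime_iff]
    exact FP.pair (by fun_prop) (FP.pair (FP.const 1) (FP.const 1))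
  · intro G hG N
    refine ⟨hG, one_ne_zero, ?_⟩
    simp

/-- number of parallel edges to the new vertex -/
def tof (W : ℕ) (p : MG × List Bool) : List Bool :=
  un (2 * W * ((p.1.1.length + 1) * (p.2.length + 1)))

theorem fp_tof (W : ℕ) : FP (tof W) := by
  have h1 : FP fun p : MG × List Bool => true :: un p.1.1.length := by
    have : FP fun p : MG × List Bool => un p.1.1.length := FP.un_length (by fun_prop)
    exact FP.cons (FP.const true) this
  have h2 : FP fun p : MG × List Bool => true :: p.2 := FP.cons (FP.const true) (by fun_prop)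
  have h3 := FP.unMul (FP.const (un (2 * W))) (FP.unMul h1 h2)
  simp only [Helper22.un_length, List.length_cons] at h3
  exact h3

/-- the powers become small -/
theorem pow_small {u z : ℚ} (hu : u = 1 - z) (hz0 : 0 ≤ z) (hz1 : z ≤ 1) (T t : ℕ) (hT : T ≤ t)
    {K : ℚ} (hK : 0 < K) (h : K ≤ T * z) : u ^ t ≤ 1 / K := by
  have hu0 : 0 ≤ u := by rw [hu]; linarith
  have hu1 : u ≤ 1 := by rw [hu]; linarith
  have h1 : u ^ t ≤ u ^ T := pow_le_pow_of_le_one hu0 hu1 hT
  have h2 : u ^ T * (1 + z) ^ T ≤ 1 := by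
    rw [← mul_pow, hu]
    exact pow_le_one₀ (by nlinarith) (by nlinarith)
  have h3 : 1 + T * z ≤ (1 + z) ^ T := one_add_mul_le_pow (by linarith) T
  have h4 : 0 ≤ u ^ T := pow_nonneg hu0 T
  have h5 : u ^ T * K ≤ 1 := by
    have : u ^ T * K ≤ u ^ T * (1 + z) ^ T := mul_le_mul_of_nonneg_left (by linarith) h4
    linarith
  refine h1.trans ?_
  rw [le_div_iff₀ hK]
  exact h5

/-- passage from one hyperbola to the next one -/
theorem apred_step {x y x' : ℚ} (hx : 1 ≤ x) (hy : |y| < 1)
    (hxx : (x' - 1) * (1 - y) = (x - 1) * (1 - y) + 1) :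
    APRed (tutte x' y) (tutte x y) := by
  obtain ⟨hy0, hy1⟩ := abs_lt.mp hy
  have h1y : 0 < 1 - y := by linarith
  have hx1' : 0 < x' - 1 := by
    by_contra h
    have h1 : (x' - 1) * (1 - y) ≤ 0 := mul_nonpos_of_nonpos_of_nonneg (by linarith) h1y.le
    have h2 : 0 ≤ (x - 1) * (1 - y) := mul_nonneg (by linarith) h1y.le
    linarith
  refine ⟨fun p => (joinT (tof y.den p).length p.1,
    ((((x' - 1).den ^ (p.1.1.drop (mergers p.1).length).length : ℕ) : ℤ),
    (x' - 1).num.toNat ^ (p.1.1.drop (mergers p.1).length).length)), ?_, ?_⟩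
  · rw [isPolyTime_iff]
    have h1 : FP fun p : MG × List Bool => p.1.1.drop (mergers p.1).length :=
      FP.drop (by fun_prop) (FP.mergers (by fun_prop))
    have h2 : FP fun p : MG × List Bool =>
        (x' - 1).den ^ (p.1.1.drop (mergers p.1).length).length := FP.powU (FP.const _) h1
    exact FP.pair (FP.joinT (by fun_prop) (fp_tof _))
      (FP.pair (FP.intPos h2) (FP.powU (FP.const _) h1))
  · intro G hG N
    have hnum : 0 < (x' - 1).num := Rat.num_pos.mpr hx1'
    have h0 : (x' - 1).num.toNat ≠ 0 := by omega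
    refine ⟨joinT_valid hG _, pow_ne_zero _ h0, ?_⟩
    simp only
    have h1 : (G.1.drop (mergers G).length).length = comps G Finset.univ := by
      have := comps_add_mergers hG
      rw [List.length_drop]
      omega
    rw [h1]
    have h2 : (((x' - 1).num.toNat : ℕ) : ℚ) = ((x' - 1).num : ℚ) := by
      exact_mod_cast (show (((x' - 1).num.toNat : ℕ) : ℤ) = (x' - 1).num by omega)
    have h3 : ((x' - 1).num : ℚ) = (x' - 1) * (x' - 1).den := (Rat.mul_den_eq_num (x' - 1)).symm
    have h4 : ((x' - 1).den : ℚ) ≠ 0 := by exact_mod_cast (x' - 1).den_nz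
    have h5 : ((((x' - 1).den ^ comps G Finset.univ : ℕ) : ℤ) : ℚ) /
        (((x' - 1).num.toNat ^ comps G Finset.univ : ℕ) : ℚ)
        = (1 / (x' - 1)) ^ comps G Finset.univ := by
      push_cast
      rw [h2, h3, ← div_pow]
      congr 1
      field_simp
    rw [h5]
    have htl : (tof y.den (G, N)).length = 2 * y.den * ((G.1.length + 1) * (N.length + 1)) := by
      rw [tof, Helper22.un_length]
    have htp : 0 < (tof y.den (G, N)).length := by
      rw [htl]
      have := y.den_pos
      positivity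
    have hmain := step_ge hG hx hy hxx _ htp
    have hyd : (0 : ℚ) < y.den := by exact_mod_cast y.den_pos
    have h1W : 1 ≤ (y.den : ℚ) * (1 - |y|) := by
      have e1 : (0 : ℚ) < y.den * (1 - |y|) := mul_pos hyd (by linarith)
      have e2 : (y.den : ℚ) * (1 - |y|) = ((y.den - |y.num| : ℤ) : ℚ) := by
        push_cast
        rw [← Rat.mul_den_eq_num y, abs_mul, abs_of_pos hyd]
        ring
      rw [e2] at e1 ⊢
      have e3 : (0 : ℤ) < y.den - |y.num| := by exact_mod_cast e1
      have e4 : (1 : ℤ) ≤ y.den - |y.num| := by omega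
      exact_mod_cast e4
    have hsmall : |y| ^ (tof y.den (G, N)).length
        ≤ 1 / (2 * ((G.1.length + 1) * (N.length + 1))) := by
      refine pow_small (z := 1 - |y|) (by ring) (by linarith) (by have := abs_nonneg y; linarith)
        _ _ le_rfl (by positivity) ?_
      rw [htl]
      push_cast
      have : (0 : ℚ) ≤ 2 * ((G.1.length + 1) * (N.length + 1)) := by positivity
      nlinarith
    have hθ0 : 0 ≤ |y| ^ (tof y.den (G, N)).length := pow_nonneg (abs_nonneg _) _
    generalize |y| ^ (tof y.den (G, N)).length = θ at *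
    rcases Nat.eq_zero_or_pos N.length with hN0 | hN0
    · rw [hN0, Nat.cast_zero, zero_mul]
      exact abs_nonneg _
    · have hN1 : (1 : ℚ) ≤ N.length := by exact_mod_cast hN0
      have hkey : 2 * ((G.1.length : ℚ) * θ) * N.length ≤ 1 := by
        rw [le_div_iff₀ (by positivity)] at hsmall
        have e4 : (G.1.length : ℚ) * N.length ≤ (G.1.length + 1) * (N.length + 1) :=
          mul_le_mul (by linarith) (by linarith) (by linarith) (by positivity)
        have e5 := mul_le_mul_of_nonneg_left e4 hθ0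
        linarith
      have hfin := pow_sub_one_le hθ0 G.1.length N.length hN1 hkey
      have hfin2 := mul_le_mul_of_nonneg_left hmain (by linarith : (0 : ℚ) ≤ N.length)
      refine hfin2.trans ?_
      have hfin3 := mul_le_mul_of_nonneg_right hfin (abs_nonneg (tutte x' y G))
      linarith

end Pool.Agent.Helper47.TR
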