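import Pool.Agent.Helper47.TR.Defs

set_option autoImplicit false

/-!
# Basic facts on the Tutte polynomial
-/

namespace Pool.Agent.Helper47.TR

variable (G : MG)

instance (A : Finset (Fin G.2.length)) : Finite (Quot (adj G A)) :=
  Finite.of_surjective (Quot.mk _) Quot.mk_surjective

theorem comps_le (A : Finset (Fin G.2.length)) : comps G A ≤ G.1.length := by
  have h := Nat.card_le_card_of_surjective (Quot.mk (adj G A)) Quot.mk_surjective
  rwa [Nat.card_fin] at h

theorem comps_anti {A B : Finset (Fin G.2.length)} (h : A ⊆ B) : comps G B ≤ comps G A := by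
  refine Nat.card_le_card_of_surjective
    (Quot.lift (fun u => (Quot.mk (adj G B) u)) ?_ : Quot (adj G A) → Quot (adj G B)) ?_
  · rintro u v ⟨i, hi, h1⟩
    exact Quot.sound ⟨i, h hi, h1⟩
  · intro c
    induction c using Quot.ind with
    | mk u => exact ⟨Quot.mk _ u, rfl⟩

theorem comps_insert (hG : Valid G) (A : Finset (Fin G.2.length)) (i : Fin G.2.length) :
    comps G A ≤ comps G (insert i A) + 1 := by
  classical
  obtain ⟨h1, h2⟩ := hG (G.2.get i) (List.get_mem _ _)
  set a : Fin G.1.length := ⟨(G.2.get i).1, h1⟩ with ha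
  set b : Fin G.1.length := ⟨(G.2.get i).2, h2⟩ with hb
  let φ : Fin G.1.length → Quot (adj G A) := fun u =>
    if Quot.mk (adj G A) u = Quot.mk _ b then Quot.mk _ a else Quot.mk _ u
  have hφ : ∀ u v, adj G (insert i A) u v → φ u = φ v := by
    rintro u v ⟨j, hj, hu, hv⟩
    rcases Finset.mem_insert.mp hj with rfl | hj
    · have hu' : u = a := Fin.ext (by rw [← hu])
      have hv' : v = b := Fin.ext (by rw [← hv])
      subst hu' hv'
      simp only [φ, if_true]
      split_ifs <;> rfl
    · have : Quot.mk (adj G A) u = Quot.mk _ v := Quot.sound ⟨j, hj, hu, hv⟩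
      simp only [φ, this]
  let ψ : Option (Quot (adj G (insert i A))) → Quot (adj G A) := fun o =>
    match o with
    | none => Quot.mk _ b
    | some c => Quot.lift φ hφ c
  have hs : Function.Surjective ψ := by
    intro c
    induction c using Quot.ind with
    | mk u =>
      by_cases h : Quot.mk (adj G A) u = Quot.mk _ b
      · exact ⟨none, h.symm⟩
      · refine ⟨some (Quot.mk _ u), ?_⟩
        show φ u = _
        simp only [φ, if_neg h]
  have := Nat.card_le_card_of_surjective ψ hs
  rwa [Finite.card_option] at this

theorem le_card_add_comps (hG : Valid G) (A : Finset (Fin G.2.length)) :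
    G.1.length ≤ A.card + comps G A := by
  classical
  induction A using Finset.induction_on with
  | empty =>
    have : Function.Surjective (Quot.lift (fun u => u) (by
        rintro u v ⟨i, hi, _⟩; simp at hi) : Quot (adj G ∅) → Fin G.1.length) :=
      fun u => ⟨Quot.mk _ u, rfl⟩
    have := Nat.card_le_card_of_surjective _ this
    rw [Nat.card_fin] at this
    simpa [comps] using this
  | insert i A hi ih =>
    have := comps_insert G hG A i
    rw [Finset.card_insert_of_notMem hi]
    omega

/-- the random-cluster sum `Z(G; v, q) = ∑_A v^|A| q^k(A)` -/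
noncomputable def Z (v q : ℚ) : ℚ := ∑ A : Finset (Fin G.2.length), v ^ A.card * q ^ comps G A

theorem Z_eq_tutte (hG : Valid G) (x y : ℚ) :
    Z G (y - 1) ((x - 1) * (y - 1))
      = (x - 1) ^ comps G Finset.univ * (y - 1) ^ G.1.length * tutte x y G := by
  unfold Z tutte
  rw [Finset.mul_sum]
  refine Finset.sum_congr rfl (fun A _ => ?_)
  have h1 := comps_anti G (Finset.subset_univ A)
  have h2 := le_card_add_comps G hG A
  obtain ⟨d, hd⟩ := Nat.exists_eq_add_of_le h1
  obtain ⟨e, he⟩ := Nat.exists_eq_add_of_le h2
  rw [show comps G A - comps G Finset.univ = d by omega,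
    show A.card + comps G A - G.1.length = e by omega, mul_pow]
  calc (y - 1) ^ A.card * ((x - 1) ^ comps G A * (y - 1) ^ comps G A)
      = (x - 1) ^ comps G A * (y - 1) ^ (A.card + comps G A) := by rw [pow_add]; ring
    _ = _ := by rw [he, hd, pow_add, pow_add]; ring

end Pool.Agent.Helper47.TR
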