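import Pool.Agent.Helper47.TR.FPG

set_option autoImplicit false

/-!
# The number of components is polynomial time computable
-/

namespace Pool.Agent.Helper47.TR

open Turing Function N487b59b3 N68a2faeb Pool.Agent.Helper22 Pool.Agent.Helper6.WB Computability

/-- apply a list of mergers to a label -/
def app (M : List (ℕ × ℕ)) (i : ℕ) : ℕ := M.foldl (fun i p => if i = p.2 then p.1 else i) i

/-- process an edge -/
def stepM (M : List (ℕ × ℕ)) (e : ℕ × ℕ) : List (ℕ × ℕ) :=
  if app M e.1 = app M e.2 then M else M ++ [(app M e.1, app M e.2)]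

theorem R_app (W M : List (ℕ × ℕ)) :
    (1 / 2 : ℚ) ^ M.length * R (1 / 2) (wE 0 1 W) (app M)
      = (1 / 2) ^ (W.foldl stepM M).length := by
  induction W generalizing M with
  | nil => simp
  | cons e W ih =>
    rw [wE_cons, List.foldl_cons]
    by_cases h : app M e.1 = app M e.2
    · rw [R_loop _ h, one_mul, ih, stepM, if_pos h]
    · have h1 : stepM M e = M ++ [(app M e.1, app M e.2)] := by rw [stepM, if_neg h]
      have h2 : (fun i => mg (app M e.1) (app M e.2) (app M i)) = app (stepM M e) := by
        funext i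
        have h3 : ∀ (M' : List (ℕ × ℕ)) (p : ℕ × ℕ), app (M' ++ [p]) i
            = if app M' i = p.2 then p.1 else app M' i := by
          intro M' p
          unfold app
          rw [List.foldl_append]
          rfl
        rw [h1, h3]
        rfl
      rw [R_non _ h, h2, ← ih, h1, List.length_append, List.length_singleton, pow_succ]
      ring

/-- the list of mergers of `G` -/
def mergers (G : MG) : List (ℕ × ℕ) := G.2.foldl stepM []

theorem comps_add_mergers {G : MG} (hG : Valid G) :
    comps G Finset.univ + (mergers G).length = G.1.length := by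
  have h1 := comps_R hG
  have h2 := R_app G.2 []
  have h3 : app [] = id := rfl
  rw [h3, List.length_nil, pow_zero, one_mul] at h2
  rw [h2] at h1
  have h4 : (2 : ℚ) ^ (comps G Finset.univ + (mergers G).length) = 2 ^ G.1.length := by
    rw [pow_add, h1, mergers, mul_assoc, ← mul_pow]
    norm_num
  have h5 : (2 : ℕ) ^ (comps G Finset.univ + (mergers G).length) = 2 ^ G.1.length := by
    exact_mod_cast h4
  exact Nat.pow_right_injective (le_refl 2) h5

section

variable {α : Type} [N487b59b3 α]

theorem size_app_le (M : List (ℕ × ℕ)) (C : ℕ) (hM : ∀ p ∈ M, Nat.size p.1 ≤ C) (i : ℕ)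
    (hi : Nat.size i ≤ C) : Nat.size (app M i) ≤ C := by
  induction M generalizing i with
  | nil => exact hi
  | cons p M ih =>
    show Nat.size (app M (if i = p.2 then p.1 else i)) ≤ C
    refine ih (fun p hp => hM p (by simp [hp])) _ ?_
    split_ifs
    · exact hM p (by simp)
    · exact hi

theorem FP.app {M : α → List (ℕ × ℕ)} {i : α → ℕ} (hM : FP M) (hi : FP i) :
    FP fun a => app (M a) (i a) := by
  have h1 : FP fun p : ℕ × (ℕ × ℕ) => if p.1 = p.2.2 then p.2.1 else p.1 := by
    have := FP.ite (c := fun p : ℕ × (ℕ × ℕ) => decide (p.1 = p.2.2)) (by fun_prop)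
      (f := fun p : ℕ × (ℕ × ℕ) => p.2.1) (by fun_prop)
      (g := fun p : ℕ × (ℕ × ℕ) => p.1) (by fun_prop)
    simpa only [decide_eq_true_eq] using this
  have h2 : FP fun p : List (ℕ × ℕ) × ℕ =>
      p.1.foldl (fun (i : ℕ) (p : ℕ × ℕ) => if i = p.2 then p.1 else i) p.2 := by
    refine FP.foldl (g := fun (i : ℕ) (p : ℕ × ℕ) => if i = p.2 then p.1 else i) h1
      (B := fun n => n) (by fun_prop) ?_
    intro l i
    have := size_app_le l (sz l + sz i) (by
      intro p hp
      have := sz_mem_le hp
      obtain ⟨a, b⟩ := p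
      simp only [sz_pair, sz_nat] at this
      simp only
      omega) i (by rw [sz_nat]; omega)
    rw [sz_nat]
    exact this
  exact h2.comp (hM.pair hi)

theorem stepM_inv (W M : List (ℕ × ℕ)) (C : ℕ)
    (hM : ∀ p ∈ M, Nat.size p.1 ≤ C ∧ Nat.size p.2 ≤ C)
    (hW : ∀ p ∈ W, Nat.size p.1 ≤ C ∧ Nat.size p.2 ≤ C) :
    (∀ p ∈ W.foldl stepM M, Nat.size p.1 ≤ C ∧ Nat.size p.2 ≤ C) ∧
      (W.foldl stepM M).length ≤ M.length + W.length := by
  induction W generalizing M with
  | nil => exact ⟨hM, le_rfl⟩
  | cons e W ih =>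
    rw [List.foldl_cons]
    have he := hW e (by simp)
    have hW' : ∀ p ∈ W, Nat.size p.1 ≤ C ∧ Nat.size p.2 ≤ C := fun p hp => hW p (by simp [hp])
    have hM' : ∀ p ∈ stepM M e, Nat.size p.1 ≤ C ∧ Nat.size p.2 ≤ C := by
      intro p hp
      unfold stepM at hp
      split_ifs at hp
      · exact hM p hp
      · rcases List.mem_append.mp hp with hp | hp
        · exact hM p hp
        · rw [List.mem_singleton] at hp
          subst hp
          exact ⟨size_app_le M C (fun p hp => (hM p hp).1) _ he.1,
            size_app_le M C (fun p hp => (hM p hp).1) _ he.2⟩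
    have hl : (stepM M e).length ≤ M.length + 1 := by
      unfold stepM
      split_ifs
      · omega
      · simp
    obtain ⟨h1, h2⟩ := ih (stepM M e) hM' hW'
    exact ⟨h1, by rw [List.length_cons]; omega⟩

theorem FP.mergers {f : α → MG} (hf : FP f) : FP fun a => mergers (f a) := by
  have h1 : FP fun p : List (ℕ × ℕ) × (ℕ × ℕ) => stepM p.1 p.2 := by
    have ha : FP fun p : List (ℕ × ℕ) × (ℕ × ℕ) => TR.app p.1 p.2.1 :=
      FP.app (by fun_prop) (by fun_prop)
    have hb : FP fun p : List (ℕ × ℕ) × (ℕ × ℕ) => TR.app p.1 p.2.2 :=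
      FP.app (by fun_prop) (by fun_prop)
    have := FP.ite (FP.natEq ha hb) (f := fun p : List (ℕ × ℕ) × (ℕ × ℕ) => p.1) (by fun_prop)
      (FP.append (f := fun p : List (ℕ × ℕ) × (ℕ × ℕ) => p.1) (by fun_prop)
        (FP.cons (ha.pair hb) (FP.const [])))
    simp only [decide_eq_true_eq] at this
    exact this
  have h2 : FP fun p : List (ℕ × ℕ) × List (ℕ × ℕ) => p.1.foldl stepM p.2 := by
    refine FP.foldl h1 (B := fun n => n * (2 * (3 * n + 1) + 1)) (by fun_prop) ?_
    intro W M
    have hs : ∀ (l : List (ℕ × ℕ)), ∀ p ∈ l, Nat.size p.1 ≤ sz l ∧ Nat.size p.2 ≤ sz l := by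
      intro l p hp
      have := sz_mem_le hp
      obtain ⟨a, b⟩ := p
      simp only [sz_pair, sz_nat] at this
      simp only
      omega
    obtain ⟨h3, h4⟩ := stepM_inv W M (sz W + sz M)
      (fun p hp => by have := hs M p hp; omega) (fun p hp => by have := hs W p hp; omega)
    have h5 := length_le_sz W
    have h6 := length_le_sz M
    refine (sz_list_le _ (3 * (sz W + sz M) + 1) ?_).trans (Nat.mul_le_mul (by omega) le_rfl)
    rintro ⟨a, b⟩ hp
    have := h3 _ hp
    simp only [sz_pair, sz_nat]
    simp only at this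
    omega
  have h3 := h2.comp (f := fun a => ((f a).2, ([] : List (ℕ × ℕ))))
    (FP.pair (by fun_prop) (FP.const []))
  exact h3

end

end Pool.Agent.Helper47.TR
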