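import Pool.Agent.Helper47.TR.Cont

set_option autoImplicit false

/-!
# Adding an apex joined by edges of weight `0`: passage from `q` to `q - 1`
-/

namespace Pool.Agent.Helper47.TR

open Finset

/-- labels as elements of `Option (Fin n)` -/
def lb (n : ℕ) (i : ℕ) : Option (Fin n) := if h : i < n then some ⟨i, h⟩ else none

theorem lb_lt {n i : ℕ} (h : i < n) : lb n i = some ⟨i, h⟩ := dif_pos h

theorem lb_self (n : ℕ) : lb n n = none := dif_neg (lt_irrefl n)

theorem lb_ker (n : ℕ) : Ker {i | i ≤ n} id (lb n) := by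
  intro i hi j hj
  have hi : i ≤ n := hi
  have hj : j ≤ n := hj
  unfold lb
  simp only [id]
  split_ifs with h1 h2 h2
  · simp
  · constructor
    · intro h; omega
    · intro h; simp at h
  · constructor
    · intro h; omega
    · intro h; simp at h
  · constructor
    · intro _; rfl
    · intro _; omega

/-- edges from all old vertices to the vertex `n` -/
def star (n : ℕ) : List (ℕ × ℕ) := (List.range n).map (fun i => (i, n))

/-- product of the weights -/
def PW {C : Type*} [DecidableEq C] (n : ℕ) (W : List WE) (σ : Option (Fin n) → C) : ℚ :=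
  (W.map (ew σ (lb n))).prod

theorem PW_congr {C C' : Type*} [DecidableEq C] [DecidableEq C'] {n : ℕ} {W : List WE}
    (hW : Lab {i | i < n} W) (σ : Option (Fin n) → C) (σ' : Option (Fin n) → C')
    (h : ∀ i j : Fin n, σ (some i) = σ (some j) ↔ σ' (some i) = σ' (some j)) :
    PW n W σ = PW n W σ' := by
  unfold PW
  congr 1
  refine List.map_congr_left (fun e he => ?_)
  obtain ⟨h1, h2⟩ := hW e he
  unfold ew
  rw [lb_lt h1, lb_lt h2]
  simp only [h]

theorem lab_le {n : ℕ} {W : List WE} (hW : Lab {i | i < n} W) : Lab {i | i ≤ n} W :=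
  hW.mono (fun i (h : i < n) => (show i ≤ n from h.le))

theorem lab_star (n : ℕ) (α β : ℚ) : Lab {i | i ≤ n} (wE α β (star n)) := by
  rw [lab_wE]
  intro e he
  simp only [star, List.mem_map, List.mem_range] at he
  obtain ⟨i, hi, rfl⟩ := he
  exact ⟨le_of_lt hi, le_refl n⟩

theorem potts_W {n : ℕ} {W : List WE} (hW : Lab {i | i < n} W) (M : ℕ) (hM : 0 < M) :
    ∑ σ : Option (Fin n) → Fin M, PW n W σ = (M : ℚ) ^ (n + 1) * R (1 / (M : ℚ)) W id := by
  have : NeZero M := ⟨hM.ne'⟩
  have h1 := potts (C := Fin M) W (lb n)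
  rw [Fintype.card_fin, Fintype.card_option, Fintype.card_fin] at h1
  rw [R_ker (1 / (M : ℚ)) (S := {i | i ≤ n}) W id (lb n) (lab_le hW) (lb_ker _), ← h1]
  rfl

theorem potts_star {n : ℕ} {W : List WE} (hW : Lab {i | i < n} W) (N : ℕ) (hN : 0 < N) :
    ∑ σ : Option (Fin n) → Fin N,
      (PW n W σ * ∏ i : Fin n, if σ (some i) = σ none then (0 : ℚ) else 1)
      = (N : ℚ) ^ (n + 1) * R (1 / (N : ℚ)) (W ++ wE 1 0 (star n)) id := by
  have : NeZero N := ⟨hN.ne'⟩
  have h1 := potts (C := Fin N) (W ++ wE 1 0 (star n)) (lb n)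
  rw [Fintype.card_fin, Fintype.card_option, Fintype.card_fin] at h1
  rw [R_ker (1 / (N : ℚ)) (S := {i | i ≤ n}) _ id (lb n) ((lab_le hW).append (lab_star n 1 0))
    (lb_ker _), ← h1]
  refine Finset.sum_congr rfl (fun σ _ => ?_)
  rw [List.map_append, List.prod_append]
  congr 1
  rw [star, wE, List.map_map, List.map_map]
  have hr : ∀ F : ℕ → ℚ, ((List.range n).map F).prod = ∏ i : Fin n, F i := by
    intro F
    rw [← Finset.prod_range]
    rfl
  rw [hr]
  refine Finset.prod_congr rfl (fun i _ => ?_)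
  simp only [Function.comp, ew, lb_self, lb_lt i.2]

theorem star_count {n : ℕ} {W : List WE} (hW : Lab {i | i < n} W) (M : ℕ) :
    (M : ℚ) * ∑ σ : Option (Fin n) → Fin (M + 1),
      (PW n W σ * ∏ i : Fin n, if σ (some i) = σ none then (0 : ℚ) else 1)
      = (M + 1) * ∑ σ : Option (Fin n) → Fin M, PW n W σ := by
  have e1 : ∑ σ : Option (Fin n) → Fin (M + 1),
      (PW n W σ * ∏ i : Fin n, if σ (some i) = σ none then (0 : ℚ) else 1)
      = ∑ x : Fin (M + 1) × (Fin n → Fin (M + 1)),
        (PW n W ((Equiv.piOptionEquivProd (α := Fin n) (β := fun _ => Fin (M + 1))).symm x)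
          * ∏ i : Fin n, if x.2 i = x.1 then (0 : ℚ) else 1) := by
    refine Fintype.sum_equiv Equiv.piOptionEquivProd _ _ (fun σ => ?_)
    rw [Equiv.symm_apply_apply]
    rfl
  have e2 : ∑ σ : Option (Fin n) → Fin M, PW n W σ
      = ∑ x : Fin M × (Fin n → Fin M),
        PW n W ((Equiv.piOptionEquivProd (α := Fin n) (β := fun _ => Fin M)).symm x) := by
    refine Fintype.sum_equiv Equiv.piOptionEquivProd _ _ (fun σ => ?_)
    rw [Equiv.symm_apply_apply]
  rw [e1, e2, Fintype.sum_prod_type, Fintype.sum_prod_type]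
  rcases Nat.eq_zero_or_pos M with rfl | hM
  · simp
  · set c0 : Fin M := ⟨0, hM⟩
    set S : ℚ := ∑ τ : Fin n → Fin M,
      PW n W ((Equiv.piOptionEquivProd (α := Fin n) (β := fun _ => Fin M)).symm (c0, τ)) with hS
    have i1 : ∀ c : Fin M, ∑ τ : Fin n → Fin M,
        PW n W ((Equiv.piOptionEquivProd (α := Fin n) (β := fun _ => Fin M)).symm (c, τ))
        = S := by
      intro c
      refine Finset.sum_congr rfl (fun τ _ => ?_)
      exact PW_congr hW _ _ (fun i j => Iff.rfl)
    have i2 : ∀ c : Fin (M + 1), ∑ τ : Fin n → Fin (M + 1),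
        (PW n W ((Equiv.piOptionEquivProd (α := Fin n)
          (β := fun _ => Fin (M + 1))).symm (c, τ))
          * ∏ i : Fin n, if τ i = c then (0 : ℚ) else 1) = S := by
      intro c
      symm
      rw [hS]
      refine Finset.sum_of_injOn (fun τ i => c.succAbove (τ i)) ?_ ?_ ?_ ?_
      · intro τ _ τ' _ h
        funext i
        exact Fin.succAbove_right_injective (congrFun h i)
      · intro _ _; simp
      · intro τ _ hτ
        have : ∃ i, τ i = c := by
          by_contra hne
          push Not at hne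
          apply hτ
          have hch : ∀ i, ∃ j : Fin M, c.succAbove j = τ i :=
            fun i => Fin.exists_succAbove_eq (hne i)
          choose g hg using hch
          exact ⟨g, by simp, funext hg⟩
        obtain ⟨i, hi⟩ := this
        have h0 : (∏ i : Fin n, if τ i = c then (0 : ℚ) else 1) = 0 :=
          Finset.prod_eq_zero (Finset.mem_univ i) (if_pos hi)
        rw [h0, mul_zero]
      · intro τ _
        have h0 : (∏ i : Fin n, if c.succAbove (τ i) = c then (0 : ℚ) else 1) = 1 :=
          Finset.prod_eq_one (fun i _ => if_neg (Fin.succAbove_ne c (τ i)))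
        rw [h0, mul_one]
        refine PW_congr hW _ _ (fun i j => ?_)
        show τ i = τ j ↔ c.succAbove (τ i) = c.succAbove (τ j)
        exact Fin.succAbove_right_inj.symm
    simp only [i1, i2, Finset.sum_const, Finset.card_univ, Fintype.card_fin, nsmul_eq_mul]
    push_cast
    ring

theorem R_poly' {L : Type*} [DecidableEq L] (W : List WE) (f : ℕ → L) :
    ∃ P : Polynomial ℚ, ∀ κ, κ ≠ 1 → (1 - κ) ^ W.length * R (κ / (1 - κ)) W f = P.eval κ := by
  induction W generalizing f with
  | nil => exact ⟨1, fun κ _ => by simp⟩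
  | cons e W ih =>
    obtain ⟨a, b, α, β⟩ := e
    obtain ⟨P, hP⟩ := ih f
    by_cases h : f a = f b
    · refine ⟨(1 - Polynomial.X) * Polynomial.C β * P, fun κ hκ => ?_⟩
      rw [R_loop _ h, List.length_cons, pow_succ]
      simp only [Polynomial.eval_mul, Polynomial.eval_sub, Polynomial.eval_one,
        Polynomial.eval_X, Polynomial.eval_C]
      rw [← hP κ hκ]
      ring
    · obtain ⟨Q, hQ⟩ := ih (fun i => mg (f a) (f b) (f i))
      refine ⟨(1 - Polynomial.X) * Polynomial.C α * P + Polynomial.X * Polynomial.C (β - α) * Q,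
        fun κ hκ => ?_⟩
      have h1 : (1 : ℚ) - κ ≠ 0 := fun h => hκ (by linarith)
      rw [R_non _ h, List.length_cons, pow_succ]
      simp only [Polynomial.eval_mul, Polynomial.eval_sub, Polynomial.eval_one,
        Polynomial.eval_X, Polynomial.eval_C, Polynomial.eval_add]
      rw [← hP κ hκ, ← hQ κ hκ]
      field_simp

/-- passage from `q` to `q - 1` -/
theorem R_star {n : ℕ} {W : List WE} (hW : Lab {i | i < n} W) {κ : ℚ} (hκ : κ ≠ 1) :
    R κ (W ++ wE 1 0 (star n)) id = (1 - κ) ^ n * R (κ / (1 - κ)) W id := by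
  obtain ⟨P, hP⟩ := R_poly (W ++ wE 1 0 (star n)) (id : ℕ → ℕ)
  obtain ⟨Q, hQ⟩ := R_poly' W (id : ℕ → ℕ)
  have key : (1 - Polynomial.X) ^ W.length * P = (1 - Polynomial.X) ^ n * Q := by
    refine Polynomial.eq_of_infinite_eval_eq _ _ ?_
    refine Set.infinite_of_injective_forall_mem (f := fun N : ℕ => 1 / ((N : ℚ) + 2)) ?_ ?_
    · intro a b hab
      simpa using hab
    · intro N
      show ((1 - Polynomial.X) ^ W.length * P).eval _ = ((1 - Polynomial.X) ^ n * Q).eval _
      have hN2 : ((N : ℚ) + 2) ≠ 0 := by positivity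
      have hN1 : ((N : ℚ) + 1) ≠ 0 := by positivity
      have h1 := star_count hW (N + 1)
      rw [potts_star hW (N + 1 + 1) (by omega), potts_W hW (N + 1) (by omega)] at h1
      have h2 : ((N + 1 + 1 : ℕ) : ℚ) = (N : ℚ) + 2 := by push_cast; ring
      have h3 : ((N + 1 : ℕ) : ℚ) = (N : ℚ) + 1 := by push_cast; ring
      rw [h2, h3] at h1
      have hk : 1 / ((N : ℚ) + 2) ≠ 1 := by
        rw [Ne, div_eq_one_iff_eq hN2]
        intro h; linarith
      have hk2 : 1 / ((N : ℚ) + 2) / (1 - 1 / ((N : ℚ) + 2)) = 1 / ((N : ℚ) + 1) := by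
        have : (1 : ℚ) - 1 / ((N : ℚ) + 2) = ((N : ℚ) + 1) / ((N : ℚ) + 2) := by
          field_simp; ring
        rw [this]
        field_simp
      have hQ' := hQ _ hk
      rw [hk2] at hQ'
      simp only [Polynomial.eval_mul, Polynomial.eval_pow, Polynomial.eval_sub,
        Polynomial.eval_one, Polynomial.eval_X]
      rw [← hP, ← hQ']
      have h4 : (1 : ℚ) - 1 / ((N : ℚ) + 2) = ((N : ℚ) + 1) / ((N : ℚ) + 2) := by
        field_simp; ring
      rw [h4]
      have h5 : R (1 / ((N : ℚ) + 2)) (W ++ wE 1 0 (star n)) id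
          = (((N : ℚ) + 1) / ((N : ℚ) + 2)) ^ n * R (1 / ((N : ℚ) + 1)) W id := by
        have h6 : ((N : ℚ) + 1) * (((N : ℚ) + 2) ^ (n + 1) *
            R (1 / ((N : ℚ) + 2)) (W ++ wE 1 0 (star n)) id)
            = ((N : ℚ) + 2) * (((N : ℚ) + 1) ^ (n + 1) * R (1 / ((N : ℚ) + 1)) W id) := by
          rw [h1]; ring
        rw [div_pow]
        have h7 : ((N : ℚ) + 2) ^ n ≠ 0 := pow_ne_zero _ hN2
        have h8 : ((N : ℚ) + 1) ^ n ≠ 0 := pow_ne_zero _ hN1
        have h9 : (((N : ℚ) + 1) * ((N : ℚ) + 2)) * (((N : ℚ) + 2) ^ n *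
            R (1 / ((N : ℚ) + 2)) (W ++ wE 1 0 (star n)) id)
            = (((N : ℚ) + 1) * ((N : ℚ) + 2)) * (((N : ℚ) + 1) ^ n *
              R (1 / ((N : ℚ) + 1)) W id) := by
          rw [pow_succ, pow_succ] at h6
          linear_combination h6
        have h10 := mul_left_cancel₀ (mul_ne_zero hN1 hN2) h9
        field_simp
        linear_combination h10
      rw [h5]
      ring
  have h1 : (1 : ℚ) - κ ≠ 0 := fun h => hκ (by linarith)
  have h2 := congrArg (fun P => Polynomial.eval κ P) key
  simp only [Polynomial.eval_mul, Polynomial.eval_pow, Polynomial.eval_sub,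
    Polynomial.eval_one, Polynomial.eval_X] at h2
  rw [← hP, ← hQ κ hκ] at h2
  have h3 : (1 - κ) ^ W.length ≠ 0 := pow_ne_zero _ h1
  apply mul_left_cancel₀ h3
  rw [h2]
  ring

/-- `G` with a new vertex joined to every vertex by `t` parallel edges -/
def joinT (t : ℕ) (G : MG) : MG :=
  (G.1 ++ [true], G.2 ++ (star G.1.length).flatMap (fun e => List.replicate t e))

theorem joinT_length (t : ℕ) (G : MG) : (joinT t G).1.length = G.1.length + 1 := by simp [joinT]

theorem star_length (n : ℕ) : (star n).length = n := by simp [star]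

theorem star_lt {n : ℕ} : ∀ e ∈ star n, e.1 < n ∧ e.2 = n := by
  intro e he
  simp only [star, List.mem_map, List.mem_range] at he
  obtain ⟨i, hi, rfl⟩ := he
  exact ⟨hi, rfl⟩

theorem joinT_valid {G : MG} (hG : Valid G) (t : ℕ) : Valid (joinT t G) := by
  intro e he
  rw [joinT_length]
  rcases List.mem_append.mp he with he | he
  · have := hG e he
    omega
  · simp only [List.mem_flatMap] at he
    obtain ⟨e', he', h⟩ := he
    rw [List.eq_of_mem_replicate h]
    have := star_lt e' he'
    omega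

theorem comps_joinT (G : MG) {t : ℕ} (ht : 0 < t) : comps (joinT t G) Finset.univ = 1 := by
  have hn : G.1.length < (joinT t G).1.length := by rw [joinT_length]; omega
  have key : ∀ c : Quot (adj (joinT t G) Finset.univ), c = Quot.mk _ ⟨G.1.length, hn⟩ := by
    intro c
    induction c using Quot.ind with
    | mk u =>
      by_cases hu : u.1 = G.1.length
      · exact congrArg _ (Fin.ext hu)
      · apply Quot.sound
        have hu' : u.1 < G.1.length := by
          have := u.2
          have := joinT_length t G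
          omega
        have hmem : (u.1, G.1.length) ∈ (joinT t G).2 := by
          refine List.mem_append.mpr (Or.inr ?_)
          simp only [List.mem_flatMap]
          refine ⟨(u.1, G.1.length), ?_, ?_⟩
          · simp only [star, List.mem_map, List.mem_range]
            exact ⟨u.1, hu', rfl⟩
          · exact List.mem_replicate.mpr ⟨ht.ne', rfl⟩
        obtain ⟨i, hi⟩ := List.get_of_mem hmem
        exact ⟨i, Finset.mem_univ _, by rw [hi], by rw [hi]⟩
  have : Subsingleton (Quot (adj (joinT t G) Finset.univ)) :=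
    ⟨fun a b => (key a).trans (key b).symm⟩
  have : Nonempty (Quot (adj (joinT t G) Finset.univ)) := ⟨Quot.mk _ ⟨G.1.length, hn⟩⟩
  exact Nat.card_eq_one_iff_unique.mpr ⟨inferInstance, inferInstance⟩

theorem R_joinT (G : MG) (t : ℕ) (κ y : ℚ) :
    R κ (wE 1 y (joinT t G).2) id
      = y ^ nloops G * R κ (wE 1 (y ^ t) (star G.1.length) ++ wE 1 y (nonloops G)) id := by
  have h0 : wE 1 y (joinT t G).2 = wE 1 y G.2 ++
      wE 1 y ((star G.1.length).flatMap (fun e => List.replicate t e)) := by
    rw [← wE_append]; rfl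
  have h1 : (wE 1 y G.2 ++
      wE 1 y ((star G.1.length).flatMap (fun e => List.replicate t e))).Perm
      (wE 1 y ((star G.1.length).flatMap (fun e => List.replicate t e)) ++ wE 1 y G.2) :=
    List.perm_append_comm
  rw [h0, R_perm κ h1, R_flat, one_pow]
  have h2 : (wE 1 (y ^ t) (star G.1.length) ++ wE 1 y G.2).Perm
      (wE 1 y (G.2.filter (fun e => e.1 == e.2)) ++
        (wE 1 (y ^ t) (star G.1.length) ++ wE 1 y (nonloops G))) := by
    have h3 : (wE 1 y G.2).Perm
        (wE 1 y (G.2.filter (fun e => e.1 == e.2)) ++ wE 1 y (nonloops G)) := by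
      rw [← wE_append]
      exact ((List.filter_append_perm (fun e : ℕ × ℕ => e.1 == e.2) G.2).map _).symm
    refine (List.Perm.append_left _ h3).trans ?_
    rw [← List.append_assoc, ← List.append_assoc]
    exact List.Perm.append_right _ List.perm_append_comm
  rw [R_perm κ h2, R_loops κ 1 y _ _ id]
  · rfl
  · intro e he
    have := List.of_mem_filter he
    simpa using this

theorem step_gt {G : MG} (hG : Valid G) {x y x' : ℚ} (hx : 1 < x) (hy : |y| < 1)
    (hxx : (x' - 1) * (1 - y) = (x - 1) * (1 - y) + 1) (t : ℕ) (ht : 0 < t) :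
    |tutte x' y G - (1 / (x' - 1)) ^ comps G Finset.univ * tutte x y (joinT t G)|
      ≤ ((1 + |y| ^ t) ^ G.1.length - 1) * |tutte x' y G| := by
  obtain ⟨hy0, hy1⟩ := abs_lt.mp hy
  have h1y : 0 < 1 - y := by linarith
  have hx1 : 0 < x - 1 := by linarith
  have hx1' : 0 < x' - 1 := by
    by_contra h
    have h1 : (x' - 1) * (1 - y) ≤ 0 := mul_nonpos_of_nonpos_of_nonneg (by linarith) h1y.le
    have h2 : 0 < (x - 1) * (1 - y) := mul_pos hx1 h1y
    linarith
  have hq : (x - 1) * (y - 1) < 0 := mul_neg_of_pos_of_neg hx1 (by linarith)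
  have hκ0 : 1 / ((x - 1) * (y - 1)) ≤ 0 := (one_div_neg.mpr hq).le
  have hκ1 : 1 / ((x - 1) * (y - 1)) ≠ 1 := by linarith
  have hxne : x - 1 ≠ 0 := hx1.ne'
  have hxne' : x' - 1 ≠ 0 := hx1'.ne'
  have hyne : y - 1 ≠ 0 := by linarith
  have e1 : 1 - 1 / ((x - 1) * (y - 1)) = (x' - 1) / (x - 1) := by
    field_simp
    linear_combination hxx
  have e2 : 1 / ((x - 1) * (y - 1)) / (1 - 1 / ((x - 1) * (y - 1)))
      = 1 / ((x' - 1) * (y - 1)) := by
    rw [e1]
    field_simp
  have hstar := R_star (n := G.1.length) (W := wE 1 y (nonloops G))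
    (by rw [lab_wE]; exact nonloops_valid hG) hκ1
  rw [e2, e1] at hstar
  have hc := comps_joinT G ht
  rw [tutte_eq_R _ (joinT_valid hG t) hx.ne' hy1.ne, hc, joinT_length, Nat.add_sub_cancel,
    R_joinT, tutte_eq_R G hG (by linarith : x' ≠ 1) hy1.ne, R_nonloops]
  have hcond := cond_all hκ0 (r := y ^ t) (w := 0) (by norm_num)
    (by rw [abs_pow]; exact pow_le_one₀ (abs_nonneg _) hy.le) (star G.1.length) id
    (fun e he => by
      have := star_lt e he
      show e.1 ≠ e.2
      omega) (wE 1 y (nonloops G)) (good_wE hy.le _)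
    (by
      intro e he
      simp only [wE, List.mem_map] at he
      obtain ⟨z, hz, rfl⟩ := he
      exact nonloops_ne G z hz)
  rw [star_length] at hcond
  have hp : R (1 / ((x - 1) * (y - 1))) (wE 1 0 (star G.1.length) ++ wE 1 y (nonloops G)) id
      = ((x' - 1) / (x - 1)) ^ G.1.length *
        R (1 / ((x' - 1) * (y - 1))) (wE 1 y (nonloops G)) id := by
    rw [← hstar]
    exact R_perm _ List.perm_append_comm id
  rw [hp] at hcond
  have hθ : |y ^ t - 0| / (1 - |(0 : ℚ)|) = |y| ^ t := by simp [abs_pow]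
  rw [hθ] at hcond
  set A := R (1 / ((x - 1) * (y - 1))) (wE 1 (y ^ t) (star G.1.length) ++ wE 1 y (nonloops G)) id
  set B := R (1 / ((x' - 1) * (y - 1))) (wE 1 y (nonloops G)) id
  have hB : 0 < B := by
    refine R_pos ?_ (good_wE hy.le _) ?_
    · exact (one_div_neg.mpr (mul_neg_of_pos_of_neg hx1' (by linarith))).le
    · intro e he
      simp only [wE, List.mem_map] at he
      obtain ⟨z, hz, rfl⟩ := he
      exact nonloops_ne G z hz
  obtain ⟨d, hd⟩ := Nat.exists_eq_add_of_le (comps_le G Finset.univ)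
  set k := comps G Finset.univ
  rw [show G.1.length - k = d by omega]
  have e3 : (x' - 1) ^ d * (y ^ nloops G * B) - (1 / (x' - 1)) ^ k * ((x - 1) ^ G.1.length *
      (y ^ nloops G * A)) = ((1 / (x' - 1)) ^ k * (x - 1) ^ G.1.length * y ^ nloops G) *
        (((x' - 1) / (x - 1)) ^ G.1.length * B - A) := by
    simp only [hd, pow_add, div_pow, one_pow]
    field_simp
  have e4 : (x' - 1) ^ d * (y ^ nloops G * B)
      = ((1 / (x' - 1)) ^ k * (x - 1) ^ G.1.length * y ^ nloops G) *
        (((x' - 1) / (x - 1)) ^ G.1.length * B) := by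
    simp only [hd, pow_add, div_pow, one_pow]
    field_simp
  have hpos : 0 < ((x' - 1) / (x - 1)) ^ G.1.length * B := by positivity
  rw [e3, e4, abs_mul, abs_mul _ (((x' - 1) / (x - 1)) ^ G.1.length * B), abs_of_pos hpos,
    abs_sub_comm]
  have h6 := mul_le_mul_of_nonneg_left hcond
    (abs_nonneg ((1 / (x' - 1)) ^ k * (x - 1) ^ G.1.length * y ^ nloops G))
  linarith

open Filter Topology in
theorem step_ge {G : MG} (hG : Valid G) {x y x' : ℚ} (hx : 1 ≤ x) (hy : |y| < 1)
    (hxx : (x' - 1) * (1 - y) = (x - 1) * (1 - y) + 1) (t : ℕ) (ht : 0 < t) :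
    |tutte x' y G - (1 / (x' - 1)) ^ comps G Finset.univ * tutte x y (joinT t G)|
      ≤ ((1 + |y| ^ t) ^ G.1.length - 1) * |tutte x' y G| := by
  obtain ⟨hy0, hy1⟩ := abs_lt.mp hy
  have h1y : 0 < 1 - y := by linarith
  have hx' : x' = x + 1 / (1 - y) := by
    field_simp
    linear_combination hxx
  rcases hx.lt_or_eq with hx | hx
  · exact step_gt hG hx hy hxx t ht
  · subst hx
    subst hx'
    have hne : (1 : ℚ) + 1 / (1 - y) - 1 ≠ 0 := by
      rw [add_sub_cancel_left]; positivity
    set F : ℚ → ℚ := fun z => |tutte (z + 1 / (1 - y)) y G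
      - (1 / (z + 1 / (1 - y) - 1)) ^ comps G Finset.univ * tutte z y (joinT t G)| with hF
    set H : ℚ → ℚ := fun z =>
      ((1 + |y| ^ t) ^ G.1.length - 1) * |tutte (z + 1 / (1 - y)) y G| with hH
    have c1 : ContinuousAt (fun z : ℚ => tutte (z + 1 / (1 - y)) y G) 1 :=
      ((continuous_tutte y G).comp (by fun_prop : Continuous (fun z : ℚ => z + 1 / (1 - y)))
        ).continuousAt
    have c2 : ContinuousAt (fun z : ℚ => tutte z y (joinT t G)) 1 :=
      (continuous_tutte y _).continuousAt
    have c3' : ContinuousAt (fun z : ℚ => z + 1 / (1 - y) - 1) 1 := by fun_prop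
    have c3'' : ContinuousAt (fun z : ℚ => 1 / (z + 1 / (1 - y) - 1)) 1 :=
      ContinuousAt.div continuousAt_const c3' hne
    have c3 : ContinuousAt (fun z : ℚ => (1 / (z + 1 / (1 - y) - 1)) ^ comps G Finset.univ) 1 :=
      c3''.pow _
    have cF : ContinuousAt F 1 := (c1.sub (c3.mul c2)).abs
    have cH : ContinuousAt H 1 := continuousAt_const.mul c1.abs
    have hle : ∀ᶠ z in 𝓝[>] (1 : ℚ), F z ≤ H z := by
      filter_upwards [self_mem_nhdsWithin] with z hz
      have hz' : (1 : ℚ) < z := hz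
      refine step_gt hG hz' hy ?_ t ht
      field_simp
      ring
    exact le_of_tendsto_of_tendsto (cF.tendsto.mono_left nhdsWithin_le_nhds)
      (cH.tendsto.mono_left nhdsWithin_le_nhds) hle

end Pool.Agent.Helper47.TR
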