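import Pool.Agent.Helper47.TR.FPx
import Pool.Agent.Helper47.TR.Join

set_option autoImplicit false

/-!
# The graph operations are polynomial time computable
-/

namespace Pool.Agent.Helper47.TR

open Turing Function N487b59b3 N68a2faeb Pool.Agent.Helper22 Pool.Agent.Helper6.WB Computability

section

variable {α : Type} [N487b59b3 α]

theorem FP.nonloops {f : α → MG} (hf : FP f) : FP fun a => nonloops (f a) := by
  have h1 : FP fun e : ℕ × ℕ => !(decide (e.1 = e.2)) := by fun_prop
  have h2 := FP.filter h1 (f := fun a => (f a).2) (by fun_prop)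
  refine (congrArg FP (funext fun a => ?_)).mp h2
  rfl

theorem FP.loopsL {f : α → MG} (hf : FP f) : FP fun a => (f a).2.filter (fun e => e.1 == e.2) := by
  have h1 : FP fun e : ℕ × ℕ => (decide (e.1 = e.2)) := by fun_prop
  have h2 := FP.filter h1 (f := fun a => (f a).2) (by fun_prop)
  refine (congrArg FP (funext fun a => ?_)).mp h2
  rfl

theorem un_eq (n : ℕ) : un n = List.replicate n true := rfl

theorem FP.jobs {f : α → MG} {t : α → List Bool} (hf : FP f) (ht : FP t) :
    FP fun a => jobs (t a).length (f a) := by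
  have h1 : FP fun q : List Bool × (ℕ × ℕ) => q.1.map (fun _ => q.2) := by
    have h3 : FP fun r : (ℕ × ℕ) × Bool => r.1 := by fun_prop
    have h4 := FP.map_ctx (h := fun r : (ℕ × ℕ) × Bool => r.1) h3
    exact h4.comp (f := fun q : List Bool × (ℕ × ℕ) => (q.2, q.1)) (by fun_prop)
  have h2 := (FP.flatMap_ctx h1).comp (ht.pair (FP.nonloops hf))
  refine (congrArg FP (funext fun a => ?_)).mp h2
  show _ = (TR.nonloops (f a)).flatMap (fun e => List.replicate (t a).length e)
  congr 1
  funext e
  rw [List.map_const']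

/-- one step of the construction of a path -/
def pathStep (s : (ℕ × ℕ) × List (ℕ × ℕ)) : (ℕ × ℕ) × List (ℕ × ℕ) :=
  ((s.1.2, s.1.2 + 1), s.2 ++ [(s.1.1, s.1.2)])

theorem pathStep_iter (l u z : ℕ) (acc : List (ℕ × ℕ)) :
    (pathStep^[l] ((u, z), acc)).1.2 = z + l ∧
    ∀ v, (pathStep^[l] ((u, z), acc)).2 ++ [((pathStep^[l] ((u, z), acc)).1.1, v)]
      = acc ++ path l u z v := by
  induction l generalizing u z acc with
  | zero => exact ⟨rfl, fun v => rfl⟩
  | succ l ih =>
    rw [Function.iterate_succ_apply]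
    obtain ⟨h1, h2⟩ := ih z (z + 1) (acc ++ [(u, z)])
    refine ⟨?_, fun v => ?_⟩
    · show (pathStep^[l] ((z, z + 1), acc ++ [(u, z)])).1.2 = _
      rw [h1]; ring
    · show (pathStep^[l] ((z, z + 1), acc ++ [(u, z)])).2
        ++ [((pathStep^[l] ((z, z + 1), acc ++ [(u, z)])).1.1, v)] = _
      rw [h2, path]
      simp

/-- state: unary `l`, next fresh vertex, edges -/
def gadStep (s : List Bool × (ℕ × List (ℕ × ℕ))) (e : ℕ × ℕ) : List Bool × (ℕ × List (ℕ × ℕ)) :=
  (s.1, ((pathStep^[s.1.length] ((e.1, s.2.1), s.2.2)).1.2,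
    (pathStep^[s.1.length] ((e.1, s.2.1), s.2.2)).2 ++
      [((pathStep^[s.1.length] ((e.1, s.2.1), s.2.2)).1.1, e.2)]))

theorem gadStep_foldl (J : List (ℕ × ℕ)) (L : List Bool) (z : ℕ) (acc : List (ℕ × ℕ)) :
    J.foldl gadStep (L, (z, acc)) = (L, (z + L.length * J.length, acc ++ gad L.length z J)) := by
  induction J generalizing z acc with
  | nil => simp [gad]
  | cons e J ih =>
    obtain ⟨h1, h2⟩ := pathStep_iter L.length e.1 z acc
    rw [List.foldl_cons, gadStep]
    simp only
    rw [h1, h2, ih, gad, List.length_cons, List.append_assoc]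
    congr 2
    ring

theorem gad_length (l z : ℕ) (J : List (ℕ × ℕ)) : (gad l z J).length = (l + 1) * J.length := by
  induction J generalizing z with
  | nil => simp [gad]
  | cons e J ih =>
    rw [gad, List.length_append, ih, path_length, List.length_cons]
    ring

theorem sz_list_le {β : Type} [N487b59b3 β] (l : List β) (C : ℕ) (h : ∀ b ∈ l, sz b ≤ C) :
    sz l ≤ l.length * (2 * C + 1) := by
  have := sz_map_le (fun b : β => b) l C h
  simpa using this

theorem sz_gad (l z : ℕ) (J : List (ℕ × ℕ)) :
    sz (gad l z J) ≤ ((l + 1) * J.length) * (2 * (3 * (sz J + Nat.size z + l * J.length) + 4) + 1) := by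
  rw [← gad_length l z J]
  refine sz_list_le _ _ (fun e he => ?_)
  have h1 := gad_lab (n := 2 ^ (sz J)) l z J (by
    intro e' he'
    have h2 := sz_mem_le he'
    obtain ⟨a, b⟩ := e'
    simp only [sz_pair, sz_nat] at h2
    have ha := Nat.lt_size_self a
    have hb := Nat.lt_size_self b
    have h3 : 2 ^ a.size ≤ 2 ^ sz J := Nat.pow_le_pow_right (by norm_num) (by omega)
    have h4 : 2 ^ b.size ≤ 2 ^ sz J := Nat.pow_le_pow_right (by norm_num) (by omega)
    exact ⟨by simp only; omega, by simp only; omega⟩) e he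
  have key : ∀ a : ℕ, (a < 2 ^ sz J ∨ (z ≤ a ∧ a < z + l * J.length)) →
      Nat.size a ≤ sz J + Nat.size z + l * J.length := by
    intro a ha
    rcases ha with ha | ha
    · have := Nat.size_le.mpr ha
      omega
    · have h5 := size_mono ha.2.le
      have h6 := size_add_le z (l * J.length)
      omega
  obtain ⟨a, b⟩ := e
  have ha := key a h1.1
  have hb := key b h1.2
  simp only [sz_pair, sz_nat]
  omega

theorem FP.gad {l : α → List Bool} {z : α → ℕ} {J : α → List (ℕ × ℕ)} (hl : FP l) (hz : FP z)
    (hJ : FP J) : FP fun a => gad (l a).length (z a) (J a) := by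
  have hp : FP pathStep := by
    unfold pathStep
    refine FP.pair (FP.pair (by fun_prop) (FP.natAdd (by fun_prop) (FP.const 1)))
      (FP.append (by fun_prop) (FP.cons (by fun_prop) (FP.const [])))
  have hit : FP fun p : List Bool × ((ℕ × ℕ) × List (ℕ × ℕ)) => pathStep^[p.1.length] p.2 := by
    refine FP.iterate hp (B := fun n => 2 * (3 * (2 * n) + 4) + 1 + (n + n * (2 * (3 * (2 * n) + 4) + 1)))
      (by fun_prop) ?_
    rintro L ⟨⟨u, z⟩, acc⟩ i hi
    -- the entries after `i` steps
    have key : ∀ i, (pathStep^[i] ((u, z), acc)).2.length = acc.length + i ∧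
        (Nat.size (pathStep^[i] ((u, z), acc)).1.1 ≤ Nat.size u + Nat.size z + i) ∧
        (pathStep^[i] ((u, z), acc)).1.2 = z + i ∧
        sz (pathStep^[i] ((u, z), acc)).2 ≤
          sz acc + i * (2 * (3 * (Nat.size u + Nat.size z + i) + 4) + 1) := by
      intro i
      induction i with
      | zero => simp
      | succ i ih =>
        rw [Function.iterate_succ_apply']
        obtain ⟨h1, h2, h3, h4⟩ := ih
        rcases hq : pathStep^[i] ((u, z), acc) with ⟨⟨a, b⟩, c⟩
        rw [hq] at h1 h2 h3 h4
        simp only at h1 h2 h3 h4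
        subst h3
        have h5 := size_add_le z i
        simp only [pathStep]
        refine ⟨by simp [h1]; omega, by omega, by omega, ?_⟩
        rw [sz_append, sz_cons, sz_nil, sz_pair, sz_nat, sz_nat]
        have h6 : i * (2 * (3 * (Nat.size u + Nat.size z + i) + 4) + 1)
            ≤ i * (2 * (3 * (Nat.size u + Nat.size z + (i + 1)) + 4) + 1) :=
          Nat.mul_le_mul_left _ (by omega)
        have h7 : (i + 1) * (2 * (3 * (Nat.size u + Nat.size z + (i + 1)) + 4) + 1)
          = i * (2 * (3 * (Nat.size u + Nat.size z + (i + 1)) + 4) + 1)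
            + (2 * (3 * (Nat.size u + Nat.size z + (i + 1)) + 4) + 1) := by ring
        omega
    obtain ⟨-, h2, h3, h4⟩ := key i
    have hL := length_le_sz L
    rcases hq : pathStep^[i] ((u, z), acc) with ⟨⟨a, b⟩, c⟩
    rw [hq] at h2 h3 h4
    simp only at h2 h3 h4
    subst h3
    have h5 := size_add_le z i
    simp only [sz_pair, sz_nat]
    generalize hN : sz L + (2 * (2 * Nat.size u + 1 + Nat.size z) + 1 + sz acc) = N
    have h6 : i * (2 * (3 * (Nat.size u + Nat.size z + i) + 4) + 1)
        ≤ N * (2 * (3 * (2 * N) + 4) + 1) := Nat.mul_le_mul (by omega) (by omega)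
    have h7 : sz acc ≤ N := by omega
    have h8 : Nat.size u + Nat.size z + i ≤ 2 * N := by omega
    omega
  have hstep : FP fun p : (List Bool × (ℕ × List (ℕ × ℕ))) × (ℕ × ℕ) => gadStep p.1 p.2 := by
    have h1 : FP fun p : (List Bool × (ℕ × List (ℕ × ℕ))) × (ℕ × ℕ) =>
        pathStep^[p.1.1.length] ((p.2.1, p.1.2.1), p.1.2.2) :=
      hit.comp (f := fun p : (List Bool × (ℕ × List (ℕ × ℕ))) × (ℕ × ℕ) =>
        (p.1.1, ((p.2.1, p.1.2.1), p.1.2.2))) (by fun_prop)
    unfold gadStep
    exact FP.pair (by fun_prop) (FP.pair (by fun_prop)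
      (FP.append (by fun_prop) (FP.cons (by fun_prop) (FP.const []))))
  have hfold : FP fun p : List (ℕ × ℕ) × (List Bool × (ℕ × List (ℕ × ℕ))) =>
      p.1.foldl gadStep p.2 := by
    refine FP.foldl hstep (B := fun n => 2 * n + 1 + (2 * (n + n * n) + 1 +
      (n + ((n + 1) * n) * (2 * (3 * (n + n + n * n) + 4) + 1)))) (by fun_prop) ?_
    rintro J ⟨L, z, acc⟩
    rw [gadStep_foldl]
    have h1 := sz_gad L.length z J
    have h2 := length_le_sz J
    have h3 := length_le_sz L
    have h4 := size_add_le z (L.length * J.length)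
    simp only [sz_pair, sz_append, sz_nat, sz_bits] at *
    generalize hN : sz J + (2 * (3 * L.length) + 1 + (2 * z.size + 1 + sz acc)) = N
    have h5 : L.length * J.length ≤ N * N := Nat.mul_le_mul (by omega) (by omega)
    have h6 : ((L.length + 1) * J.length) * (2 * (3 * (sz J + Nat.size z + L.length * J.length) + 4) + 1)
        ≤ ((N + 1) * N) * (2 * (3 * (N + N + N * N) + 4) + 1) :=
      Nat.mul_le_mul (Nat.mul_le_mul (by omega) (by omega)) (by omega)
    omega
  have h := hfold.comp (hJ.pair (hl.pair (hz.pair (FP.const ([] : List (ℕ × ℕ))))))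
  simp only [gadStep_foldl, List.nil_append] at h
  exact h.snd'.snd'

theorem FP.gadG {f : α → MG} {l t : α → List Bool} (hf : FP f) (hl : FP l) (ht : FP t)
    (s : Bool) : FP fun a => gadG (l a).length (t a).length s (f a) := by
  have h1 := FP.jobs hf ht
  have h2 : FP fun a => un ((l a).length * (TR.jobs (t a).length (f a)).length) := by
    have := FP.unMul hl (FP.un_length h1)
    simpa only [Helper22.un_length] using this
  have h3 : FP fun a => (f a).1 ++ un ((l a).length * (TR.jobs (t a).length (f a)).length) :=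
    FP.append (by fun_prop) h2
  have h4 : FP fun a => TR.gad (l a).length (f a).1.length (TR.jobs (t a).length (f a)) :=
    FP.gad hl (FP.length (by fun_prop)) h1
  cases s
  · exact h3.pair (h4.append (FP.const []))
  · exact h3.pair (h4.append (FP.nonloops hf))

theorem FP.rep {J : α → List (ℕ × ℕ)} {t : α → List Bool} (hJ : FP J) (ht : FP t) :
    FP fun a => (J a).flatMap (fun e => List.replicate (t a).length e) := by
  have h1 : FP fun q : List Bool × (ℕ × ℕ) => q.1.map (fun _ => q.2) := by
    have h3 : FP fun r : (ℕ × ℕ) × Bool => r.1 := by fun_prop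
    have h4 := FP.map_ctx (h := fun r : (ℕ × ℕ) × Bool => r.1) h3
    exact h4.comp (f := fun q : List Bool × (ℕ × ℕ) => (q.2, q.1)) (by fun_prop)
  have h2 := (FP.flatMap_ctx h1).comp (ht.pair hJ)
  refine (congrArg FP (funext fun a => ?_)).mp h2
  congr 1
  funext e
  rw [List.map_const']

theorem FP.joinT {f : α → MG} {t : α → List Bool} (hf : FP f) (ht : FP t) :
    FP fun a => joinT (t a).length (f a) := by
  have h1 : FP fun q : ℕ × ℕ => (q.2, q.1) := by fun_prop
  have h2 : FP fun a => star (f a).1.length :=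
    (FP.map_ctx h1).comp (f := fun a => ((f a).1.length, List.range (f a).1.length))
    (FP.pair (FP.length (by fun_prop)) (FP.range (by fun_prop)))
  exact FP.pair (FP.append (by fun_prop) (FP.const [true]))
    (FP.append (by fun_prop) (FP.rep h2 ht))

end

end Pool.Agent.Helper47.TR
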