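import Pool.Agent.Helper47.TR.Gad
import Pool.Agent.Helper47.TR.Tut

set_option autoImplicit false

/-!
# Colourings, the normalised partition function, and the Tutte polynomial
-/

namespace Pool.Agent.Helper47.TR

open Finset

section Col

variable {V C : Type*} [Fintype V] [DecidableEq V] [Fintype C] [DecidableEq C]

/-- the weight of an edge under a colouring -/
def ew (σ : V → C) (f : ℕ → V) (e : WE) : ℚ := if σ (f e.1) = σ (f e.2.1) then e.2.2.2 else e.2.2.1

theorem resample (p q : V) (hpq : p ≠ q) (Ψ : (V → C) → ℚ)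
    (hΨ : ∀ σ c, Ψ (Function.update σ q c) = Ψ σ) :
    ∑ σ, Ψ σ = (Fintype.card C : ℚ) * ∑ σ : V → C, if σ p = σ q then Ψ σ else 0 := by
  have h1 : (Fintype.card C : ℚ) * ∑ σ : V → C, (if σ p = σ q then Ψ σ else 0)
      = ∑ x : (V → C) × C, if x.1 p = x.1 q then Ψ x.1 else 0 := by
    rw [Fintype.sum_prod_type, Finset.mul_sum]
    refine Finset.sum_congr rfl (fun σ _ => ?_)
    simp [Finset.sum_const]
  have h2 : ∑ x : (V → C) × C, (if x.1 p = x.1 q then Ψ x.1 else 0)
      = ∑ x : (V → C) × C, if x.1 p = x.2 then Ψ x.1 else 0 := by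
    refine Finset.sum_nbij' (fun x => (Function.update x.1 q x.2, x.1 q))
      (fun x => (Function.update x.1 q x.2, x.1 q)) (by simp) (by simp) ?_ ?_ ?_
    · rintro ⟨σ, c⟩ _
      simp
    · rintro ⟨σ, c⟩ _
      simp
    · rintro ⟨σ, c⟩ _
      simp only [Function.update_of_ne hpq, hΨ]
  rw [h1, h2, Fintype.sum_prod_type]
  refine Finset.sum_congr rfl (fun σ _ => ?_)
  simp

theorem potts [Nonempty C] (W : List WE) (f : ℕ → V) :
    ∑ σ : V → C, (W.map (ew σ f)).prod
      = (Fintype.card C : ℚ) ^ Fintype.card V * R (1 / (Fintype.card C : ℚ)) W f := by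
  have hN : (Fintype.card C : ℚ) ≠ 0 := by
    have := Fintype.card_ne_zero (α := C)
    exact_mod_cast this
  induction W generalizing f with
  | nil => simp
  | cons e W ih =>
    obtain ⟨a, b, α, β⟩ := e
    simp only [List.map_cons, List.prod_cons]
    by_cases h : f a = f b
    · rw [R_loop _ h]
      have : ∀ σ : V → C, ew σ f (a, b, α, β) = β := fun σ => by simp [ew, h]
      simp only [this]
      rw [← Finset.mul_sum, ih]
      ring
    · rw [R_non _ h]
      have h1 : ∀ σ : V → C, ew σ f (a, b, α, β) * (W.map (ew σ f)).prod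
          = α * (W.map (ew σ f)).prod + (β - α) *
            (if σ (f a) = σ (f b) then
              (W.map (ew σ (fun i => mg (f a) (f b) (f i)))).prod else 0) := by
        intro σ
        by_cases h' : σ (f a) = σ (f b)
        · have h2 : ew σ (fun i => mg (f a) (f b) (f i)) = ew σ f := by
            funext e
            have h3 : ∀ i, σ (mg (f a) (f b) (f i)) = σ (f i) := by
              intro i
              unfold mg
              split_ifs with h4
              · rw [h', h4]
              · rfl
            simp only [ew, h3]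
          rw [if_pos h', h2]
          rw [show ew σ f (a, b, α, β) = β by simp [ew, h']]
          ring
        · rw [if_neg h', show ew σ f (a, b, α, β) = α by simp [ew, h']]
          ring
      simp only [h1]
      rw [Finset.sum_add_distrib, ← Finset.mul_sum, ← Finset.mul_sum, ih]
      have h3 := resample (f a) (f b) h (fun σ : V → C =>
        (W.map (ew σ (fun i => mg (f a) (f b) (f i)))).prod) (by
          intro σ c
          have h4 : ∀ i, Function.update σ (f b) c (mg (f a) (f b) (f i))
              = σ (mg (f a) (f b) (f i)) := by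
            intro i
            refine Function.update_of_ne ?_ _ _
            unfold mg
            split_ifs with h5
            · exact h
            · exact h5
          have h6 : ew (Function.update σ (f b) c) (fun i => mg (f a) (f b) (f i))
              = ew σ (fun i => mg (f a) (f b) (f i)) := by
            funext e
            simp only [ew, h4]
          rw [h6])
      rw [ih] at h3
      have h4 : ∑ σ : V → C, (if σ (f a) = σ (f b) then
              (W.map (ew σ (fun i => mg (f a) (f b) (f i)))).prod else 0)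
          = (1 / (Fintype.card C : ℚ)) * ((Fintype.card C : ℚ) ^ Fintype.card V *
            R (1 / (Fintype.card C : ℚ)) W (fun i => mg (f a) (f b) (f i))) := by
        rw [h3]; field_simp
      rw [h4]
      ring

end Col

section Poly

variable {L : Type*} [DecidableEq L]

theorem R_poly (W : List WE) (f : ℕ → L) : ∃ P : Polynomial ℚ, ∀ κ, R κ W f = P.eval κ := by
  induction W generalizing f with
  | nil => exact ⟨1, fun κ => by simp⟩
  | cons e W ih =>
    obtain ⟨a, b, α, β⟩ := e
    obtain ⟨P, hP⟩ := ih f
    by_cases h : f a = f b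
    · exact ⟨Polynomial.C β * P, fun κ => by rw [R_loop _ h, hP]; simp⟩
    · obtain ⟨Q, hQ⟩ := ih (fun i => mg (f a) (f b) (f i))
      exact ⟨Polynomial.C α * P + Polynomial.X * Polynomial.C (β - α) * Q,
        fun κ => by rw [R_non _ h, hP, hQ]; simp⟩

/-- polynomials that agree at all `1/N` are equal -/
theorem poly_eq_of_inv (P Q : Polynomial ℚ)
    (h : ∀ N : ℕ, 0 < N → P.eval (1 / (N : ℚ)) = Q.eval (1 / (N : ℚ))) : P = Q := by
  refine Polynomial.eq_of_infinite_eval_eq P Q ?_
  refine Set.infinite_of_injective_forall_mem (f := fun N : ℕ => 1 / ((N : ℚ) + 1)) ?_ ?_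
  · intro a b hab
    simpa using hab
  · intro N
    have := h (N + 1) (Nat.succ_pos N)
    push_cast at this
    exact this

end Poly

section Count

open Classical in
noncomputable instance (G : MG) (A : Finset (Fin G.2.length)) (N : ℕ) :
    DecidablePred fun σ : Fin G.1.length → Fin N => ∀ u v, adj G A u v → σ u = σ v :=
  fun _ => inferInstance

variable (G : MG)

theorem card_compat (A : Finset (Fin G.2.length)) (N : ℕ) :
    (Finset.univ.filter (fun σ : Fin G.1.length → Fin N =>
      ∀ u v, adj G A u v → σ u = σ v)).card = N ^ comps G A := by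
  classical
  have e : {σ : Fin G.1.length → Fin N // ∀ u v, adj G A u v → σ u = σ v}
      ≃ (Quot (adj G A) → Fin N) :=
    { toFun := fun σ => Quot.lift σ.1 σ.2
      invFun := fun τ => ⟨fun u => τ (Quot.mk _ u), fun u v h => congrArg τ (Quot.sound h)⟩
      left_inv := fun σ => rfl
      right_inv := fun τ => by
        funext c
        induction c using Quot.ind with
        | mk u => rfl }
  have h1 := Nat.card_congr e
  rw [Nat.card_fun, Nat.card_fin] at h1
  rw [← Fintype.card_subtype, ← Nat.card_eq_fintype_card]
  exact h1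

theorem compat_iff (hG : Valid G) (A : Finset (Fin G.2.length)) {C : Type*}
    (σ : Fin G.1.length → C) (f : ℕ → Fin G.1.length) (hf : ∀ i : Fin G.1.length, f i = i) :
    (∀ u v, adj G A u v → σ u = σ v) ↔ ∀ i ∈ A, σ (f G.2[i].1) = σ (f G.2[i].2) := by
  constructor
  · intro h i hi
    obtain ⟨h1, h2⟩ := hG (G.2.get i) (List.get_mem _ _)
    have h3 : f G.2[i].1 = ⟨(G.2.get i).1, h1⟩ := hf ⟨(G.2.get i).1, h1⟩
    have h4 : f G.2[i].2 = ⟨(G.2.get i).2, h2⟩ := hf ⟨(G.2.get i).2, h2⟩
    rw [h3, h4]
    exact h _ _ ⟨i, hi, rfl, rfl⟩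
  · rintro h u v ⟨i, hi, hu, hv⟩
    have := h i hi
    have h3 : f G.2[i].1 = u := by
      rw [← hf u]; exact congrArg f hu
    have h4 : f G.2[i].2 = v := by
      rw [← hf v]; exact congrArg f hv
    rwa [h3, h4] at this

theorem Z_color (hG : Valid G) (v : ℚ) (N : ℕ) (f : ℕ → Fin G.1.length)
    (hf : ∀ i : Fin G.1.length, f i = i) :
    Z G v N = ∑ σ : Fin G.1.length → Fin N,
      (G.2.map (fun e => 1 + if σ (f e.1) = σ (f e.2) then v else 0)).prod := by
  classical
  have h1 : ∀ σ : Fin G.1.length → Fin N,
      (G.2.map (fun e => 1 + if σ (f e.1) = σ (f e.2) then v else 0)).prod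
      = ∑ A : Finset (Fin G.2.length), if (∀ u v, adj G A u v → σ u = σ v) then v ^ A.card
        else 0 := by
    intro σ
    rw [← Fin.prod_univ_fun_getElem, Finset.prod_one_add]
    rw [Finset.powerset_univ]
    refine Finset.sum_congr rfl (fun A _ => ?_)
    by_cases h : ∀ u v, adj G A u v → σ u = σ v
    · rw [if_pos h]
      rw [compat_iff G hG A σ f hf] at h
      rw [← Finset.prod_const]
      exact Finset.prod_congr rfl (fun i hi => if_pos (h i hi))
    · rw [if_neg h]
      rw [compat_iff G hG A σ f hf] at h
      push Not at h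
      obtain ⟨i, hi, hne⟩ := h
      exact Finset.prod_eq_zero hi (if_neg hne)
  simp only [h1]
  rw [Finset.sum_comm]
  unfold Z
  refine Finset.sum_congr rfl (fun A _ => ?_)
  have h2 := card_compat G A N
  rw [← Finset.sum_filter, Finset.sum_const, nsmul_eq_mul, mul_comm]
  congr 1
  rw [← Nat.cast_pow, ← h2]

/-- the normalised partition function as a sum over edge sets -/
theorem R_eq_sum (hG : Valid G) (v κ : ℚ) :
    R κ (wE 1 (1 + v) G.2) id
      = ∑ A : Finset (Fin G.2.length), v ^ A.card * κ ^ (G.1.length - comps G A) := by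
  rcases Nat.eq_zero_or_pos G.1.length with h0 | h0
  · have h1 : G.2 = [] := by
      rcases h : G.2 with _ | ⟨e, l⟩
      · rfl
      · have := hG e (by rw [h]; simp)
        omega
    have h2 : ∀ A : Finset (Fin G.2.length), A = ∅ := by
      intro A
      have : G.2.length = 0 := by rw [h1]; rfl
      ext i
      exact absurd i.2 (by omega)
    have h3 : (Finset.univ : Finset (Finset (Fin G.2.length))) = {∅} := by
      ext A
      simp [h2 A]
    rw [h3, h0]
    simp [h1]
  · have : NeZero G.1.length := ⟨h0.ne'⟩
    have hf : ∀ i : Fin G.1.length, Fin.ofNat G.1.length i = i := fun i => by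
      ext
      simp [Fin.ofNat, Nat.mod_eq_of_lt i.2]
    have hR : ∀ κ : ℚ, R κ (wE 1 (1 + v) G.2) id
        = R κ (wE 1 (1 + v) G.2) (Fin.ofNat G.1.length) := by
      intro κ
      refine R_ker κ (S := {i | i < G.1.length}) _ _ _ (lab_wE.mpr hG) ?_
      intro i hi j hj
      have hi' := Nat.mod_eq_of_lt (show i < G.1.length from hi)
      have hj' := Nat.mod_eq_of_lt (show j < G.1.length from hj)
      simp only [id, Fin.ofNat, Fin.mk.injEq, hi', hj']
    obtain ⟨P, hP⟩ := R_poly (wE 1 (1 + v) G.2) (Fin.ofNat G.1.length)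
    have hPQ : P = ∑ A : Finset (Fin G.2.length),
        Polynomial.C (v ^ A.card) * Polynomial.X ^ (G.1.length - comps G A) := by
      refine poly_eq_of_inv _ _ (fun N hN => ?_)
      have : NeZero N := ⟨hN.ne'⟩
      rw [← hP]
      have h1 := potts (C := Fin N) (wE 1 (1 + v) G.2) (Fin.ofNat G.1.length)
      rw [Fintype.card_fin, Fintype.card_fin] at h1
      have h2 := Z_color G hG v N (Fin.ofNat G.1.length) hf
      have h3 : ∀ σ : Fin G.1.length → Fin N,
          ((wE 1 (1 + v) G.2).map (ew σ (Fin.ofNat G.1.length))).prod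
          = (G.2.map (fun e => 1 + if σ (Fin.ofNat G.1.length e.1) =
            σ (Fin.ofNat G.1.length e.2) then v else 0)).prod := by
        intro σ
        rw [wE, List.map_map]
        congr 1
        refine List.map_congr_left (fun e _ => ?_)
        simp only [Function.comp, ew]
        split_ifs <;> ring
      simp only [h3] at h1
      rw [← h2] at h1
      have hN' : (N : ℚ) ≠ 0 := by exact_mod_cast hN.ne'
      have h4 : R (1 / (N : ℚ)) (wE 1 (1 + v) G.2) (Fin.ofNat G.1.length)
          = (1 / (N : ℚ)) ^ G.1.length * Z G v N := by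
        rw [h1, ← mul_assoc, ← mul_pow, one_div_mul_cancel hN', one_pow, one_mul]
      rw [h4, Polynomial.eval_finsetSum]
      unfold Z
      rw [Finset.mul_sum]
      refine Finset.sum_congr rfl (fun A _ => ?_)
      simp only [Polynomial.eval_mul, Polynomial.eval_C, Polynomial.eval_pow, Polynomial.eval_X]
      obtain ⟨d, hd⟩ := Nat.exists_eq_add_of_le (comps_le G A)
      rw [show G.1.length - comps G A = d by omega, hd, pow_add]
      have h5 : (1 / (N : ℚ)) ^ comps G A * (N : ℚ) ^ comps G A = 1 := by
        rw [← mul_pow, one_div_mul_cancel hN', one_pow]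
      linear_combination (1 / (N : ℚ)) ^ d * v ^ A.card * h5
    rw [hR, hP, hPQ, Polynomial.eval_finsetSum]
    simp only [Polynomial.eval_mul, Polynomial.eval_C, Polynomial.eval_pow, Polynomial.eval_X]

theorem tutte_eq_R (hG : Valid G) {x y : ℚ} (hx : x ≠ 1) (hy : y ≠ 1) :
    tutte x y G = (x - 1) ^ (G.1.length - comps G Finset.univ) *
      R (1 / ((x - 1) * (y - 1))) (wE 1 y G.2) id := by
  have hX : x - 1 ≠ 0 := sub_ne_zero.mpr hx
  have hY : y - 1 ≠ 0 := sub_ne_zero.mpr hy
  have h1 := R_eq_sum G hG (y - 1) (1 / ((x - 1) * (y - 1)))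
  rw [add_sub_cancel] at h1
  rw [h1, Finset.mul_sum]
  unfold tutte
  refine Finset.sum_congr rfl (fun A _ => ?_)
  have h2 := comps_anti G (Finset.subset_univ A)
  have h3 := le_card_add_comps G hG A
  have h4 := comps_le G A
  obtain ⟨d, hd⟩ := Nat.exists_eq_add_of_le h2
  obtain ⟨e, he⟩ := Nat.exists_eq_add_of_le h4
  obtain ⟨k, hk⟩ := Nat.exists_eq_add_of_le h3
  rw [show comps G A - comps G Finset.univ = d by omega,
    show A.card + comps G A - G.1.length = k by omega,
    show G.1.length - comps G Finset.univ = d + e by omega,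
    show G.1.length - comps G A = e by omega,
    show A.card = k + e by omega, pow_add, pow_add, one_div_pow, mul_pow]
  field_simp

end Count

end Pool.Agent.Helper47.TR
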