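import Pool.Agent.Helper47.TR.Gad

set_option autoImplicit false

/-!
# Stability of the partition function for `q < 0` and edge weights in `[-1, 1]`
-/

namespace Pool.Agent.Helper47.TR

variable {L : Type*} [DecidableEq L]

/-- weights `(1, β)` with `|β| ≤ 1` -/
def Good (W : List WE) : Prop := ∀ e ∈ W, e.2.2.1 = 1 ∧ |e.2.2.2| ≤ 1

/-- no loops -/
def NL (W : List WE) (f : ℕ → L) : Prop := ∀ e ∈ W, f e.1 ≠ f e.2.1

/-- parallel to `{p, q}` -/
def Par (p q : L) (f : ℕ → L) (e : WE) : Prop := (p = f e.1 ∧ q = f e.2.1) ∨ (p = f e.2.1 ∧ q = f e.1)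

instance (p q : L) (f : ℕ → L) : DecidablePred (Par p q f) := fun _ => by unfold Par; infer_instance

theorem merge_par (κ : ℚ) (a b : ℕ) (w : ℚ) (f : ℕ → L) (P Q : List WE)
    (hP : ∀ e ∈ P, Par (f a) (f b) f e ∧ e.2.2.1 = 1) :
    R κ ((a, b, 1, w) :: (P ++ Q)) f
      = R κ ((a, b, 1, w * (P.map (fun e => e.2.2.2)).prod) :: Q) f := by
  induction P generalizing w with
  | nil => simp
  | cons e P ih =>
    obtain ⟨c, d, α, β⟩ := e
    obtain ⟨h1, h2⟩ := hP (c, d, α, β) (by simp)
    simp only at h2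
    subst h2
    have h3 : (f a = f c ∧ f b = f d) ∨ (f a = f d ∧ f b = f c) := h1
    rw [List.cons_append, R_par κ h3, mul_one, ih _ (fun e he => hP e (by simp [he]))]
    simp only [List.map_cons, List.prod_cons, mul_assoc]

theorem abs_prod_le (P : List WE) (hP : ∀ e ∈ P, |e.2.2.2| ≤ 1) :
    |(P.map (fun e => e.2.2.2)).prod| ≤ 1 := by
  induction P with
  | nil => simp
  | cons e P ih =>
    rw [List.map_cons, List.prod_cons, abs_mul]
    exact mul_le_one₀ (hP e (by simp)) (abs_nonneg _) (ih (fun e he => hP e (by simp [he])))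

theorem par_split (a b : ℕ) (f : ℕ → L) (hab : f a ≠ f b) (W : List WE) (hW : Good W)
    (hN : NL W f) : ∃ (Q : List WE) (u : ℚ), Q.length ≤ W.length ∧ Good Q ∧ NL Q f ∧
      NL Q (fun i => mg (f a) (f b) (f i)) ∧ |u| ≤ 1 ∧
      ∀ κ w : ℚ, R κ ((a, b, 1, w) :: W) f
        = R κ Q f + κ * (w * u - 1) * R κ Q (fun i => mg (f a) (f b) (f i)) := by
  set P := W.filter (fun e => Par (f a) (f b) f e) with hP
  set Q := W.filter (fun e => ¬ Par (f a) (f b) f e) with hQ
  refine ⟨Q, (P.map (fun e => e.2.2.2)).prod, List.length_filter_le _ _, ?_, ?_, ?_, ?_, ?_⟩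
  · exact fun e he => hW e (List.mem_of_mem_filter he)
  · exact fun e he => hN e (List.mem_of_mem_filter he)
  · intro e he h
    have h1 := hN e (List.mem_of_mem_filter he)
    have h2 : ¬ Par (f a) (f b) f e := by
      have := List.of_mem_filter he
      simpa using this
    rw [mg_eq_iff] at h
    rcases h with h | h | h
    · exact h1 h
    · exact h2 (Or.inl ⟨h.1.symm, h.2.symm⟩)
    · exact h2 (Or.inr ⟨h.2.symm, h.1.symm⟩)
  · exact abs_prod_le P (fun e he => (hW e (List.mem_of_mem_filter he)).2)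
  · intro κ w
    have h1 : (P ++ Q).Perm W := by
      have := List.filter_append_perm (fun e => decide (Par (f a) (f b) f e)) W
      simpa [hP, hQ] using this
    rw [R_perm κ (List.Perm.cons _ h1.symm), merge_par κ a b w f P Q ?_, R_non κ hab, one_mul]
    intro e he
    refine ⟨?_, (hW e (List.mem_of_mem_filter he)).1⟩
    have := List.of_mem_filter he
    simpa using this

theorem one_le_R (κ : ℚ) (hκ : κ ≤ 0) (n : ℕ) : ∀ (W : List WE), W.length ≤ n → Good W →
    ∀ f : ℕ → L, NL W f → 1 ≤ R κ W f := by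
  induction n with
  | zero =>
    intro W hW _ f _
    rw [List.length_eq_zero_iff.mp (Nat.le_zero.mp hW)]
    simp
  | succ n ih =>
    intro W hW hG f hN
    rcases W with _ | ⟨⟨a, b, α, w⟩, W⟩
    · simp
    · have hα := (hG (a, b, α, w) (by simp)).1
      have hw := (hG (a, b, α, w) (by simp)).2
      simp only at hα hw
      subst hα
      have hab : f a ≠ f b := hN (a, b, 1, w) (by simp)
      obtain ⟨Q, u, h1, h2, h3, h4, h5, h6⟩ := par_split a b f hab W
        (fun e he => hG e (by simp [he])) (fun e he => hN e (by simp [he]))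
      simp only [List.length_cons] at hW
      rw [h6]
      have h7 := ih Q (by omega) h2 f h3
      have h8 := ih Q (by omega) h2 _ h4
      have h9 : w * u ≤ 1 := by
        have := mul_le_one₀ hw (abs_nonneg u) h5
        rw [← abs_mul] at this
        exact (le_abs_self _).trans this
      nlinarith [mul_nonneg (mul_nonneg_of_nonpos_of_nonpos hκ (by linarith : w * u - 1 ≤ 0))
        (by linarith : (0 : ℚ) ≤ R κ Q (fun i => mg (f a) (f b) (f i)))]

theorem R_pos {κ : ℚ} (hκ : κ ≤ 0) {W : List WE} {f : ℕ → L} (hW : Good W) (hN : NL W f) :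
    0 < R κ W f := lt_of_lt_of_le one_pos (one_le_R κ hκ W.length W le_rfl hW f hN)

theorem cond_one {κ : ℚ} (hκ : κ ≤ 0) {a b : ℕ} {r w : ℚ} (hw : |w| < 1) {W : List WE}
    {f : ℕ → L} (hab : f a ≠ f b) (hW : Good W) (hN : NL W f) :
    |R κ ((a, b, 1, r) :: W) f - R κ ((a, b, 1, w) :: W) f|
      ≤ |r - w| / (1 - |w|) * R κ ((a, b, 1, w) :: W) f := by
  obtain ⟨Q, u, -, h2, h3, h4, h5, h6⟩ := par_split a b f hab W hW hN
  rw [h6, h6]
  have h7 := R_pos hκ h2 h3
  have h8 := R_pos hκ h2 h4
  set A := R κ Q f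
  set B := R κ Q (fun i => mg (f a) (f b) (f i))
  have h9 : |w * u| ≤ |w| := by
    rw [abs_mul]
    exact mul_le_of_le_one_right (abs_nonneg _) h5
  have h10 : w * u ≤ |w| := (le_abs_self _).trans h9
  have h11 : 0 < 1 - |w| := by linarith
  have e1 : A + κ * (r * u - 1) * B - (A + κ * (w * u - 1) * B) = -(-κ * B) * (u * (r - w)) := by
    ring
  have hKB : 0 ≤ -κ * B := mul_nonneg (by linarith) h8.le
  rw [e1, neg_mul, abs_neg, abs_mul, abs_of_nonneg hKB, abs_mul, div_mul_eq_mul_div,
    le_div_iff₀ h11]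
  have h12 : (-κ * B) * (1 - |w|) ≤ A + κ * (w * u - 1) * B := by nlinarith
  calc (-κ * B) * (|u| * |r - w|) * (1 - |w|)
      = (|u| * |r - w|) * ((-κ * B) * (1 - |w|)) := by ring
    _ ≤ (1 * |r - w|) * (A + κ * (w * u - 1) * B) := by
        apply mul_le_mul _ h12 (mul_nonneg hKB h11.le) (by positivity)
        exact mul_le_mul_of_nonneg_right h5 (abs_nonneg _)
    _ = _ := by ring

theorem cond_all {κ : ℚ} (hκ : κ ≤ 0) {r w : ℚ} (hw : |w| < 1) (hr : |r| ≤ 1)
    (E : List (ℕ × ℕ)) (f : ℕ → L) (hE : ∀ e ∈ E, f e.1 ≠ f e.2) (X : List WE) (hX : Good X)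
    (hXN : NL X f) :
    |R κ (wE 1 r E ++ X) f - R κ (wE 1 w E ++ X) f|
      ≤ ((1 + |r - w| / (1 - |w|)) ^ E.length - 1) * R κ (wE 1 w E ++ X) f := by
  induction E generalizing X with
  | nil => simp
  | cons e E ih =>
    have he := hE e (by simp)
    have hE' : ∀ e ∈ E, f e.1 ≠ f e.2 := fun e he => hE e (by simp [he])
    have h1 := ih hE' ((e.1, e.2, 1, r) :: X)
      (by
        intro e' he'
        rcases List.mem_cons.mp he' with rfl | he'
        · exact ⟨rfl, hr⟩
        · exact hX e' he')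
      (by
        intro e' he'
        rcases List.mem_cons.mp he' with rfl | he'
        · exact he
        · exact hXN e' he')
    have p1 : ∀ s : ℚ, R κ (wE 1 s E ++ ((e.1, e.2, 1, r) :: X)) f
        = R κ ((e.1, e.2, 1, r) :: (wE 1 s E ++ X)) f :=
      fun s => R_perm κ List.perm_middle f
    rw [p1, p1] at h1
    have h2 := cond_one hκ (a := e.1) (b := e.2) (r := r) hw (W := wE 1 w E ++ X) he
      (by
        intro e' he'
        rcases List.mem_append.mp he' with he' | he'
        · simp only [wE, List.mem_map] at he'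
          obtain ⟨x, -, rfl⟩ := he'
          exact ⟨rfl, hw.le⟩
        · exact hX e' he')
      (by
        intro e' he'
        rcases List.mem_append.mp he' with he' | he'
        · simp only [wE, List.mem_map] at he'
          obtain ⟨x, hx, rfl⟩ := he'
          exact hE' x hx
        · exact hXN e' he')
    rw [wE_cons, wE_cons, List.cons_append, List.cons_append, List.length_cons, pow_succ]
    set θ := |r - w| / (1 - |w|)
    have hθ : 0 ≤ θ := div_nonneg (abs_nonneg _) (by linarith)
    set A := R κ ((e.1, e.2, 1, r) :: (wE 1 r E ++ X)) f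
    set B := R κ ((e.1, e.2, 1, r) :: (wE 1 w E ++ X)) f
    set C := R κ ((e.1, e.2, 1, w) :: (wE 1 w E ++ X)) f
    have h3 : (0 : ℚ) ≤ (1 + θ) ^ E.length - 1 := by
      have := one_le_pow₀ (n := E.length) (by linarith : (1 : ℚ) ≤ 1 + θ)
      linarith
    have h4 : B ≤ (1 + θ) * C := by
      have := (abs_le.mp h2).2
      linarith
    have h5 : |A - C| ≤ |A - B| + |B - C| := by
      have := abs_add_le (A - B) (B - C)
      rwa [sub_add_sub_cancel] at this
    have h6 := mul_le_mul_of_nonneg_left h4 h3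
    calc |A - C| ≤ |A - B| + |B - C| := h5
      _ ≤ ((1 + θ) ^ E.length - 1) * ((1 + θ) * C) + θ * C := by linarith
      _ = _ := by ring

end Pool.Agent.Helper47.TR
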