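import Pool.Agent.Helper47.TR.Main

set_option autoImplicit false

/-!
# The main inequality on the whole region `x ≥ 1`
-/

namespace Pool.Agent.Helper47.TR

open Filter Topology

theorem continuous_tutte (y : ℚ) (G : MG) : Continuous (fun x => tutte x y G) := by
  unfold tutte
  fun_prop

theorem continuous_geo (l : ℕ) : Continuous (fun x => geo x l) := by
  induction l with
  | zero => exact continuous_const
  | succ l ih =>
    simp only [geo]
    fun_prop

/-- the main inequality for `x ≥ 1` -/
theorem main_ge {G : MG} (hG : Valid G) {x y x' y' : ℚ} (hx : 1 ≤ x) (hy : |y| < 1)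
    (hy' : |y'| < 1) (hxx : (x' - 1) * (1 - y') = (x - 1) * (1 - y)) (l t : ℕ) (ht : 0 < t)
    (s : Bool) :
    |tutte x' y' G - cst G x y y' l t * tutte x y (gadG l t s G)|
      ≤ ((1 + |yeff x y l t s - y'| / (1 - |y'|)) ^ (nonloops G).length - 1) *
        |tutte x' y' G| := by
  have hy1 : y < 1 := (le_abs_self _).trans_lt hy
  have hy1' : y' < 1 := (le_abs_self _).trans_lt hy'
  have hr : ∀ z : ℚ, 1 ≤ z → |yeff z y l t s| ≤ 1 := by
    intro z hz
    have hg := geo_pos (by linarith : 0 ≤ z) l
    have hny : -1 < y := (abs_lt.mp hy).1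
    rw [yeff, abs_mul, abs_pow]
    refine mul_le_one₀ (pow_le_one₀ (abs_nonneg _) ?_) (abs_nonneg _) ?_
    · have h1 : (1 - y) / geo z l ≤ 2 := by
        rw [div_le_iff₀ (by linarith)]; nlinarith
      have h2 : 0 ≤ (1 - y) / geo z l := div_nonneg (by linarith) (by linarith)
      rw [abs_le]; constructor <;> linarith
    · cases s
      · simp
      · simpa using hy.le
  rcases hx.lt_or_eq with hx | hx
  · exact main_gt hG hx hy hy' hxx l t ht s (hr x hx.le)
  · subst hx
    have hx'1 : x' = 1 := by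
      have h1 : (x' - 1) * (1 - y') = 0 := by rw [hxx]; ring
      rcases mul_eq_zero.mp h1 with h | h <;> linarith
    subst hx'1
    -- the family x ↦ 1 + (x-1)(1-y)/(1-y')
    set ρ := (1 - y) / (1 - y')
    have hρ : ρ * (1 - y') = 1 - y := div_mul_cancel₀ _ (by linarith)
    set F : ℚ → ℚ := fun z => |tutte (1 + (z - 1) * ρ) y' G
      - cst G z y y' l t * tutte z y (gadG l t s G)| with hF
    set H : ℚ → ℚ := fun z =>
      ((1 + |yeff z y l t s - y'| / (1 - |y'|)) ^ (nonloops G).length - 1) *
        |tutte (1 + (z - 1) * ρ) y' G| with hH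
    have hg : geo 1 l ≠ 0 := by have := geo_pos (by norm_num : (0 : ℚ) ≤ 1) l; linarith
    have c1 : ContinuousAt (fun z : ℚ => tutte (1 + (z - 1) * ρ) y' G) 1 :=
      ((continuous_tutte y' G).comp (by fun_prop : Continuous (fun z : ℚ => 1 + (z - 1) * ρ))
        ).continuousAt
    have c2 : ContinuousAt (fun z : ℚ => tutte z y (gadG l t s G)) 1 :=
      (continuous_tutte y _).continuousAt
    have c3 : ContinuousAt (fun z : ℚ => geo z l) 1 := (continuous_geo l).continuousAt
    have c4 : ContinuousAt (fun z : ℚ => cst G z y y' l t) 1 := by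
      unfold cst
      exact ContinuousAt.div continuousAt_const (c3.pow _) (pow_ne_zero _ hg)
    have c5 : ContinuousAt (fun z : ℚ => yeff z y l t s) 1 := by
      unfold yeff
      exact ((continuousAt_const.sub (ContinuousAt.div continuousAt_const c3 hg)).pow t).mul
        continuousAt_const
    have cF : ContinuousAt F 1 := (c1.sub (c4.mul c2)).abs
    have cH : ContinuousAt H 1 :=
      (((continuousAt_const.add ((c5.sub continuousAt_const).abs.div_const _)).pow _).sub
        continuousAt_const).mul c1.abs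
    have hle : ∀ᶠ z in 𝓝[>] (1 : ℚ), F z ≤ H z := by
      filter_upwards [self_mem_nhdsWithin] with z hz
      have hz' : (1 : ℚ) < z := hz
      refine main_gt hG hz' hy hy' ?_ l t ht s (hr z hz'.le)
      rw [add_sub_cancel_left, mul_assoc, hρ]
    have h1 := le_of_tendsto_of_tendsto (cF.tendsto.mono_left nhdsWithin_le_nhds)
      (cH.tendsto.mono_left nhdsWithin_le_nhds) hle
    simp only [hF, hH, sub_self, zero_mul, add_zero] at h1
    exact h1

/-- an elementary estimate -/
theorem pow_sub_one_le {θ : ℚ} (hθ : 0 ≤ θ) (m : ℕ) (N : ℚ) (hN : 1 ≤ N)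
    (h : 2 * (m * θ) * N ≤ 1) : ((1 + θ) ^ m - 1) * N ≤ 1 := by
  have hm : (0 : ℚ) ≤ m * θ := mul_nonneg (Nat.cast_nonneg _) hθ
  have h1 : (m : ℚ) * θ ≤ 1 / 2 := by nlinarith
  have hθ2 : (m = 0) ∨ θ ≤ 1 / 2 := by
    rcases Nat.eq_zero_or_pos m with h0 | h0
    · exact Or.inl h0
    · right
      have : (1 : ℚ) ≤ m := by exact_mod_cast h0
      nlinarith
  rcases hθ2 with rfl | hθ2
  · simp
  · have h2 : 1 - m * θ ≤ (1 - θ) ^ m := by
      have := one_add_mul_le_pow (a := -θ) (by linarith) m
      have e : (1 : ℚ) + m * (-θ) = 1 - m * θ := by ring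
      rwa [e, ← sub_eq_add_neg] at this
    have h3 : (1 + θ) ^ m * (1 - θ) ^ m ≤ 1 := by
      rw [← mul_pow]
      exact pow_le_one₀ (by nlinarith) (by nlinarith)
    have h4 : 0 < (1 + θ) ^ m := by positivity
    have h5 : (1 + θ) ^ m ≤ 1 + 2 * (m * θ) := by
      have h6 : (1 + θ) ^ m * (1 - m * θ) ≤ 1 := (mul_le_mul_of_nonneg_left h2 h4.le).trans h3
      nlinarith
    nlinarith

end Pool.Agent.Helper47.TR
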