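import Pool.Agent.Helper47.TR.RC

set_option autoImplicit false

/-!
# Path gadgets

Every edge of a list `J` is replaced by a path with `l` new inner vertices.
-/

namespace Pool.Agent.Helper47.TR

/-- effective weights of a path of `l + 1` edges of weight `(α, β)` -/
def eff (κ α β : ℚ) : ℕ → ℚ × ℚ
  | 0 => (α, β)
  | l + 1 =>
    (κ * (β * (eff κ α β l).1 + α * (eff κ α β l).2) + (1 - 2 * κ) * (α * (eff κ α β l).1),
      κ * (β * (eff κ α β l).2) + (1 - κ) * (α * (eff κ α β l).1))

/-- path from `u` to `v` with `l` inner vertices `z, z + 1, …, z + l - 1` -/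
def path : ℕ → ℕ → ℕ → ℕ → List (ℕ × ℕ)
  | 0, u, _, v => [(u, v)]
  | l + 1, u, z, v => (u, z) :: path l z (z + 1) v

/-- weighted edges -/
def wE (α β : ℚ) (E : List (ℕ × ℕ)) : List WE := E.map (fun e => (e.1, e.2, α, β))

@[simp] theorem wE_nil (α β : ℚ) : wE α β [] = [] := rfl

@[simp] theorem wE_cons (α β : ℚ) (e : ℕ × ℕ) (E : List (ℕ × ℕ)) :
    wE α β (e :: E) = (e.1, e.2, α, β) :: wE α β E := rfl

@[simp] theorem wE_append (α β : ℚ) (E E' : List (ℕ × ℕ)) :
    wE α β (E ++ E') = wE α β E ++ wE α β E' := by simp [wE]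

theorem Lab.append {S : Set ℕ} {W W' : List WE} (h : Lab S W) (h' : Lab S W') :
    Lab S (W ++ W') := by
  intro e he
  rcases List.mem_append.mp he with he | he
  · exact h e he
  · exact h' e he

theorem Lab.of_cons {S : Set ℕ} {e : WE} {W : List WE} (h1 : e.1 ∈ S) (h2 : e.2.1 ∈ S)
    (h : Lab S W) : Lab S (e :: W) := by
  intro e' he'
  rcases List.mem_cons.mp he' with rfl | he'
  · exact ⟨h1, h2⟩
  · exact h e' he'

theorem Lab.mono {S T : Set ℕ} {W : List WE} (h : Lab S W) (hST : S ⊆ T) : Lab T W :=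
  fun e he => ⟨hST (h e he).1, hST (h e he).2⟩

theorem lab_wE {S : Set ℕ} {α β : ℚ} {E : List (ℕ × ℕ)} :
    Lab S (wE α β E) ↔ ∀ e ∈ E, e.1 ∈ S ∧ e.2 ∈ S := by
  unfold Lab wE
  rw [List.forall_mem_map]

theorem R_path (κ α β : ℚ) (l u z v : ℕ) (W : List WE) (hu : u < z ∨ z + l ≤ u)
    (hv : v < z ∨ z + l ≤ v) (hW : Lab {i | i < z ∨ z + l ≤ i} W) :
    R κ (wE α β (path l u z v) ++ W) id
      = R κ ((u, v, (eff κ α β l).1, (eff κ α β l).2) :: W) id := by
  induction l generalizing u z W with
  | zero => rfl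
  | succ l ih =>
    have h1 : (wE α β (path (l + 1) u z v) ++ W).Perm
        (wE α β (path l z (z + 1) v) ++ ((u, z, α, β) :: W)) := by
      rw [path, wE_cons, List.cons_append]
      exact (List.perm_middle).symm
    rw [R_perm κ h1, ih z (z + 1) _ (Or.inl (by omega)) (by omega), R_swap]
    · rw [R_series κ (S := {i | i < z ∨ z + (l + 1) ≤ i}) hW]
      · rfl
      · intro i hi
        simp only [Set.mem_ofPred_eq] at hi
        show i ≠ z
        omega
      · show u ≠ z
        omega
      · show v ≠ z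
        omega
    · refine Lab.of_cons ?_ ?_ (hW.mono ?_)
      · show u < z + 1 ∨ z + 1 + l ≤ u
        omega
      · show z < z + 1 ∨ z + 1 + l ≤ z
        omega
      · intro i hi
        simp only [Set.mem_ofPred_eq] at hi ⊢
        omega

theorem path_lab (l u z v : ℕ) (e : ℕ × ℕ) (he : e ∈ path l u z v) :
    (e.1 = u ∨ (z ≤ e.1 ∧ e.1 < z + l)) ∧ (e.2 = v ∨ (z ≤ e.2 ∧ e.2 < z + l)) := by
  induction l generalizing u z with
  | zero =>
    simp only [path, List.mem_singleton] at he
    subst he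
    simp
  | succ l ih =>
    rw [path, List.mem_cons] at he
    rcases he with rfl | he
    · simp
    · have := ih z (z + 1) he
      omega

theorem path_length (l u z v : ℕ) : (path l u z v).length = l + 1 := by
  induction l generalizing u z with
  | zero => rfl
  | succ l ih => rw [path, List.length_cons, ih]

/-- the list `J` with every edge replaced by a path with `l` inner vertices -/
def gad (l : ℕ) : ℕ → List (ℕ × ℕ) → List (ℕ × ℕ)
  | _, [] => []
  | z, e :: J => path l e.1 z e.2 ++ gad l (z + l) J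

theorem gad_lab {n : ℕ} (l z : ℕ) (J : List (ℕ × ℕ)) (hJ : ∀ e ∈ J, e.1 < n ∧ e.2 < n)
    (e : ℕ × ℕ) (he : e ∈ gad l z J) :
    (e.1 < n ∨ (z ≤ e.1 ∧ e.1 < z + l * J.length)) ∧
      (e.2 < n ∨ (z ≤ e.2 ∧ e.2 < z + l * J.length)) := by
  induction J generalizing z with
  | nil => simp [gad] at he
  | cons e0 J ih =>
    rw [gad, List.mem_append] at he
    have h0 := hJ e0 (by simp)
    have h1 : l * (e0 :: J).length = l + l * J.length := by rw [List.length_cons]; ring
    rw [h1]
    rcases he with he | he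
    · have := path_lab _ _ _ _ _ he
      omega
    · have := ih (z + l) (fun e he => hJ e (by simp [he])) he
      omega

theorem R_gad (κ α β : ℚ) {n : ℕ} (l z : ℕ) (hz : n ≤ z) (J : List (ℕ × ℕ))
    (hJ : ∀ e ∈ J, e.1 < n ∧ e.2 < n) (X : List WE) (hX : Lab {i | i < n} X) :
    R κ (wE α β (gad l z J) ++ X) id
      = R κ (wE (eff κ α β l).1 (eff κ α β l).2 J ++ X) id := by
  induction J generalizing z X with
  | nil => rfl
  | cons e0 J ih =>
    have h0 := hJ e0 (by simp)
    have hJ' : ∀ e ∈ J, e.1 < n ∧ e.2 < n := fun e he => hJ e (by simp [he])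
    rw [gad, wE_append, List.append_assoc, R_path κ α β l e0.1 z e0.2]
    · have h1 : ((e0.1, e0.2, (eff κ α β l).1, (eff κ α β l).2) ::
          (wE α β (gad l (z + l) J) ++ X)).Perm (wE α β (gad l (z + l) J) ++
            ((e0.1, e0.2, (eff κ α β l).1, (eff κ α β l).2) :: X)) := List.perm_middle.symm
      have hc : Lab {i | i < n} ((e0.1, e0.2, (eff κ α β l).1, (eff κ α β l).2) :: X) :=
        Lab.of_cons h0.1 h0.2 hX
      rw [R_perm κ h1, ih (z + l) (by omega) hJ' _ hc, wE_cons, List.cons_append]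
      exact R_perm κ List.perm_middle id
    · omega
    · omega
    · refine Lab.append ?_ (hX.mono ?_)
      · rw [lab_wE]
        intro e he
        have := gad_lab l (z + l) J hJ' e he
        simp only [Set.mem_ofPred_eq]
        omega
      · intro i hi
        simp only [Set.mem_ofPred_eq] at hi ⊢
        omega

end Pool.Agent.Helper47.TR
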