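import Pool.Agent.Helper47.TR.Potts
import Pool.Agent.Helper47.TR.Cond

set_option autoImplicit false

/-!
# The main inequality
-/

namespace Pool.Agent.Helper47.TR

section Lists

variable {L : Type*} [DecidableEq L] (κ : ℚ)

theorem R_one {a b : ℕ} {W : List WE} {f : ℕ → L} : R κ ((a, b, 1, 1) :: W) f = R κ W f := by
  rw [R_cons]; split_ifs <;> ring

theorem R_rep (α β : ℚ) (t : ℕ) (e : ℕ × ℕ) (X : List WE) (f : ℕ → L) :
    R κ (wE α β (List.replicate t e) ++ X) f = R κ ((e.1, e.2, α ^ t, β ^ t) :: X) f := by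
  induction t generalizing X with
  | zero => simp [R_one]
  | succ t ih =>
    have h1 : (wE α β (List.replicate (t + 1) e) ++ X).Perm
        (wE α β (List.replicate t e) ++ ((e.1, e.2, α, β) :: X)) := by
      rw [List.replicate_succ, wE_cons, List.cons_append]
      exact List.perm_middle.symm
    rw [R_perm κ h1, ih, R_par κ (Or.inl ⟨rfl, rfl⟩), pow_succ, pow_succ]

theorem R_flat (α β : ℚ) (t : ℕ) (E : List (ℕ × ℕ)) (X : List WE) (f : ℕ → L) :
    R κ (wE α β (E.flatMap (fun e => List.replicate t e)) ++ X) f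
      = R κ (wE (α ^ t) (β ^ t) E ++ X) f := by
  induction E generalizing X with
  | nil => rfl
  | cons e E ih =>
    rw [List.flatMap_cons, wE_append, List.append_assoc, R_rep]
    have h1 : ((e.1, e.2, α ^ t, β ^ t) ::
        (wE α β (E.flatMap (fun e => List.replicate t e)) ++ X)).Perm
        (wE α β (E.flatMap (fun e => List.replicate t e)) ++
          ((e.1, e.2, α ^ t, β ^ t) :: X)) := List.perm_middle.symm
    rw [R_perm κ h1, ih, wE_cons, List.cons_append]
    exact R_perm κ List.perm_middle f

theorem R_parE (α β α' β' : ℚ) (E : List (ℕ × ℕ)) (X : List WE) (f : ℕ → L) :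
    R κ (wE α β E ++ (wE α' β' E ++ X)) f = R κ (wE (α * α') (β * β') E ++ X) f := by
  induction E generalizing X with
  | nil => rfl
  | cons e E ih =>
    simp only [wE_cons, List.cons_append]
    have h1 : ((e.1, e.2, α, β) :: (wE α β E ++ (e.1, e.2, α', β') :: (wE α' β' E ++ X))).Perm
        ((e.1, e.2, α, β) :: (e.1, e.2, α', β') :: (wE α β E ++ (wE α' β' E ++ X))) :=
      List.Perm.cons _ List.perm_middle
    have h2 : ((e.1, e.2, α * α', β * β') :: (wE α β E ++ (wE α' β' E ++ X))).Perm
        (wE α β E ++ (wE α' β' E ++ ((e.1, e.2, α * α', β * β') :: X))) := by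
      refine List.perm_middle.symm.trans (List.Perm.append_left _ List.perm_middle.symm)
    rw [R_perm κ h1, R_par κ (Or.inl ⟨rfl, rfl⟩), R_perm κ h2, ih]
    exact R_perm κ List.perm_middle f

theorem R_scaleE (c α β : ℚ) (E : List (ℕ × ℕ)) (X : List WE) (f : ℕ → L) :
    R κ (wE (c * α) (c * β) E ++ X) f = c ^ E.length * R κ (wE α β E ++ X) f := by
  induction E generalizing X with
  | nil => simp
  | cons e E ih =>
    simp only [wE_cons, List.cons_append]
    rw [R_scale κ c]
    have h1 : ∀ a b : ℚ, R κ ((e.1, e.2, α, β) :: (wE a b E ++ X)) f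
        = R κ (wE a b E ++ ((e.1, e.2, α, β) :: X)) f :=
      fun a b => R_perm κ List.perm_middle.symm f
    rw [h1, ih, h1, List.length_cons, pow_succ]
    ring

theorem R_loops (α β : ℚ) (E : List (ℕ × ℕ)) (X : List WE) (f : ℕ → L)
    (hE : ∀ e ∈ E, f e.1 = f e.2) :
    R κ (wE α β E ++ X) f = β ^ E.length * R κ X f := by
  induction E with
  | nil => simp
  | cons e E ih =>
    rw [wE_cons, List.cons_append, R_loop κ (hE e (by simp)), ih (fun e he => hE e (by simp [he])),
      List.length_cons, pow_succ]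
    ring

end Lists

/-- edges that are not loops -/
def nonloops (G : MG) : List (ℕ × ℕ) := G.2.filter (fun e => !(e.1 == e.2))

/-- number of loops -/
def nloops (G : MG) : ℕ := (G.2.filter (fun e => e.1 == e.2)).length

theorem R_nonloops (G : MG) (κ α β : ℚ) :
    R κ (wE α β G.2) id = β ^ nloops G * R κ (wE α β (nonloops G)) id := by
  have h1 : (wE α β (G.2.filter (fun e => e.1 == e.2)) ++ wE α β (nonloops G)).Perm
      (wE α β G.2) := by
    rw [← wE_append]
    exact (List.filter_append_perm (fun e : ℕ × ℕ => e.1 == e.2) G.2).map _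
  rw [← R_perm κ h1, R_loops κ α β _ _ id]
  · rfl
  · intro e he
    have := List.of_mem_filter he
    simpa using this

theorem nonloops_valid {G : MG} (hG : Valid G) :
    ∀ e ∈ nonloops G, e.1 < G.1.length ∧ e.2 < G.1.length :=
  fun e he => hG e (List.mem_of_mem_filter he)

theorem comps_R {G : MG} (hG : Valid G) :
    (2 : ℚ) ^ comps G Finset.univ = 2 ^ G.1.length * R (1 / 2) (wE 0 1 G.2) id := by
  classical
  rcases Nat.eq_zero_or_pos G.1.length with h0 | h0
  · have h1 : G.2 = [] := by
      rcases h : G.2 with _ | ⟨e, l⟩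
      · rfl
      · have := hG e (by rw [h]; simp)
        omega
    have h2 := comps_le G Finset.univ
    rw [h0, Nat.le_zero.mp (h2.trans h0.le), h1]
    simp
  · have : NeZero G.1.length := ⟨h0.ne'⟩
    have hf : ∀ i : Fin G.1.length, Fin.ofNat G.1.length i = i := fun i => by
      ext
      simp [Fin.ofNat, Nat.mod_eq_of_lt i.2]
    have hR : R (1 / 2) (wE 0 1 G.2) id = R (1 / 2) (wE 0 1 G.2) (Fin.ofNat G.1.length) := by
      refine R_ker _ (S := {i | i < G.1.length}) _ _ _ (lab_wE.mpr hG) ?_
      intro i hi j hj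
      have hi' := Nat.mod_eq_of_lt (show i < G.1.length from hi)
      have hj' := Nat.mod_eq_of_lt (show j < G.1.length from hj)
      simp only [id, Fin.ofNat, Fin.mk.injEq, hi', hj']
    have h1 := potts (C := Fin 2) (wE 0 1 G.2) (Fin.ofNat G.1.length)
    rw [Fintype.card_fin, Fintype.card_fin] at h1
    push_cast at h1
    rw [hR, ← h1]
    have h2 : ∀ σ : Fin G.1.length → Fin 2,
        ((wE 0 1 G.2).map (ew σ (Fin.ofNat G.1.length))).prod
        = if (∀ u v, adj G Finset.univ u v → σ u = σ v) then 1 else 0 := by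
      intro σ
      rw [wE, List.map_map, ← Fin.prod_univ_fun_getElem]
      have h3 := compat_iff G hG Finset.univ σ (Fin.ofNat G.1.length) hf
      simp only [Function.comp, ew]
      rw [Finset.prod_boole]
      congr 1
      rw [h3]
      rfl
    simp only [h2]
    have h4 := card_compat G Finset.univ 2
    rw [Finset.sum_boole]
    have h5 : ((Finset.univ.filter (fun σ : Fin G.1.length → Fin 2 =>
      ∀ u v, adj G Finset.univ u v → σ u = σ v)).card : ℚ) = 2 ^ comps G Finset.univ := by
      exact_mod_cast h4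
    rw [← h5]

end Pool.Agent.Helper47.TR
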