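import Pool.Agent.Helper47.TR.Ineq

set_option autoImplicit false

/-!
# The gadget graph and the main inequality
-/

namespace Pool.Agent.Helper47.TR

/-- `t` copies of each non-loop edge -/
def jobs (t : ℕ) (G : MG) : List (ℕ × ℕ) := (nonloops G).flatMap (fun e => List.replicate t e)

/-- the gadget graph: each non-loop edge is replaced by `t` paths with `l` inner vertices each,
and, if `s` holds, the edge itself is kept as well -/
def gadG (l t : ℕ) (s : Bool) (G : MG) : MG :=
  (G.1 ++ List.replicate (l * (jobs t G).length) true,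
    gad l G.1.length (jobs t G) ++ (if s then nonloops G else []))

theorem jobs_length (t : ℕ) (G : MG) : (jobs t G).length = t * (nonloops G).length := by
  simp [jobs, List.length_flatMap, mul_comm]

theorem jobs_valid {G : MG} (hG : Valid G) (t : ℕ) :
    ∀ e ∈ jobs t G, e.1 < G.1.length ∧ e.2 < G.1.length := by
  intro e he
  simp only [jobs, List.mem_flatMap] at he
  obtain ⟨e', he', h⟩ := he
  rw [List.eq_of_mem_replicate h]
  exact nonloops_valid hG e' he'

theorem gadG_valid {G : MG} (hG : Valid G) (l t : ℕ) (s : Bool) : Valid (gadG l t s G) := by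
  intro e he
  have h1 : (gadG l t s G).1.length = G.1.length + l * (jobs t G).length := by simp [gadG]
  rw [h1]
  rcases List.mem_append.mp he with he | he
  · have := gad_lab l G.1.length (jobs t G) (jobs_valid hG t) e he
    omega
  · have := nonloops_valid hG e (by
      revert he
      cases s <;> simp)
    omega

theorem lab_nonloops {G : MG} (hG : Valid G) (α β : ℚ) (s : Bool) :
    Lab {i | i < G.1.length} (wE α β (if s then nonloops G else [])) := by
  rw [lab_wE]
  intro e he
  exact nonloops_valid hG e (by revert he; cases s <;> simp)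

/-- reduction of the gadget graph to a multigraph on the old vertices -/
theorem R_gadG {G : MG} (hG : Valid G) (l t : ℕ) (s : Bool) (κ α β : ℚ) :
    R κ (wE α β (gadG l t s G).2) id
      = R κ (wE ((eff κ α β l).1 ^ t * (if s then α else 1))
          ((eff κ α β l).2 ^ t * (if s then β else 1)) (nonloops G)) id := by
  show R κ (wE α β (gad l G.1.length (jobs t G) ++ (if s then nonloops G else []))) id = _
  rw [wE_append, R_gad κ α β (n := G.1.length) l G.1.length le_rfl (jobs t G) (jobs_valid hG t) _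
    (lab_nonloops hG α β s), jobs, R_flat]
  cases s
  · simp
  · have := R_parE κ ((eff κ α β l).1 ^ t) ((eff κ α β l).2 ^ t) α β (nonloops G) [] id
    simpa using this

theorem eff_01 (l : ℕ) : eff (1 / 2) 0 1 l = (0, (1 / 2) ^ l) := by
  induction l with
  | zero => simp [eff]
  | succ l ih =>
    rw [eff, ih]
    ext <;> simp [pow_succ, mul_comm]

theorem comps_gadG {G : MG} (hG : Valid G) (l t : ℕ) (ht : 0 < t) (s : Bool) :
    comps (gadG l t s G) Finset.univ = comps G Finset.univ := by
  have h1 := comps_R (gadG_valid hG l t s)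
  have h2 := comps_R hG
  rw [R_gadG hG, eff_01, zero_pow ht.ne', zero_mul, ← pow_mul] at h1
  have h3 : R (1 / 2) (wE 0 ((1 / 2) ^ (l * t) * (if s then 1 else 1)) (nonloops G)) id
      = ((1 / 2) ^ (l * t)) ^ (nonloops G).length * R (1 / 2) (wE 0 1 (nonloops G)) id := by
    have := R_scaleE (1 / 2) ((1 / 2) ^ (l * t)) 0 1 (nonloops G) [] id
    simp only [List.append_nil, mul_zero, mul_one] at this
    rw [← this]
    cases s <;> simp
  rw [R_nonloops, one_pow, one_mul] at h2
  rw [h3] at h1
  have h4 : (gadG l t s G).1.length = G.1.length + (l * t) * (nonloops G).length := by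
    simp [gadG, jobs_length, mul_assoc]
  have h5 : (2 : ℚ) ^ comps (gadG l t s G) Finset.univ = 2 ^ comps G Finset.univ := by
    rw [h1, h2, h4, pow_add, pow_mul 2 (l * t)]
    have : ((2 : ℚ) ^ (l * t)) ^ (nonloops G).length * ((1 / 2) ^ (l * t)) ^ (nonloops G).length
        = 1 := by
      rw [← mul_pow, ← mul_pow]; norm_num
    linear_combination (2 : ℚ) ^ G.1.length * R (1 / 2) (wE 0 1 (nonloops G)) id * this
  have h6 : (2 : ℕ) ^ comps (gadG l t s G) Finset.univ = 2 ^ comps G Finset.univ := by
    exact_mod_cast h5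
  exact Nat.pow_right_injective (le_refl 2) h6

/-- `1 + x + ⋯ + x^l` -/
def geo (x : ℚ) : ℕ → ℚ
  | 0 => 1
  | l + 1 => x * geo x l + 1

theorem geo_pos {x : ℚ} (hx : 0 ≤ x) (l : ℕ) : 1 ≤ geo x l := by
  induction l with
  | zero => simp [geo]
  | succ l ih => rw [geo]; nlinarith

theorem eff_xy {x y : ℚ} (hx : x ≠ 1) (hy : y ≠ 1) (l : ℕ) :
    (x - 1) ^ l * (eff (1 / ((x - 1) * (y - 1))) 1 y l).1 = geo x l ∧
    (x - 1) ^ l * (eff (1 / ((x - 1) * (y - 1))) 1 y l).2 = geo x l - (1 - y) := by
  have hX : x - 1 ≠ 0 := sub_ne_zero.mpr hx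
  have hY : y - 1 ≠ 0 := sub_ne_zero.mpr hy
  set κ := 1 / ((x - 1) * (y - 1)) with hκ
  have hk : κ * (x - 1) * (y - 1) = 1 := by rw [hκ]; field_simp
  induction l with
  | zero => simp [eff, geo]
  | succ l ih =>
    obtain ⟨h1, h2⟩ := ih
    rw [eff, geo]
    simp only
    set A := (eff κ 1 y l).1
    set B := (eff κ 1 y l).2
    constructor
    · rw [pow_succ]
      linear_combination (κ * (x - 1) * y + (1 - 2 * κ) * (x - 1)) * h1 + κ * (x - 1) * h2 +
        (geo x l + 1) * hk
    · rw [pow_succ]
      linear_combination ((1 - κ) * (x - 1)) * h1 + κ * (x - 1) * y * h2 +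
        (geo x l + y) * hk

/-- the effective weight of the gadget -/
def yeff (x y : ℚ) (l t : ℕ) (s : Bool) : ℚ := (1 - (1 - y) / geo x l) ^ t * (if s then y else 1)

theorem tutte_gadG {G : MG} (hG : Valid G) {x y : ℚ} (hx : 1 < x) (hy : y < 1) (l t : ℕ)
    (ht : 0 < t) (s : Bool) :
    tutte x y (gadG l t s G) = (x - 1) ^ (G.1.length - comps G Finset.univ) *
      geo x l ^ (t * (nonloops G).length) *
      R (1 / ((x - 1) * (y - 1))) (wE 1 (yeff x y l t s) (nonloops G)) id := by
  have hx' : x ≠ 1 := hx.ne'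
  have hX : x - 1 ≠ 0 := sub_ne_zero.mpr hx'
  rw [tutte_eq_R _ (gadG_valid hG l t s) hx' hy.ne, comps_gadG hG l t ht s, R_gadG hG]
  obtain ⟨h1, h2⟩ := eff_xy hx' hy.ne l
  set κ := 1 / ((x - 1) * (y - 1)) with hκ
  set A := (eff κ 1 y l).1
  set B := (eff κ 1 y l).2
  have hg : geo x l ≠ 0 := by have := geo_pos (by linarith : 0 ≤ x) l; linarith
  have hA : A ≠ 0 := by
    intro h
    rw [h, mul_zero] at h1
    exact hg h1.symm
  have hB : B = A * (1 - (1 - y) / geo x l) := by
    have h3 : (x - 1) ^ l * B = (x - 1) ^ l * (A * (1 - (1 - y) / geo x l)) := by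
      rw [h2, ← mul_assoc, h1]; field_simp
    exact mul_left_cancel₀ (pow_ne_zero _ hX) h3
  have h4 : R κ (wE (A ^ t * (if s then 1 else 1)) (B ^ t * (if s then y else 1)) (nonloops G)) id
      = (A ^ t) ^ (nonloops G).length * R κ (wE 1 (yeff x y l t s) (nonloops G)) id := by
    have := R_scaleE κ (A ^ t) 1 (yeff x y l t s) (nonloops G) [] id
    simp only [List.append_nil, mul_one] at this
    rw [← this, yeff, hB, mul_pow]
    cases s <;> simp [mul_assoc]
  rw [h4]
  have h5 : (gadG l t s G).1.length = G.1.length + l * (t * (nonloops G).length) := by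
    simp [gadG, jobs_length]
  obtain ⟨d, hd⟩ := Nat.exists_eq_add_of_le (comps_le G Finset.univ)
  rw [h5, show G.1.length + l * (t * (nonloops G).length) - comps G Finset.univ
    = d + l * (t * (nonloops G).length) by omega,
    show G.1.length - comps G Finset.univ = d by omega, pow_add, pow_mul (x - 1) l, ← h1,
    mul_pow, pow_mul A]
  ring

theorem good_wE {w : ℚ} (hw : |w| ≤ 1) (E : List (ℕ × ℕ)) : Good (wE 1 w E) := by
  intro e he
  simp only [wE, List.mem_map] at he
  obtain ⟨x, -, rfl⟩ := he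
  exact ⟨rfl, hw⟩

theorem nonloops_ne (G : MG) : ∀ e ∈ nonloops G, (id e.1 : ℕ) ≠ id e.2 := by
  intro e he
  have := List.of_mem_filter he
  simpa using this

/-- the constant of the reduction -/
noncomputable def cst (G : MG) (x y y' : ℚ) (l t : ℕ) : ℚ :=
  ((1 - y) / (1 - y')) ^ (G.1.length - comps G Finset.univ) * y' ^ nloops G /
    geo x l ^ (t * (nonloops G).length)

theorem main_gt {G : MG} (hG : Valid G) {x y x' y' : ℚ} (hx : 1 < x) (hy : |y| < 1)
    (hy' : |y'| < 1) (hxx : (x' - 1) * (1 - y') = (x - 1) * (1 - y)) (l t : ℕ) (ht : 0 < t)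
    (s : Bool) (hr : |yeff x y l t s| ≤ 1) :
    |tutte x' y' G - cst G x y y' l t * tutte x y (gadG l t s G)|
      ≤ ((1 + |yeff x y l t s - y'| / (1 - |y'|)) ^ (nonloops G).length - 1) *
        |tutte x' y' G| := by
  have hy1 : y < 1 := (le_abs_self _).trans_lt hy
  have hy1' : y' < 1 := (le_abs_self _).trans_lt hy'
  have hx'1 : 1 < x' := by
    by_contra h
    have h1 : (x' - 1) * (1 - y') ≤ 0 :=
      mul_nonpos_of_nonpos_of_nonneg (by linarith) (by linarith)
    have h2 : 0 < (x - 1) * (1 - y) := mul_pos (by linarith) (by linarith)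
    linarith
  have hg : geo x l ≠ 0 := by have := geo_pos (by linarith : 0 ≤ x) l; linarith
  have hκ : (x - 1) * (y - 1) < 0 := mul_neg_of_pos_of_neg (by linarith) (by linarith)
  have hκ' : (x' - 1) * (y' - 1) = (x - 1) * (y - 1) := by linear_combination -hxx
  have hκ0 : 1 / ((x - 1) * (y - 1)) ≤ 0 := (one_div_neg.mpr hκ).le
  rw [tutte_gadG hG hx hy1 l t ht s, tutte_eq_R G hG hx'1.ne' hy1'.ne, hκ', R_nonloops]
  have h1 := cond_all hκ0 hy' hr (nonloops G) id (nonloops_ne G) [] (fun _ h => by simp at h)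
    (fun _ h => by simp at h)
  simp only [List.append_nil] at h1
  set κ := 1 / ((x - 1) * (y - 1))
  set R1 := R κ (wE 1 y' (nonloops G)) id
  set R2 := R κ (wE 1 (yeff x y l t s) (nonloops G)) id
  have hR1 : 0 < R1 := by
    refine R_pos hκ0 (good_wE hy'.le _) ?_
    intro e he
    simp only [wE, List.mem_map] at he
    obtain ⟨z, hz, rfl⟩ := he
    exact nonloops_ne G z hz
  have h2 : (x - 1) * ((1 - y) / (1 - y')) = x' - 1 := by
    rw [mul_div_assoc', div_eq_iff (by linarith), hxx]
  have h3 : cst G x y y' l t * ((x - 1) ^ (G.1.length - comps G Finset.univ) *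
      geo x l ^ (t * (nonloops G).length) * R2)
      = (x' - 1) ^ (G.1.length - comps G Finset.univ) * y' ^ nloops G * R2 := by
    rw [cst, ← h2, mul_pow]
    field_simp
  rw [h3]
  have h4 : (x' - 1) ^ (G.1.length - comps G Finset.univ) * (y' ^ nloops G * R1)
      - (x' - 1) ^ (G.1.length - comps G Finset.univ) * y' ^ nloops G * R2
      = ((x' - 1) ^ (G.1.length - comps G Finset.univ) * y' ^ nloops G) * (R1 - R2) := by ring
  have h5 : (x' - 1) ^ (G.1.length - comps G Finset.univ) * (y' ^ nloops G * R1)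
      = ((x' - 1) ^ (G.1.length - comps G Finset.univ) * y' ^ nloops G) * R1 := by ring
  rw [h4, h5, abs_mul, abs_mul _ R1, abs_of_pos hR1, abs_sub_comm]
  have h6 := mul_le_mul_of_nonneg_left h1
    (abs_nonneg ((x' - 1) ^ (G.1.length - comps G Finset.univ) * y' ^ nloops G))
  linarith

end Pool.Agent.Helper47.TR
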