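import Mathlib

set_option autoImplicit false

/-!
# Deletion–contraction calculus for weighted multigraphs

An edge `(a, b, α, β)` has weight `β` on colourings that agree on `a, b` and `α` on the others.
`R κ W f` is the normalised partition function of the edge list `W` when the label `i` stands for
the vertex `f i` (`κ` is `1/q`).
-/

namespace Pool.Agent.Helper47.TR

/-- weighted edges -/
abbrev WE := ℕ × ℕ × ℚ × ℚ

/-- contraction of `q` into `p` -/
def mg {L : Type*} [DecidableEq L] (p q : L) (i : L) : L := if i = q then p else i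

/-- normalised partition function -/
def R {L : Type*} [DecidableEq L] (κ : ℚ) : List WE → (ℕ → L) → ℚ
  | [], _ => 1
  | (a, b, α, β) :: W, f =>
    if f a = f b then β * R κ W f
    else α * R κ W f + κ * (β - α) * R κ W (fun i => mg (f a) (f b) (f i))

section

variable {L L' : Type*} [DecidableEq L] [DecidableEq L'] (κ : ℚ)

@[simp] theorem R_nil (f : ℕ → L) : R κ [] f = 1 := rfl

theorem R_cons (a b : ℕ) (α β : ℚ) (W : List WE) (f : ℕ → L) :
    R κ ((a, b, α, β) :: W) f = if f a = f b then β * R κ W f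
      else α * R κ W f + κ * (β - α) * R κ W (fun i => mg (f a) (f b) (f i)) := rfl

theorem R_loop {a b : ℕ} {α β : ℚ} {W : List WE} {f : ℕ → L} (h : f a = f b) :
    R κ ((a, b, α, β) :: W) f = β * R κ W f := by rw [R_cons, if_pos h]

theorem R_non {a b : ℕ} {α β : ℚ} {W : List WE} {f : ℕ → L} (h : f a ≠ f b) :
    R κ ((a, b, α, β) :: W) f
      = α * R κ W f + κ * (β - α) * R κ W (fun i => mg (f a) (f b) (f i)) := by
  rw [R_cons, if_neg h]

/-- the labels of a list lie in `S` -/
def Lab (S : Set ℕ) (W : List WE) : Prop := ∀ e ∈ W, e.1 ∈ S ∧ e.2.1 ∈ S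

theorem Lab.cons {S : Set ℕ} {e : WE} {W : List WE} (h : Lab S (e :: W)) :
    (e.1 ∈ S ∧ e.2.1 ∈ S) ∧ Lab S W :=
  ⟨h e (by simp), fun e' he' => h e' (by simp [he'])⟩

/-- same kernel on `S` -/
def Ker (S : Set ℕ) (f : ℕ → L) (g : ℕ → L') : Prop := ∀ i ∈ S, ∀ j ∈ S, (f i = f j ↔ g i = g j)

theorem Ker.mg {S : Set ℕ} {f : ℕ → L} {g : ℕ → L'} (h : Ker S f g) {a b : ℕ} (ha : a ∈ S)
    (hb : b ∈ S) : Ker S (fun i => mg (f a) (f b) (f i)) (fun i => mg (g a) (g b) (g i)) := by
  intro i hi j hj
  simp only [TR.mg]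
  have h1 := h i hi b hb
  have h2 := h j hj b hb
  have h3 := h a ha i hi
  have h4 := h a ha j hj
  have h5 := h i hi j hj
  have h6 := h i hi a ha
  have h7 := h j hj a ha
  split_ifs <;> simp_all

theorem R_ker {S : Set ℕ} (W : List WE) (f : ℕ → L) (g : ℕ → L') (hW : Lab S W)
    (h : Ker S f g) : R κ W f = R κ W g := by
  induction W generalizing f g with
  | nil => rfl
  | cons e W ih =>
    obtain ⟨a, b, α, β⟩ := e
    obtain ⟨⟨ha, hb⟩, hW'⟩ := hW.cons
    simp only at ha hb
    rw [R_cons, R_cons, ih f g hW' h,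
      ih _ _ hW' (h.mg ha hb)]
    simp only [h a ha b hb]

theorem lab_univ (W : List WE) : Lab Set.univ W := fun _ _ => ⟨trivial, trivial⟩

theorem mg_eq_iff (p q u v : L) :
    mg p q u = mg p q v ↔ u = v ∨ (u = p ∧ v = q) ∨ (u = q ∧ v = p) := by
  unfold mg
  grind

theorem mg_par {p q r s : L} (h1 : mg p q r = mg p q s) (h : r ≠ s) : mg r s p = mg r s q := by
  unfold mg at *
  grind

theorem mg_par_ker {p q r s : L} (h1 : mg p q r = mg p q s) (h : r ≠ s) (u v : L) :
    mg p q u = mg p q v ↔ mg r s u = mg r s v := by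
  unfold mg at *
  grind

theorem mg_mg_aux {p q r s u v : L}
    (h : mg (mg p q r) (mg p q s) (mg p q u) = mg (mg p q r) (mg p q s) (mg p q v)) :
    mg (mg r s p) (mg r s q) (mg r s u) = mg (mg r s p) (mg r s q) (mg r s v) := by
  unfold mg at *
  grind

/-- exchange of two neighbouring edges -/
theorem R_swap (e e' : WE) (W : List WE) (f : ℕ → L) :
    R κ (e :: e' :: W) f = R κ (e' :: e :: W) f := by
  obtain ⟨a, b, α, β⟩ := e
  obtain ⟨c, d, α', β'⟩ := e'
  by_cases h : f a = f b
  · rw [R_loop κ h]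
    by_cases h' : f c = f d
    · rw [R_loop κ h', R_loop κ h', R_loop κ h]; ring
    · rw [R_non κ h', R_non κ h', R_loop κ h, R_loop κ (by simp only [h])]; ring
  · rw [R_non κ h]
    by_cases h' : f c = f d
    · rw [R_loop κ h', R_loop κ (f := fun i => mg (f a) (f b) (f i)) (by simp only [h']),
        R_loop κ h', R_non κ h]
      ring
    · rw [R_non κ h', R_non κ h', R_non κ h]
      by_cases h1 : mg (f a) (f b) (f c) = mg (f a) (f b) (f d)
      · -- parallel edges
        have h2 : mg (f c) (f d) (f a) = mg (f c) (f d) (f b) := mg_par h1 h'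
        rw [R_loop κ (f := fun i => mg (f a) (f b) (f i)) h1,
          R_loop κ (f := fun i => mg (f c) (f d) (f i)) h2]
        have h3 : R κ W (fun i => mg (f a) (f b) (f i)) = R κ W (fun i => mg (f c) (f d) (f i)) :=
          R_ker κ (S := Set.univ) W _ _ (lab_univ W) (fun i _ j _ => mg_par_ker h1 h' _ _)
        rw [h3]; ring
      · have h2 : mg (f c) (f d) (f a) ≠ mg (f c) (f d) (f b) := fun h2 => h1 (mg_par h2 h)
        rw [R_non κ (f := fun i => mg (f a) (f b) (f i)) h1,
          R_non κ (f := fun i => mg (f c) (f d) (f i)) h2]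
        have h3 : R κ W (fun i => mg (mg (f a) (f b) (f c)) (mg (f a) (f b) (f d))
              (mg (f a) (f b) (f i)))
            = R κ W (fun i => mg (mg (f c) (f d) (f a)) (mg (f c) (f d) (f b))
              (mg (f c) (f d) (f i))) :=
          R_ker κ (S := Set.univ) W _ _ (lab_univ W) (fun i _ j _ => ⟨mg_mg_aux, mg_mg_aux⟩)
        rw [h3]; ring

theorem R_cons_congr {e : WE} {W W' : List WE} (h : ∀ f : ℕ → L, R κ W f = R κ W' f)
    (f : ℕ → L) : R κ (e :: W) f = R κ (e :: W') f := by
  obtain ⟨a, b, α, β⟩ := e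
  rw [R_cons, R_cons, h, h]

theorem R_perm {W W' : List WE} (h : W.Perm W') (f : ℕ → L) : R κ W f = R κ W' f := by
  induction h generalizing f with
  | nil => rfl
  | cons e _ ih => exact R_cons_congr κ ih f
  | swap e e' W => exact R_swap κ _ _ _ _
  | trans _ _ ih1 ih2 => rw [ih1, ih2]

/-- two parallel edges -/
theorem R_par {a b c d : ℕ} {α β α' β' : ℚ} {W : List WE} {f : ℕ → L}
    (h : (f a = f c ∧ f b = f d) ∨ (f a = f d ∧ f b = f c)) :
    R κ ((a, b, α, β) :: (c, d, α', β') :: W) f = R κ ((a, b, α * α', β * β') :: W) f := by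
  by_cases h0 : f a = f b
  · have h1 : f c = f d := by rcases h with h | h <;> [rw [← h.1, ← h.2, h0]; rw [← h.1, ← h.2, h0]]
    rw [R_loop κ h0, R_loop κ h1, R_loop κ h0]; ring
  · have h1 : f c ≠ f d := by
      rcases h with h | h
      · rw [← h.1, ← h.2]; exact h0
      · rw [← h.1, ← h.2]; exact fun h' => h0 h'.symm
    rw [R_non κ h0, R_non κ h1, R_non κ h0]
    have h2 : mg (f a) (f b) (f c) = mg (f a) (f b) (f d) := by
      rw [mg_eq_iff]
      rcases h with h | h
      · exact Or.inr (Or.inl ⟨h.1.symm, h.2.symm⟩)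
      · exact Or.inr (Or.inr ⟨h.2.symm, h.1.symm⟩)
    rw [R_loop κ (f := fun i => mg (f a) (f b) (f i)) h2]
    have h3 : R κ W (fun i => mg (f a) (f b) (f i)) = R κ W (fun i => mg (f c) (f d) (f i)) :=
      R_ker κ (S := Set.univ) W _ _ (lab_univ W) (fun i _ j _ => mg_par_ker h2 h1 _ _)
    rw [h3]; ring

/-- scaling an edge -/
theorem R_scale (s : ℚ) {a b : ℕ} {α β : ℚ} {W : List WE} {f : ℕ → L} :
    R κ ((a, b, s * α, s * β) :: W) f = s * R κ ((a, b, α, β) :: W) f := by
  rw [R_cons, R_cons]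
  split_ifs <;> ring

/-- a function agreeing with `f` on the labels gives the same value -/
theorem R_congr {S : Set ℕ} {W : List WE} {f g : ℕ → L} (hW : Lab S W)
    (h : ∀ i ∈ S, f i = g i) : R κ W f = R κ W g :=
  R_ker κ W f g hW (fun i hi j hj => by rw [h i hi, h j hj])

/-- series composition -/
theorem R_series {a b z : ℕ} {α β α' β' : ℚ} {S : Set ℕ} {W : List WE} {f : ℕ → L}
    (hW : Lab S W) (hz : ∀ i ∈ S, f i ≠ f z) (ha : f a ≠ f z) (hb : f b ≠ f z) :
    R κ ((a, z, α, β) :: (z, b, α', β') :: W) f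
      = R κ ((a, b, κ * (β * α' + α * β') + (1 - 2 * κ) * (α * α'),
          κ * (β * β') + (1 - κ) * (α * α')) :: W) f := by
  have e1 : R κ W (fun i => mg (f z) (f b) (f i)) = R κ W f := by
    refine R_ker κ W _ _ hW (fun i hi j hj => ?_)
    have h1 := hz i hi
    have h2 := hz j hj
    unfold mg
    grind
  have e2 : R κ W (fun i => mg (f a) (f z) (f i)) = R κ W f := by
    refine R_congr κ hW (fun i hi => ?_)
    have h1 := hz i hi
    unfold mg
    grind
  have e3 : mg (f a) (f z) (f z) = f a := by simp [mg]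
  have e4 : mg (f a) (f z) (f b) = f b := by simp [mg, hb]
  rw [R_non κ ha, R_non κ (Ne.symm hb), e1]
  by_cases h : f a = f b
  · rw [R_loop κ (f := fun i => mg (f a) (f z) (f i)) (e3.trans (h.trans e4.symm)), e2, R_loop κ h]
    ring
  · rw [R_non κ (f := fun i => mg (f a) (f z) (f i)) (by simp only [e3, e4]; exact h), e2,
      R_non κ h]
    have e5 : R κ W (fun i => mg (mg (f a) (f z) (f z)) (mg (f a) (f z) (f b))
        (mg (f a) (f z) (f i))) = R κ W (fun i => mg (f a) (f b) (f i)) := by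
      refine R_congr κ hW (fun i hi => ?_)
      have h1 := hz i hi
      simp only [e3, e4]
      unfold mg
      grind
    rw [e5]; ring

end

end Pool.Agent.Helper47.TR
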