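import Pool.Agent.Helper47.TR.Rank

set_option autoImplicit false

/-!
# Choice of the length and the number of the paths
-/

namespace Pool.Agent.Helper47.TR

open Turing Function N487b59b3 N68a2faeb Pool.Agent.Helper22 Pool.Agent.Helper6.WB Computability

/-- state of the first search: the threshold, then `l` in unary, `D`, `X2^l` and `N` -/
abbrev StL := ℕ × (List Bool × (ℕ × (ℕ × ℕ)))

/-- one step of the first search -/
def stepL (X1 X2 k0 : ℕ) (s : StL) : StL :=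
  if s.1 * s.2.2.2.1 ≤ s.2.2.1 then s
  else (s.1, (true :: s.2.1, (X1 * s.2.2.1 + X2 * s.2.2.2.1,
    (X2 * s.2.2.2.1, X1 * s.2.2.2.2 + k0 * s.2.2.2.1))))

/-- invariant of the first search -/
def InvL (X1 X2 W : ℕ) (V : ℚ) (E : ℕ) (s : StL) : Prop :=
  s.1 = E ∧ (s.2.2.2.1 : ℚ) = X2 ^ s.2.1.length ∧
  (s.2.2.1 : ℚ) = geo (X1 / X2) s.2.1.length * X2 ^ s.2.1.length ∧
  (s.2.2.2.2 : ℚ) = W * s.2.2.1 - V * X2 ^ s.2.1.length ∧
  geo (X1 / X2) s.2.1.length ≤ X1 / X2 * E + X1 / X2 + 1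

theorem stepL_inv (X1 X2 W k0 : ℕ) (V : ℚ) (hX2 : 0 < X2)
    (hk0 : (k0 : ℚ) = X1 * V + (W - V) * X2) (E : ℕ) (s : StL) (hs : InvL X1 X2 W V E s) :
    InvL X1 X2 W V E (stepL X1 X2 k0 s) := by
  obtain ⟨E', L, D, Xp, Nn⟩ := s
  obtain ⟨h1, h2, h3, h4, h5⟩ := hs
  simp only at h1 h2 h3 h4 h5
  have hX2' : (X2 : ℚ) ≠ 0 := by exact_mod_cast hX2.ne'
  have hX2p : (0 : ℚ) < X2 := by exact_mod_cast hX2
  unfold stepL
  simp only
  split_ifs with h
  · exact ⟨h1, h2, h3, h4, h5⟩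
  · refine ⟨h1, ?_, ?_, ?_, ?_⟩
    · simp only [List.length_cons]
      push_cast
      rw [h2, pow_succ]; ring
    · simp only [List.length_cons, geo]
      push_cast
      rw [h3, h2, pow_succ]
      field_simp
    · simp only [List.length_cons]
      push_cast
      rw [h4, h2, hk0, pow_succ]
      ring
    · simp only [List.length_cons, geo]
      subst h1
      have h6 : D < E' * Xp := not_le.mp h
      have h7 : (D : ℚ) < E' * Xp := by exact_mod_cast h6
      rw [h3, h2] at h7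
      have h8 : geo (X1 / X2) L.length < E' := by
        have h9 : (0 : ℚ) < X2 ^ L.length := by positivity
        exact lt_of_mul_lt_mul_right h7 h9.le
      have h10 : (0 : ℚ) ≤ X1 / X2 := by positivity
      nlinarith

theorem stepL_prog (X1 X2 W k0 : ℕ) (V : ℚ) (hX2 : 0 < X2) (hX : X2 ≤ X1)
    (hk0 : (k0 : ℚ) = X1 * V + (W - V) * X2) (E : ℕ) (s : StL) (hs : InvL X1 X2 W V E s)
    (n : ℕ) (hn : E ≤ s.2.1.length + n) :
    InvL X1 X2 W V E ((stepL X1 X2 k0)^[n] s) ∧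
      (E : ℚ) ≤ geo (X1 / X2) ((stepL X1 X2 k0)^[n] s).2.1.length := by
  have hX2p : (0 : ℚ) < X2 := by exact_mod_cast hX2
  have hx : (1 : ℚ) ≤ X1 / X2 := by
    rw [le_div_iff₀ hX2p, one_mul]; exact_mod_cast hX
  have hgeo : ∀ l : ℕ, (l : ℚ) ≤ geo (X1 / X2) l := by
    intro l
    induction l with
    | zero => simp [geo]
    | succ l ih =>
      rw [geo]; push_cast
      have := geo_pos (by linarith : (0 : ℚ) ≤ X1 / X2) l
      nlinarith
  induction n generalizing s with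
  | zero =>
    refine ⟨hs, ?_⟩
    refine le_trans ?_ (hgeo _)
    exact_mod_cast hn
  | succ n ih =>
    rw [Function.iterate_succ_apply]
    have h1 := stepL_inv X1 X2 W k0 V hX2 hk0 E s hs
    by_cases h : s.1 * s.2.2.2.1 ≤ s.2.2.1
    · have h2 : stepL X1 X2 k0 s = s := by rw [stepL, if_pos h]
      rw [h2, Function.iterate_fixed h2]
      refine ⟨hs, ?_⟩
      obtain ⟨e1, e2, e3, e4, e5⟩ := hs
      rw [e1] at h
      have h3 : (E : ℚ) * s.2.2.2.1 ≤ s.2.2.1 := by exact_mod_cast h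
      rw [e2, e3] at h3
      have h9 : (0 : ℚ) < X2 ^ s.2.1.length := by positivity
      exact le_of_mul_le_mul_right h3 h9
    · refine ih _ h1 ?_
      have h2 : (stepL X1 X2 k0 s).2.1.length = s.2.1.length + 1 := by
        rw [stepL, if_neg h]; rfl
      omega

theorem FP.stepL (X1 X2 k0 : ℕ) : FP (stepL X1 X2 k0) := by
  have h1 : FP fun s : StL => s.1 * s.2.2.2.1 := FP.natMul (by fun_prop) (by fun_prop)
  have h2 : FP fun s : StL => decide (s.1 * s.2.2.2.1 ≤ s.2.2.1) := FP.natLe h1 (by fun_prop)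
  have h3 : FP fun s : StL => X1 * s.2.2.1 + X2 * s.2.2.2.1 :=
    FP.natAdd (FP.natMul (FP.const X1) (by fun_prop)) (FP.natMul (FP.const X2) (by fun_prop))
  have h4 : FP fun s : StL => X2 * s.2.2.2.1 := FP.natMul (FP.const X2) (by fun_prop)
  have h5 : FP fun s : StL => X1 * s.2.2.2.2 + k0 * s.2.2.2.1 :=
    FP.natAdd (FP.natMul (FP.const X1) (by fun_prop)) (FP.natMul (FP.const k0) (by fun_prop))
  have h6 : FP fun s : StL => true :: s.2.1 := FP.cons (FP.const true) (by fun_prop)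
  have h := FP.ite h2 (f := fun s : StL => s) (by fun_prop)
    (FP.pair (f := fun s : StL => s.1) (by fun_prop) (h6.pair (h3.pair (h4.pair h5))))
  simp only [decide_eq_true_eq] at h
  exact h

/-- sum of the numbers of a state -/
def sumL (s : StL) : ℕ := s.2.2.1 + s.2.2.2.1 + s.2.2.2.2

theorem stepL_size (X1 X2 k0 : ℕ) (s : StL) (i : ℕ) :
    ((stepL X1 X2 k0)^[i] s).1 = s.1 ∧
    ((stepL X1 X2 k0)^[i] s).2.1.length ≤ s.2.1.length + i ∧
    sumL ((stepL X1 X2 k0)^[i] s) ≤ (X1 + 2 * X2 + k0 + 1) ^ i * sumL s := by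
  induction i with
  | zero => simp
  | succ i ih =>
    rw [Function.iterate_succ_apply']
    obtain ⟨h1, h2, h3⟩ := ih
    set s' := (stepL X1 X2 k0)^[i] s
    have h4 : (stepL X1 X2 k0 s').1 = s'.1 := by unfold stepL; split_ifs <;> rfl
    have h5 : (stepL X1 X2 k0 s').2.1.length ≤ s'.2.1.length + 1 := by
      unfold stepL; split_ifs
      · omega
      · simp
    have h6 : sumL (stepL X1 X2 k0 s') ≤ (X1 + 2 * X2 + k0 + 1) * sumL s' := by
      unfold stepL sumL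
      split_ifs
      · nlinarith [Nat.zero_le ((X1 + 2 * X2 + k0) * (s'.2.2.1 + s'.2.2.2.1 + s'.2.2.2.2))]
      · simp only
        nlinarith [Nat.zero_le (X1 * s'.2.2.2.1), Nat.zero_le (X2 * s'.2.2.1),
          Nat.zero_le (k0 * s'.2.2.1), Nat.zero_le (X2 * s'.2.2.2.2),
          Nat.zero_le (k0 * s'.2.2.2.2)]
    refine ⟨by rw [h4, h1], by omega, ?_⟩
    calc _ ≤ (X1 + 2 * X2 + k0 + 1) * sumL s' := h6
      _ ≤ (X1 + 2 * X2 + k0 + 1) * ((X1 + 2 * X2 + k0 + 1) ^ i * sumL s) :=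
          Nat.mul_le_mul_left _ h3
      _ = _ := by rw [pow_succ]; ring

theorem FP.iterL (X1 X2 k0 : ℕ) :
    FP fun p : List Bool × StL => (TR.stepL X1 X2 k0)^[p.1.length] p.2 := by
  set c := Nat.size (X1 + 2 * X2 + k0 + 1) with hc
  refine FP.iterate (FP.stepL X1 X2 k0) (B := fun n => 20 * n + 20 * (n * c + 1 + 3 * n + 3) + 20)
    (by fun_prop) ?_
  rintro L s i hi
  obtain ⟨h1, h2, h3⟩ := stepL_size X1 X2 k0 s i
  have h4 := length_le_sz L
  obtain ⟨E, l, D, Xp, Nn⟩ := s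
  rcases hq : (TR.stepL X1 X2 k0)^[i] (E, l, D, Xp, Nn) with ⟨E', l', D', Xp', Nn'⟩
  rw [hq] at h1 h2 h3
  simp only [sumL] at h1 h2 h3
  subst h1
  have h5 := size_mul_le ((X1 + 2 * X2 + k0 + 1) ^ i) (D + Xp + Nn)
  have h6 := size_pow_le (X1 + 2 * X2 + k0 + 1) i
  rw [← hc] at h6
  have hsum : ∀ a b : ℕ, Nat.size (a + b) ≤ Nat.size a + Nat.size b + 1 := by
    intro a b
    rw [Nat.size_le]
    have ha := Nat.lt_size_self a
    have hb := Nat.lt_size_self b
    have ha' : 2 ^ a.size ≤ 2 ^ (a.size + b.size) := Nat.pow_le_pow_right (by norm_num) (by omega)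
    have hb' : 2 ^ b.size ≤ 2 ^ (a.size + b.size) := Nat.pow_le_pow_right (by norm_num) (by omega)
    rw [pow_succ]; omega
  have h7 := hsum (D + Xp) Nn
  have h8 := hsum D Xp
  have hD := size_mono (show D' ≤ (X1 + 2 * X2 + k0 + 1) ^ i * (D + Xp + Nn) by omega)
  have hXp := size_mono (show Xp' ≤ (X1 + 2 * X2 + k0 + 1) ^ i * (D + Xp + Nn) by omega)
  have hNn := size_mono (show Nn' ≤ (X1 + 2 * X2 + k0 + 1) ^ i * (D + Xp + Nn) by omega)
  simp only [sz_pair, sz_nat, sz_bits] at *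
  generalize hN : 3 * L.length + (2 * E'.size + 1 + (2 * (3 * l.length) + 1 + (2 * D.size + 1 +
    (2 * Xp.size + 1 + Nn.size)))) = N
  have h9 : i * c ≤ N * c := Nat.mul_le_mul (by omega) le_rfl
  omega

/-! ## The second search -/

/-- state of the second search: multipliers, threshold `a / b`, `t` in unary, `P`, `Q` -/
abbrev StT := ((ℕ × ℕ) × (ℕ × ℕ)) × (List Bool × (ℕ × ℕ))

/-- one step of the second search -/
def stepT (s : StT) : StT :=
  if s.2.2.1 * s.1.2.2 ≤ s.2.2.2 * s.1.2.1 then s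
  else (s.1, (true :: s.2.1, (s.2.2.1 * s.1.1.1, s.2.2.2 * s.1.1.2)))

/-- invariant of the second search -/
def InvT (c : (ℕ × ℕ) × (ℕ × ℕ)) (u thr : ℚ) (s : StT) : Prop :=
  s.1 = c ∧ (s.2.2.1 : ℚ) = (c.1.1 : ℚ) ^ s.2.1.length ∧
  (s.2.2.2 : ℚ) = (c.1.2 : ℚ) ^ s.2.1.length ∧ 0 < s.2.1.length ∧
  (s.2.1.length = 1 ∨ thr < u ^ (s.2.1.length - 1))

theorem stepT_stop (c : (ℕ × ℕ) × (ℕ × ℕ)) (u thr : ℚ) (hd : 0 < c.1.2) (hb : 0 < c.2.2)
    (hu : u = c.1.1 / c.1.2) (hthr : thr = c.2.1 / c.2.2) (s : StT) (hs : InvT c u thr s) :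
    s.2.2.1 * s.1.2.2 ≤ s.2.2.2 * s.1.2.1 ↔ u ^ s.2.1.length ≤ thr := by
  obtain ⟨e1, e2, e3, e4, e5⟩ := hs
  have hd' : (0 : ℚ) < (c.1.2 : ℚ) ^ s.2.1.length := by
    have : (0 : ℚ) < c.1.2 := by exact_mod_cast hd
    positivity
  have hb' : (0 : ℚ) < c.2.2 := by exact_mod_cast hb
  rw [hu, hthr, div_pow, div_le_div_iff₀ hd' hb', ← e2, ← e3, e1, mul_comm (c.2.1 : ℚ)]
  constructor
  · intro h; exact_mod_cast h
  · intro h; exact_mod_cast h

theorem stepT_inv (c : (ℕ × ℕ) × (ℕ × ℕ)) (u thr : ℚ) (hd : 0 < c.1.2) (hb : 0 < c.2.2)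
    (hu : u = c.1.1 / c.1.2) (hthr : thr = c.2.1 / c.2.2) (s : StT) (hs : InvT c u thr s) :
    InvT c u thr (stepT s) := by
  have h0 := stepT_stop c u thr hd hb hu hthr s hs
  unfold stepT
  split_ifs with h
  · exact hs
  · rw [h0, not_le] at h
    obtain ⟨e1, e2, e3, e4, e5⟩ := hs
    refine ⟨e1, ?_, ?_, ?_, ?_⟩
    · simp only [List.length_cons]; push_cast
      rw [e2, e1, pow_succ]
    · simp only [List.length_cons]; push_cast
      rw [e3, e1, pow_succ]
    · simp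
    · right
      simpa using h

theorem stepT_prog (c : (ℕ × ℕ) × (ℕ × ℕ)) (u thr : ℚ) (hd : 0 < c.1.2) (hb : 0 < c.2.2)
    (hu : u = c.1.1 / c.1.2) (hthr : thr = c.2.1 / c.2.2) (T : ℕ)
    (hT : ∀ t, T ≤ t → u ^ t ≤ thr) (s : StT) (hs : InvT c u thr s) (n : ℕ)
    (hn : T ≤ s.2.1.length + n) :
    InvT c u thr (stepT^[n] s) ∧ u ^ (stepT^[n] s).2.1.length ≤ thr := by
  induction n generalizing s with
  | zero => exact ⟨hs, hT _ hn⟩
  | succ n ih =>
    rw [Function.iterate_succ_apply]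
    have h1 := stepT_inv c u thr hd hb hu hthr s hs
    have h0 := stepT_stop c u thr hd hb hu hthr s hs
    by_cases h : s.2.2.1 * s.1.2.2 ≤ s.2.2.2 * s.1.2.1
    · have h2 : stepT s = s := by rw [stepT, if_pos h]
      rw [h2, Function.iterate_fixed h2]
      exact ⟨hs, h0.mp h⟩
    · refine ih _ h1 ?_
      have h2 : (stepT s).2.1.length = s.2.1.length + 1 := by
        rw [stepT, if_neg h]; rfl
      omega

theorem FP.stepT : FP stepT := by
  have h1 : FP fun s : StT => s.2.2.1 * s.1.2.2 := FP.natMul (by fun_prop) (by fun_prop)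
  have h2 : FP fun s : StT => s.2.2.2 * s.1.2.1 := FP.natMul (by fun_prop) (by fun_prop)
  have h3 : FP fun s : StT => true :: s.2.1 := FP.cons (FP.const true) (by fun_prop)
  have h4 : FP fun s : StT => s.2.2.1 * s.1.1.1 := FP.natMul (by fun_prop) (by fun_prop)
  have h5 : FP fun s : StT => s.2.2.2 * s.1.1.2 := FP.natMul (by fun_prop) (by fun_prop)
  have h := FP.ite (FP.natLe h1 h2) (f := fun s : StT => s) (by fun_prop)
    (FP.pair (f := fun s : StT => s.1) (by fun_prop) (h3.pair (h4.pair h5)))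
  simp only [decide_eq_true_eq] at h
  exact h

theorem stepT_size (s : StT) (i : ℕ) :
    (stepT^[i] s).1 = s.1 ∧ (stepT^[i] s).2.1.length ≤ s.2.1.length + i ∧
    Nat.size (stepT^[i] s).2.2.1 ≤ Nat.size s.2.2.1 + i * Nat.size s.1.1.1 ∧
    Nat.size (stepT^[i] s).2.2.2 ≤ Nat.size s.2.2.2 + i * Nat.size s.1.1.2 := by
  induction i with
  | zero => simp
  | succ i ih =>
    rw [Function.iterate_succ_apply']
    obtain ⟨h1, h2, h3, h4⟩ := ih
    set s' := stepT^[i] s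
    have e1 : (i + 1) * Nat.size s.1.1.1 = i * Nat.size s.1.1.1 + Nat.size s.1.1.1 := by ring
    have e2 : (i + 1) * Nat.size s.1.1.2 = i * Nat.size s.1.1.2 + Nat.size s.1.1.2 := by ring
    unfold stepT
    split_ifs
    · exact ⟨h1, by omega, by omega, by omega⟩
    · have h5 := size_mul_le s'.2.2.1 s'.1.1.1
      have h6 := size_mul_le s'.2.2.2 s'.1.1.2
      rw [h1] at h5 h6 ⊢
      refine ⟨rfl, by simp only [List.length_cons]; omega, by simp only; omega,
        by simp only; omega⟩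

theorem FP.iterT : FP fun p : List Bool × StT => TR.stepT^[p.1.length] p.2 := by
  refine FP.iterate FP.stepT (B := fun n => 20 * n + 20 * (n * n) + 20) (by fun_prop) ?_
  rintro L s i hi
  obtain ⟨h1, h2, h3, h4⟩ := stepT_size s i
  have h5 := length_le_sz L
  obtain ⟨⟨⟨nn, dd⟩, a, b⟩, t, P, Q⟩ := s
  rcases hq : TR.stepT^[i] (((nn, dd), (a, b)), (t, (P, Q))) with ⟨⟨⟨nn', dd'⟩, a', b'⟩, t', P', Q'⟩
  rw [hq] at h1 h2 h3 h4
  simp only [Prod.mk.injEq] at h1 h2 h3 h4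
  obtain ⟨⟨rfl, rfl⟩, rfl, rfl⟩ := h1
  simp only [sz_pair, sz_nat, sz_bits] at *
  generalize hN : 3 * L.length + (2 * (2 * (2 * nn'.size + 1 + dd'.size) + 1 + (2 * a'.size + 1 + b'.size))
    + 1 + (2 * (3 * t.length) + 1 + (2 * P.size + 1 + Q.size))) = N
  have h6 : i * nn'.size ≤ N * N := Nat.mul_le_mul (by omega) (by omega)
  have h7 : i * dd'.size ≤ N * N := Nat.mul_le_mul (by omega) (by omega)
  omega

end Pool.Agent.Helper47.TR
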