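import Pool.Agent.Helper47.TR.AP

set_option autoImplicit false

/-!
# The reduction along a hyperbola
-/

namespace Pool.Agent.Helper47.TR

open Turing Function N487b59b3 N68a2faeb Pool.Agent.Helper22 Pool.Agent.Helper6.WB Computability

/-- natural number constants of the reduction -/
structure Cs where
  X1 : ℕ
  X2 : ℕ
  W : ℕ
  k0 : ℕ
  N1 : ℕ
  C0 : ℕ
  rn : ℕ
  rd : ℕ
  a1 : ℕ
  b1 : ℕ
  Y' : ℤ
  W' : ℕ
  s : Bool

/-- the precision in unary -/
def Eof (c : Cs) (p : MG × List Bool) : List Bool :=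
  un (c.C0 * ((p.1.2.length + 1) * (p.2.length + 1)))

/-- result of the first search -/
def Lof (c : Cs) (p : MG × List Bool) : StL :=
  (stepL c.X1 c.X2 c.k0)^[(Eof c p).length]
    ((Eof c p).length, ([true], (c.X1 + c.X2, (c.X2, c.N1))))

/-- clock of the second search -/
def Tof (c : Cs) (p : MG × List Bool) : List Bool :=
  un (c.W * ((Eof c p).length * (c.X1 * (Eof c p).length + c.X1 + 1)))

/-- constants of the second search -/
def cof (c : Cs) (p : MG × List Bool) : (ℕ × ℕ) × (ℕ × ℕ) :=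
  (((Lof c p).2.2.2.2, c.W * (Lof c p).2.2.1),
    (c.rn * (Eof c p).length + 2 * c.rd, c.rd * (Eof c p).length))

/-- result of the second search -/
def Sof (c : Cs) (p : MG × List Bool) : StT :=
  stepT^[(Tof c p).length] (cof c p, ([true], ((cof c p).1.1, (cof c p).1.2)))

/-- absolute value of the numerator of the constant -/
def numof (c : Cs) (p : MG × List Bool) : ℕ :=
  c.a1 ^ (mergers p.1).length * (c.Y'.natAbs ^ (p.1.2.filter (fun e => e.1 == e.2)).length *
    (Lof c p).2.2.2.1 ^ (jobs (Sof c p).2.1.length p.1).length)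

/-- denominator of the constant -/
def denof (c : Cs) (p : MG × List Bool) : ℕ :=
  c.b1 ^ (mergers p.1).length * (c.W' ^ (p.1.2.filter (fun e => e.1 == e.2)).length *
    (Lof c p).2.2.1 ^ (jobs (Sof c p).2.1.length p.1).length)

/-- the reduction -/
def redof (c : Cs) (p : MG × List Bool) : MG × (ℤ × ℕ) :=
  (gadG (Lof c p).2.1.length (Sof c p).2.1.length c.s p.1,
    (if (decide (c.Y' < 0) &&
        decide ((p.1.2.filter (fun e => e.1 == e.2)).length % 2 = 1)) then
        (-(numof c p : ℤ)) else (numof c p : ℤ), denof c p))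

theorem fp_Eof (c : Cs) : FP (Eof c) := by
  have h1 : FP fun p : MG × List Bool => true :: un p.1.2.length := by
    have : FP fun p : MG × List Bool => un p.1.2.length := FP.un_length (by fun_prop)
    exact FP.cons (FP.const true) this
  have h2 : FP fun p : MG × List Bool => true :: p.2 := FP.cons (FP.const true) (by fun_prop)
  have h3 := FP.unMul (FP.const (un c.C0)) (FP.unMul h1 h2)
  simp only [Helper22.un_length, List.length_cons] at h3
  exact h3

theorem fp_Lof (c : Cs) : FP (Lof c) := by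
  have hE := fp_Eof c
  have h1 : FP fun p => (Eof c p).length := FP.length hE
  exact (FP.iterL c.X1 c.X2 c.k0).comp (f := fun p : MG × List Bool =>
    (Eof c p, ((Eof c p).length, ([true], (c.X1 + c.X2, (c.X2, c.N1))))))
    (hE.pair (h1.pair (FP.const _)))

theorem fp_Tof (c : Cs) : FP (Tof c) := by
  have hE := fp_Eof c
  have h1 := FP.unMul (FP.const (α := MG × List Bool) (un c.X1)) hE
  have h2 := FP.append h1 (FP.const (un (c.X1 + 1)))
  have h3 := FP.unMul (FP.const (α := MG × List Bool) (un c.W)) (FP.unMul hE h2)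
  simp only [Helper22.un_length, List.length_append] at h3
  exact h3

theorem fp_cof (c : Cs) : FP (cof c) := by
  have hE : FP fun p => (Eof c p).length := FP.length (fp_Eof c)
  have hL := fp_Lof c
  have h1 : FP fun p => (Lof c p).2.2.2.2 := by fun_prop
  have h2 : FP fun p => c.W * (Lof c p).2.2.1 := FP.natMul (FP.const _) (by fun_prop)
  have h3 : FP fun p => c.rn * (Eof c p).length + 2 * c.rd :=
    FP.natAdd (FP.natMul (FP.const _) hE) (FP.const _)
  have h4 : FP fun p => c.rd * (Eof c p).length := FP.natMul (FP.const _) hE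
  exact (h1.pair h2).pair (h3.pair h4)

theorem fp_Sof (c : Cs) : FP (Sof c) := by
  have hc := fp_cof c
  have hT := fp_Tof c
  have h1 : FP fun p => ([true], ((cof c p).1.1, (cof c p).1.2)) :=
    (FP.const [true]).pair (hc.fst'.fst'.pair hc.fst'.snd')
  exact FP.iterT.comp (f := fun p : MG × List Bool =>
    (Tof c p, (cof c p, ([true], ((cof c p).1.1, (cof c p).1.2))))) (hT.pair (hc.pair h1))

theorem fp_redof (c : Cs) : FP (redof c) := by
  have hL := fp_Lof c
  have hS := fp_Sof c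
  have hG : FP fun p : MG × List Bool => p.1 := by fun_prop
  have hm : FP fun p : MG × List Bool => mergers p.1 := FP.mergers hG
  have hl : FP fun p : MG × List Bool => p.1.2.filter (fun e => e.1 == e.2) := FP.loopsL hG
  have hj : FP fun p : MG × List Bool => jobs (Sof c p).2.1.length p.1 :=
    FP.jobs hG (t := fun p => (Sof c p).2.1) (by fun_prop)
  have hn : FP (numof c) :=
    FP.natMul (FP.powU (FP.const _) hm) (FP.natMul (FP.powU (FP.const _) hl)
      (FP.powU (f := fun p => (Lof c p).2.2.2.1) (by fun_prop) hj))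
  have hd : FP (denof c) :=
    FP.natMul (FP.powU (FP.const _) hm) (FP.natMul (FP.powU (FP.const _) hl)
      (FP.powU (f := fun p => (Lof c p).2.2.1) (by fun_prop) hj))
  have hg : FP fun p : MG × List Bool =>
      gadG (Lof c p).2.1.length (Sof c p).2.1.length c.s p.1 :=
    FP.gadG hG (l := fun p => (Lof c p).2.1) (t := fun p => (Sof c p).2.1) (by fun_prop)
      (by fun_prop) c.s
  have hs : FP fun p : MG × List Bool => (decide (c.Y' < 0) &&
        decide ((p.1.2.filter (fun e => e.1 == e.2)).length % 2 = 1)) :=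
    (FP.const _).and (FP.odd hl)
  exact hg.pair ((FP.ite hs (FP.intNeg hn) (FP.intPos hn)).pair hd)

/-- the analytic part of the choice of `t` -/
theorem choice {u ρ δ z : ℚ} (hu : u = 1 - z) (hz0 : 0 ≤ z) (hzδ : z ≤ δ) (hδ : δ ≤ 1)
    (hρ0 : 0 ≤ ρ) (hρ : ρ ≤ 1) (t : ℕ) (ht : 0 < t) (h1 : u ^ t ≤ ρ + δ)
    (h2 : t = 1 ∨ ρ + δ < u ^ (t - 1)) : |u ^ t - ρ| ≤ δ := by
  have hu0 : 0 ≤ u := by rw [hu]; linarith
  rw [abs_le]
  constructor
  · rcases h2 with h2 | h2
    · subst h2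
      rw [pow_one, hu]
      linarith
    · obtain ⟨t', rfl⟩ : ∃ t', t = t' + 1 := ⟨t - 1, by omega⟩
      rw [Nat.add_sub_cancel] at h2
      rw [pow_succ]
      have h3 : (ρ + δ) * u ≤ u ^ t' * u := mul_le_mul_of_nonneg_right h2.le hu0
      have h4 : (ρ + δ) * (1 - δ) ≤ (ρ + δ) * u := by
        apply mul_le_mul_of_nonneg_left _ (by linarith)
        rw [hu]; linarith
      nlinarith
  · linarith

/-- the constants fit to the points -/
structure CsOK (c : Cs) (x y y' ρ : ℚ) : Prop where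
  X2pos : 0 < c.X2
  X12 : c.X2 ≤ c.X1
  hX : (c.X1 : ℚ) = x * c.X2
  Wpos : 0 < c.W
  W1 : 1 ≤ c.W * (1 - y)
  k0 : (c.k0 : ℚ) = c.X1 * (c.W * (1 - y)) + (c.W - c.W * (1 - y)) * c.X2
  N1 : (c.N1 : ℚ) = c.W * (c.X1 + c.X2) - (c.W * (1 - y)) * c.X2
  rdpos : 0 < c.rd
  rn : (c.rn : ℚ) = ρ * c.rd
  W'pos : 0 < c.W'
  hY' : (c.Y' : ℚ) = y' * c.W'
  C0 : c.C0 = 4 * c.W'
  a1 : (c.a1 : ℚ) = c.W * (1 - y) * c.W'
  b1 : (c.b1 : ℚ) = c.W * (c.W' * (1 - y'))
  W1' : 1 ≤ c.W' * (1 - |y'|)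
  hs : ρ * (if c.s then y else 1) = y'

theorem Lof_spec {c : Cs} {x y y' ρ : ℚ} (hc : CsOK c x y y' ρ) (hx : 1 ≤ x)
    (p : MG × List Bool) :
    ((Lof c p).2.2.2.1 : ℚ) = (c.X2 : ℚ) ^ (Lof c p).2.1.length ∧
    ((Lof c p).2.2.1 : ℚ) = geo x (Lof c p).2.1.length * (c.X2 : ℚ) ^ (Lof c p).2.1.length ∧
    ((Lof c p).2.2.2.2 : ℚ) = c.W * (geo x (Lof c p).2.1.length *
      (c.X2 : ℚ) ^ (Lof c p).2.1.length) -
      (c.W * (1 - y)) * (c.X2 : ℚ) ^ (Lof c p).2.1.length ∧
    geo x (Lof c p).2.1.length ≤ x * (Eof c p).length + x + 1 ∧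
    ((Eof c p).length : ℚ) ≤ geo x (Lof c p).2.1.length := by
  have hX2q : (0 : ℚ) < c.X2 := by exact_mod_cast hc.X2pos
  have cxx : ((c.X1 : ℚ) / (c.X2 : ℚ)) = x := by rw [hc.hX]; field_simp
  have hinit : InvL c.X1 c.X2 c.W (c.W * (1 - y)) (Eof c p).length
      ((Eof c p).length, ([true], (c.X1 + c.X2, (c.X2, c.N1)))) := by
    refine ⟨rfl, by simp, ?_, ?_, ?_⟩
    · simp only [List.length_singleton, geo, mul_one, pow_one]
      push_cast
      field_simp
    · simp only [List.length_singleton]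
      push_cast
      rw [hc.N1, pow_one]
    · simp only [List.length_singleton, geo, mul_one]
      rw [cxx]
      have : 0 ≤ x * ((Eof c p).length : ℚ) := by positivity
      linarith
  obtain ⟨hinv, hgeoE⟩ := stepL_prog c.X1 c.X2 c.W c.k0 (c.W * (1 - y)) hc.X2pos hc.X12 hc.k0
    (Eof c p).length _ hinit (Eof c p).length (by simp)
  have hLof : Lof c p = (stepL c.X1 c.X2 c.k0)^[(Eof c p).length]
      ((Eof c p).length, ([true], (c.X1 + c.X2, (c.X2, c.N1)))) := rfl
  rw [← hLof] at hinv hgeoE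
  obtain ⟨-, hXp, hD, hNn, hgeoU⟩ := hinv
  rw [cxx] at hD hgeoE hgeoU
  exact ⟨hXp, hD, by rw [hNn, hD], hgeoU, hgeoE⟩

theorem Eof_length (c : Cs) (p : MG × List Bool) :
    (Eof c p).length = c.C0 * ((p.1.2.length + 1) * (p.2.length + 1)) := by
  rw [Eof, Helper22.un_length]

theorem Sof_spec {c : Cs} {x y y' ρ : ℚ} (hc : CsOK c x y y' ρ) (hx : 1 ≤ x) (hy : -1 < y)
    (hy1 : y < 1) (hρ0 : 0 ≤ ρ) (hρ1 : ρ ≤ 1) (p : MG × List Bool) :
    0 < (Sof c p).2.1.length ∧
    |(1 - (1 - y) / geo x (Lof c p).2.1.length) ^ (Sof c p).2.1.length - ρ|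
      ≤ 2 / (Eof c p).length := by
  obtain ⟨hXp, hD, hNn, hgeoU, hgeoE⟩ := Lof_spec hc hx p
  have hX2q : (0 : ℚ) < c.X2 := by exact_mod_cast hc.X2pos
  have hWq : (0 : ℚ) < c.W := by exact_mod_cast hc.Wpos
  have hrdq : (0 : ℚ) < c.rd := by exact_mod_cast hc.rdpos
  have hE4 : 4 ≤ (Eof c p).length := by
    rw [Eof_length, hc.C0]
    have h1 : 1 ≤ c.W' := hc.W'pos
    have h2 : 1 ≤ (p.1.2.length + 1) * (p.2.length + 1) := Nat.mul_pos (by omega) (by omega)
    nlinarith
  have hSof : Sof c p = stepT^[(Tof c p).length]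
      (cof c p, ([true], ((cof c p).1.1, (cof c p).1.2))) := rfl
  have hTq : ((Tof c p).length : ℚ) = c.W * ((Eof c p).length *
      (c.X1 * (Eof c p).length + c.X1 + 1)) := by
    rw [Tof, Helper22.un_length]
    push_cast
    rfl
  have c11 : ((cof c p).1.1 : ℚ) = ((Lof c p).2.2.2.2 : ℚ) := rfl
  have c12 : ((cof c p).1.2 : ℚ) = c.W * ((Lof c p).2.2.1 : ℚ) := by
    show ((c.W * (Lof c p).2.2.1 : ℕ) : ℚ) = _
    push_cast; rfl
  have c21 : ((cof c p).2.1 : ℚ) = c.rn * ((Eof c p).length : ℚ) + 2 * c.rd := by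
    show ((c.rn * (Eof c p).length + 2 * c.rd : ℕ) : ℚ) = _
    push_cast; rfl
  have c22 : ((cof c p).2.2 : ℚ) = c.rd * ((Eof c p).length : ℚ) := by
    show ((c.rd * (Eof c p).length : ℕ) : ℚ) = _
    push_cast; rfl
  rw [hSof]
  generalize hT : (Tof c p).length = T at *
  generalize hE : (Eof c p).length = E at *
  generalize hco : cof c p = co at *
  generalize hLo : Lof c p = sL at *
  clear hT hE hco hLo hSof
  generalize hl : sL.2.1.length = l at *
  have hE4q : (4 : ℚ) ≤ E := by exact_mod_cast hE4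
  have hEpos : (0 : ℚ) < E := by linarith
  have hgpos : 0 < geo x l := by linarith
  have hX2l : (0 : ℚ) < (c.X2 : ℚ) ^ l := by positivity
  have hDpos : (0 : ℚ) < (sL.2.2.1 : ℚ) := by rw [hD]; exact mul_pos hgpos hX2l
  -- u and z
  obtain ⟨z, hz⟩ : ∃ z : ℚ, z = (1 - y) / geo x l := ⟨_, rfl⟩
  obtain ⟨u, hu⟩ : ∃ u : ℚ, u = 1 - z := ⟨_, rfl⟩
  rw [← hz, ← hu]
  have hz0 : 0 ≤ z := by rw [hz]; exact div_nonneg (by linarith) hgpos.le
  have hzE : z ≤ 2 / E := by
    rw [hz, div_le_div_iff₀ hgpos hEpos]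
    nlinarith
  have h2E : 2 / (E : ℚ) ≤ 1 := by rw [div_le_one hEpos]; linarith
  have hz1 : z ≤ 1 := hzE.trans h2E
  have hcd : 0 < co.1.2 := by
    have : (0 : ℚ) < co.1.2 := by rw [c12]; exact mul_pos hWq hDpos
    exact_mod_cast this
  have hcb : 0 < co.2.2 := by
    have : (0 : ℚ) < co.2.2 := by rw [c22]; exact mul_pos hrdq hEpos
    exact_mod_cast this
  have huc : u = (co.1.1 : ℚ) / (co.1.2 : ℚ) := by
    rw [c11, c12, hNn, hD, hu, hz]
    field_simp
  have hthr : ρ + 2 / E = (co.2.1 : ℚ) / (co.2.2 : ℚ) := by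
    rw [c21, c22, hc.rn]
    field_simp
  have hX1x : x ≤ c.X1 := by
    rw [hc.hX]
    have : (1 : ℚ) ≤ c.X2 := by exact_mod_cast hc.X2pos
    nlinarith
  have hTz : (E : ℚ) / 2 ≤ T * z := by
    have h1 : geo x l ≤ c.X1 * E + c.X1 + 1 := by
      have : x * E ≤ c.X1 * E := mul_le_mul_of_nonneg_right hX1x hEpos.le
      linarith
    rw [hTq, hz, mul_div_assoc', le_div_iff₀ hgpos]
    have h2 : (E : ℚ) * geo x l ≤ E * (c.X1 * E + c.X1 + 1) :=
      mul_le_mul_of_nonneg_left h1 hEpos.le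
    have h3 : 0 ≤ (E : ℚ) * (c.X1 * E + c.X1 + 1) := by positivity
    have h4 : E * (c.X1 * E + c.X1 + 1) * 1 ≤ E * (c.X1 * E + c.X1 + 1) * (c.W * (1 - y)) :=
      mul_le_mul_of_nonneg_left hc.W1 h3
    have h5 : 0 ≤ (E : ℚ) * geo x l := mul_nonneg hEpos.le hgpos.le
    calc (E : ℚ) / 2 * geo x l = (E : ℚ) * geo x l / 2 := by ring
      _ ≤ (E : ℚ) * geo x l := by linarith
      _ ≤ E * (c.X1 * E + c.X1 + 1) * (c.W * (1 - y)) := by linarith
      _ = _ := by ring
  have hTpow : ∀ t, T ≤ t → u ^ t ≤ ρ + 2 / E := by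
    intro t ht
    have := pow_small hu hz0 hz1 T t ht (by positivity) hTz
    rw [one_div_div] at this
    linarith
  have hinitT : InvT co u (ρ + 2 / E) (co, ([true], (co.1.1, co.1.2))) :=
    ⟨rfl, by simp, by simp, by simp, Or.inl (by simp)⟩
  obtain ⟨hinvT, hstop⟩ := stepT_prog co u (ρ + 2 / E) hcd hcb huc hthr T hTpow _ hinitT T
    (by simp)
  obtain ⟨-, -, -, htpos, hprev⟩ := hinvT
  exact ⟨htpos, choice hu hz0 hzE h2E hρ0 hρ1 _ htpos hstop hprev⟩

theorem cst_spec {c : Cs} {x y y' ρ : ℚ} (hc : CsOK c x y y' ρ) (hx : 1 ≤ x) (hy' : y' < 1)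
    (G : MG) (hG : Valid G) (N : List Bool) :
    (redof c (G, N)).2.2 ≠ 0 ∧
    ((redof c (G, N)).2.1 : ℚ) / ((redof c (G, N)).2.2 : ℚ)
        = cst G x y y' (Lof c (G, N)).2.1.length (Sof c (G, N)).2.1.length := by
  obtain ⟨hXp, hD, hNn, hgeoU, hgeoE⟩ := Lof_spec hc hx (G, N)
  have hX2q : (0 : ℚ) < c.X2 := by exact_mod_cast hc.X2pos
  have hWq : (0 : ℚ) < c.W := by exact_mod_cast hc.Wpos
  have hW'q : (0 : ℚ) < c.W' := by exact_mod_cast hc.W'pos
  have e0 : (numof c (G, N) : ℚ) = (c.a1 : ℚ) ^ (mergers G).length *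
      (((c.Y'.natAbs : ℕ) : ℚ) ^ nloops G *
        ((Lof c (G, N)).2.2.2.1 : ℚ) ^ (jobs (Sof c (G, N)).2.1.length G).length) := by
    unfold numof
    push_cast
    rfl
  have e1 : (denof c (G, N) : ℚ) = (c.b1 : ℚ) ^ (mergers G).length *
      ((c.W' : ℚ) ^ nloops G *
        ((Lof c (G, N)).2.2.1 : ℚ) ^ (jobs (Sof c (G, N)).2.1.length G).length) := by
    unfold denof
    push_cast
    rfl
  have e2 : ((redof c (G, N)).2.1 : ℚ) = if (decide (c.Y' < 0) &&
      decide (nloops G % 2 = 1)) then -(numof c (G, N) : ℚ) else (numof c (G, N) : ℚ) := by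
    have : (redof c (G, N)).2.1 = if (decide (c.Y' < 0) &&
      decide (nloops G % 2 = 1)) then -(numof c (G, N) : ℤ) else (numof c (G, N) : ℤ) := rfl
    rw [this]
    split_ifs <;> push_cast <;> rfl
  have e3 : ((redof c (G, N)).2.2 : ℚ) = (denof c (G, N) : ℚ) := rfl
  rw [jobs_length] at e0 e1
  have hk : G.1.length - comps G Finset.univ = (mergers G).length := by
    have := comps_add_mergers hG
    omega
  have e4 : (c.Y' : ℚ) ^ nloops G = if (decide (c.Y' < 0) && decide (nloops G % 2 = 1))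
      then -((c.Y'.natAbs : ℕ) : ℚ) ^ nloops G
      else ((c.Y'.natAbs : ℕ) : ℚ) ^ nloops G := by
    by_cases h : c.Y' < 0
    · have h1 : (c.Y' : ℚ) = -((c.Y'.natAbs : ℕ) : ℚ) := by
        have : (c.Y' : ℤ) = -((c.Y'.natAbs : ℕ) : ℤ) := by omega
        calc (c.Y' : ℚ) = ((-((c.Y'.natAbs : ℕ) : ℤ) : ℤ) : ℚ) := by rw [← this]
          _ = _ := by rw [Int.cast_neg, Int.cast_natCast]
      have h2 : decide (c.Y' < 0) = true := by simpa using h
      rw [h2, Bool.true_and]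
      rcases Nat.mod_two_eq_zero_or_one (nloops G) with h3 | h3
      · have h4 : Even (nloops G) := Nat.even_iff.mpr h3
        simp only [h3, zero_ne_one, decide_false, Bool.false_eq_true, if_false]
        rw [h1, h4.neg_pow]
      · have h4 : Odd (nloops G) := Nat.odd_iff.mpr h3
        simp only [h3, decide_true, if_true]
        rw [h1, h4.neg_pow]
    · have h1 : (c.Y' : ℚ) = ((c.Y'.natAbs : ℕ) : ℚ) := by
        have : (c.Y' : ℤ) = ((c.Y'.natAbs : ℕ) : ℤ) := by omega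
        calc (c.Y' : ℚ) = ((((c.Y'.natAbs : ℕ) : ℤ) : ℤ) : ℚ) := by rw [← this]
          _ = _ := by rw [Int.cast_natCast]
      have h2 : decide (c.Y' < 0) = false := by simpa using h
      rw [h2, Bool.false_and, h1]
      simp
  have e5 : ((redof c (G, N)).2.1 : ℚ) = (c.a1 : ℚ) ^ (mergers G).length *
      ((c.Y' : ℚ) ^ nloops G *
        ((Lof c (G, N)).2.2.2.1 : ℚ) ^ ((Sof c (G, N)).2.1.length * (nonloops G).length)) := by
    rw [e2, e4, e0]
    split_ifs <;> ring
  have hb1 : (0 : ℚ) < c.b1 := by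
    rw [hc.b1]
    exact mul_pos hWq (mul_pos hW'q (by linarith))
  generalize hl : (Lof c (G, N)).2.1.length = l at *
  generalize ht : (Sof c (G, N)).2.1.length = t at *
  have hgpos : 0 < geo x l := lt_of_lt_of_le one_pos (geo_pos (by linarith) l)
  have hX2l : (0 : ℚ) < (c.X2 : ℚ) ^ l := by positivity
  have hDpos : (0 : ℚ) < ((Lof c (G, N)).2.2.1 : ℚ) := by rw [hD]; exact mul_pos hgpos hX2l
  have hden : (0 : ℚ) < (denof c (G, N) : ℚ) := by
    rw [e1]
    exact mul_pos (pow_pos hb1 _) (mul_pos (pow_pos hW'q _) (pow_pos hDpos _))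
  refine ⟨?_, ?_⟩
  · intro h
    rw [← e3, h] at hden
    simp at hden
  · rw [e5, e3, e1, hXp, hD, cst, hk, hc.a1, hc.b1, hc.hY']
    have h1 : (1 - y') ≠ 0 := by linarith
    have h2 : geo x l ≠ 0 := hgpos.ne'
    simp only [mul_pow, div_pow]
    field_simp

theorem core {c : Cs} {x y x' y' ρ : ℚ} (hc : CsOK c x y y' ρ) (hx : 1 ≤ x) (hy : |y| < 1)
    (hy' : |y'| < 1) (hρ0 : 0 ≤ ρ) (hρ1 : ρ ≤ 1)
    (hxx : (x' - 1) * (1 - y') = (x - 1) * (1 - y)) (G : MG) (hG : Valid G) (N : List Bool) :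
    Valid (redof c (G, N)).1 ∧ (redof c (G, N)).2.2 ≠ 0 ∧
      N.length * |tutte x' y' G - (redof c (G, N)).2.1 / (redof c (G, N)).2.2 *
        tutte x y (redof c (G, N)).1| ≤ |tutte x' y' G| := by
  obtain ⟨hy1, hy2⟩ := abs_lt.mp hy
  obtain ⟨hy1', hy2'⟩ := abs_lt.mp hy'
  obtain ⟨htpos, hut⟩ := Sof_spec hc hx hy1 hy2 hρ0 hρ1 (G, N)
  obtain ⟨hd0, hcst⟩ := cst_spec hc hx hy2' G hG N
  refine ⟨gadG_valid hG _ _ _, hd0, ?_⟩
  rw [hcst]
  have hg : (redof c (G, N)).1
    = gadG (Lof c (G, N)).2.1.length (Sof c (G, N)).2.1.length c.s G := rfl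
  rw [hg]
  have hEq : ((Eof c (G, N)).length : ℚ) = 4 * c.W' * ((G.2.length + 1) * (N.length + 1)) := by
    rw [Eof_length, hc.C0]; push_cast; ring
  generalize (Lof c (G, N)).2.1.length = l at *
  generalize (Sof c (G, N)).2.1.length = t at *
  generalize ((Eof c (G, N)).length : ℚ) = E at *
  have hW'q : (0 : ℚ) < c.W' := by exact_mod_cast hc.W'pos
  have hEpos : 0 < E := by rw [hEq]; positivity
  have hmain := main_ge hG hx hy hy' hxx l t htpos c.s
  have hyeff : |yeff x y l t c.s - y'| ≤ 2 / E := by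
    have e1 : yeff x y l t c.s - y' = ((1 - (1 - y) / geo x l) ^ t - ρ) *
        (if c.s then y else 1) := by
      rw [sub_mul, hc.hs]
      rfl
    have e2 : |(if c.s then y else 1 : ℚ)| ≤ 1 := by
      split_ifs
      · exact hy.le
      · simp
    rw [e1, abs_mul]
    calc _ ≤ |(1 - (1 - y) / geo x l) ^ t - ρ| * 1 :=
          mul_le_mul_of_nonneg_left e2 (abs_nonneg _)
      _ ≤ 2 / E := by rw [mul_one]; exact hut
  rcases Nat.eq_zero_or_pos N.length with h0 | h0
  · rw [h0, Nat.cast_zero, zero_mul]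
    exact abs_nonneg _
  · have hN1 : (1 : ℚ) ≤ N.length := by exact_mod_cast h0
    obtain ⟨θ, hθ⟩ : ∃ θ : ℚ, θ = |yeff x y l t c.s - y'| / (1 - |y'|) := ⟨_, rfl⟩
    rw [← hθ] at hmain
    have h1y : 0 < 1 - |y'| := by linarith
    have hθ0 : 0 ≤ θ := by rw [hθ]; exact div_nonneg (abs_nonneg _) h1y.le
    have hm : ((nonloops G).length : ℚ) ≤ G.2.length := by
      exact_mod_cast List.length_filter_le _ _
    have hθE : θ * E ≤ 2 * c.W' := by
      have h2 : θ * (1 - |y'|) ≤ 2 / E := by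
        rw [hθ, div_mul_cancel₀ _ h1y.ne']
        exact hyeff
      have h3 : θ * (1 - |y'|) * E ≤ 2 := by
        have := mul_le_mul_of_nonneg_right h2 hEpos.le
        rwa [div_mul_cancel₀ _ hEpos.ne'] at this
      have h4 : 0 ≤ θ * E := mul_nonneg hθ0 hEpos.le
      have h5 : θ * E * 1 ≤ θ * E * (c.W' * (1 - |y'|)) := mul_le_mul_of_nonneg_left hc.W1' h4
      have h6 : θ * E * (c.W' * (1 - |y'|)) = c.W' * (θ * (1 - |y'|) * E) := by ring
      have h7 : (c.W' : ℚ) * (θ * (1 - |y'|) * E) ≤ c.W' * 2 :=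
        mul_le_mul_of_nonneg_left h3 hW'q.le
      linarith
    have hkey : 2 * (((nonloops G).length : ℚ) * θ) * N.length ≤ 1 := by
      have e1 : θ * (4 * c.W' * ((G.2.length + 1) * (N.length + 1))) ≤ 2 * c.W' := by
        rw [← hEq]; exact hθE
      have e2 : θ * (2 * ((G.2.length + 1) * (N.length + 1))) ≤ 1 := by
        have e3 : (2 * (c.W' : ℚ)) * (θ * (2 * ((G.2.length + 1) * (N.length + 1))))
            ≤ (2 * c.W') * 1 := by linarith
        exact le_of_mul_le_mul_left e3 (by positivity)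
      have e4 : ((nonloops G).length : ℚ) * N.length
          ≤ (G.2.length + 1) * (N.length + 1) :=
        mul_le_mul (by linarith) (by linarith) (by linarith) (by positivity)
      have e5 := mul_le_mul_of_nonneg_left e4 hθ0
      linarith
    have hfin := pow_sub_one_le hθ0 (nonloops G).length N.length hN1 hkey
    have hfin2 := mul_le_mul_of_nonneg_left hmain (by linarith : (0 : ℚ) ≤ N.length)
    refine hfin2.trans ?_
    have hfin3 := mul_le_mul_of_nonneg_right hfin (abs_nonneg (tutte x' y' G))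
    linarith

/-- the ratio -/
def rat (y y' : ℚ) : ℚ := if y' < 0 then y' / y else y'

theorem rat_spec {y y' : ℚ} (hy2' : y' < 1) (hyy : 0 ≤ y' ∨ y ≤ y') :
    0 ≤ rat y y' ∧ rat y y' ≤ 1 ∧ rat y y' * (if (decide (y' < 0)) then y else 1) = y' := by
  unfold rat
  by_cases h : y' < 0
  · have hyy' : y ≤ y' := by rcases hyy with h' | h' <;> linarith
    have hy0 : y < 0 := by linarith
    simp only [h, if_true, decide_true]
    refine ⟨div_nonneg_of_nonpos h.le hy0.le, ?_, div_mul_cancel₀ _ hy0.ne⟩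
    rw [div_le_one_of_neg hy0]
    exact hyy'
  · simp only [h, if_false, decide_false]
    refine ⟨not_lt.mp h, hy2'.le, by simp⟩

/-- the constants of the reduction -/
def mkC (x y y' : ℚ) : Cs :=
  { X1 := x.num.toNat
    X2 := x.den
    W := y.den
    k0 := (x.num * (y.den - y.num) + y.num * x.den).toNat
    N1 := (y.den * x.num + y.num * x.den).toNat
    C0 := 4 * y'.den
    rn := (rat y y').num.toNat
    rd := (rat y y').den
    a1 := ((y.den - y.num) * y'.den : ℤ).toNat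
    b1 := (y.den * (y'.den - y'.num) : ℤ).toNat
    Y' := y'.num
    W' := y'.den
    s := decide (y' < 0) }

theorem cast_toNat {z : ℤ} {q : ℚ} (hz : (z : ℚ) = q) (hq : 0 ≤ q) :
    ((z.toNat : ℕ) : ℚ) = q := by
  have h0 : 0 ≤ z := by rw [← hz] at hq; exact_mod_cast hq
  have h1 : ((z.toNat : ℕ) : ℤ) = z := Int.toNat_of_nonneg h0
  calc ((z.toNat : ℕ) : ℚ) = (((z.toNat : ℕ) : ℤ) : ℚ) := by push_cast; rfl
    _ = q := by rw [h1, hz]

theorem mkC_ok {x y y' : ℚ} (hx : 1 ≤ x) (hy : |y| < 1) (hy' : |y'| < 1)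
    (hyy : 0 ≤ y' ∨ y ≤ y') : CsOK (mkC x y y') x y y' (rat y y') := by
  obtain ⟨hy1, hy2⟩ := abs_lt.mp hy
  obtain ⟨hy1', hy2'⟩ := abs_lt.mp hy'
  obtain ⟨hρ0, hρ1, hρy⟩ := rat_spec hy2' hyy
  have hxd : (0 : ℚ) < x.den := by exact_mod_cast x.den_pos
  have hyd : (0 : ℚ) < y.den := by exact_mod_cast y.den_pos
  have hyd' : (0 : ℚ) < y'.den := by exact_mod_cast y'.den_pos
  have hρd : (0 : ℚ) < (rat y y').den := by exact_mod_cast (rat y y').den_pos
  have exn : (x.num : ℚ) = x * x.den := (Rat.mul_den_eq_num x).symm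
  have eyn : (y.num : ℚ) = y * y.den := (Rat.mul_den_eq_num y).symm
  have eyn' : (y'.num : ℚ) = y' * y'.den := (Rat.mul_den_eq_num y').symm
  have eρn : ((rat y y').num : ℚ) = rat y y' * (rat y y').den :=
    (Rat.mul_den_eq_num (rat y y')).symm
  have cX1 : ((mkC x y y').X1 : ℚ) = x * x.den := cast_toNat exn (by positivity)
  refine
    { X2pos := x.den_pos
      X12 := ?_
      hX := cX1
      Wpos := y.den_pos
      W1 := ?_
      k0 := ?_
      N1 := ?_
      rdpos := (rat y y').den_pos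
      rn := cast_toNat eρn (by positivity)
      W'pos := y'.den_pos
      hY' := eyn'
      C0 := rfl
      a1 := ?_
      b1 := ?_
      W1' := ?_
      hs := hρy }
  · have : ((mkC x y y').X2 : ℚ) ≤ (mkC x y y').X1 := by
      rw [cX1]
      show (x.den : ℚ) ≤ x * x.den
      nlinarith
    exact_mod_cast this
  · show (1 : ℚ) ≤ y.den * (1 - y)
    have h1 : (0 : ℚ) < y.den * (1 - y) := mul_pos hyd (by linarith)
    have h2 : (y.den : ℚ) * (1 - y) = ((y.den - y.num : ℤ) : ℚ) := by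
      push_cast; rw [eyn]; ring
    rw [h2] at h1 ⊢
    have h3 : (0 : ℤ) < y.den - y.num := by exact_mod_cast h1
    have h4 : (1 : ℤ) ≤ y.den - y.num := by omega
    exact_mod_cast h4
  · rw [cX1]
    show (((x.num * (y.den - y.num) + y.num * x.den).toNat : ℕ) : ℚ)
      = x * x.den * (y.den * (1 - y)) + (y.den - y.den * (1 - y)) * x.den
    refine cast_toNat ?_ ?_
    · push_cast
      rw [exn, eyn]
      ring
    · have e1 : x * x.den * (y.den * (1 - y)) + ((y.den : ℚ) - y.den * (1 - y)) * x.den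
          = x.den * y.den * (x * (1 - y) + y) := by ring
      rw [e1]
      have : 0 ≤ x * (1 - y) + y := by nlinarith
      positivity
  · rw [cX1]
    show (((y.den * x.num + y.num * x.den).toNat : ℕ) : ℚ)
      = y.den * (x * x.den + x.den) - (y.den * (1 - y)) * x.den
    refine cast_toNat ?_ ?_
    · push_cast
      rw [exn, eyn]
      ring
    · have e1 : y.den * (x * x.den + (x.den : ℚ)) - (y.den * (1 - y)) * (x.den : ℚ)
          = x.den * y.den * (x + y) := by ring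
      rw [e1]
      have : 0 ≤ x + y := by linarith
      positivity
  · show ((((y.den - y.num) * y'.den : ℤ).toNat : ℕ) : ℚ) = y.den * (1 - y) * y'.den
    refine cast_toNat ?_ ?_
    · push_cast; rw [eyn]; ring
    · have : 0 < 1 - y := by linarith
      positivity
  · show (((y.den * (y'.den - y'.num) : ℤ).toNat : ℕ) : ℚ) = y.den * (y'.den * (1 - y'))
    refine cast_toNat ?_ ?_
    · push_cast; rw [eyn']; ring
    · have : 0 < 1 - y' := by linarith
      positivity
  · show (1 : ℚ) ≤ y'.den * (1 - |y'|)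
    have e1 : (0 : ℚ) < y'.den * (1 - |y'|) := mul_pos hyd' (by linarith)
    have e2 : (y'.den : ℚ) * (1 - |y'|) = ((y'.den - |y'.num| : ℤ) : ℚ) := by
      push_cast
      rw [eyn', abs_mul, abs_of_pos hyd']
      ring
    rw [e2] at e1 ⊢
    have e3 : (0 : ℤ) < y'.den - |y'.num| := by exact_mod_cast e1
    have e4 : (1 : ℤ) ≤ y'.den - |y'.num| := by omega
    exact_mod_cast e4

/-- **Reduction along a hyperbola.** -/
theorem apred_hyp {x y x' y' : ℚ} (hx : 1 ≤ x) (hy : |y| < 1) (hy' : |y'| < 1)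
    (hyy : 0 ≤ y' ∨ y ≤ y') (hxx : (x' - 1) * (1 - y') = (x - 1) * (1 - y)) :
    APRed (tutte x' y') (tutte x y) := by
  obtain ⟨hρ0, hρ1, -⟩ := rat_spec (abs_lt.mp hy').2 hyy
  exact ⟨redof (mkC x y y'), (isPolyTime_iff _).mpr (fp_redof _),
    fun G hG N => core (mkC_ok hx hy hy' hyy) hx hy hy' hρ0 hρ1 hxx G hG N⟩

end Pool.Agent.Helper47.TR
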